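import Pool.Agent.D0H26.Nil.Deck

/-!
# Lifts of homeomorphisms commuting with a factor
-/

set_option autoImplicit false
set_option linter.unusedSectionVars false

open Filter Topology Set Metric

namespace Pool.Agent.D0H26.Nil

open Pool.Agent.D0H26.Fac (HSp subV)

universe u v w

section
variable {V X : Type*} [NormedAddCommGroup V] [NormedSpace ℝ V] [FiniteDimensional ℝ V] [Group V]
  [TopologicalSpace X] [T2Space X] (D : DK V X)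

/-- lifts of a map -/
def DK.Lk (D : DK V X) (φ : X → X) (τ : V → V) : Prop :=
  Continuous τ ∧ ∀ x, D.F (τ x) = φ (D.F x)

theorem DK.uniqL {φ : X → X} {τ σ : V → V} (hτ : D.Lk φ τ) (hσ : D.Lk φ σ) (x : V)
    (h : τ x = σ x) : τ = σ :=
  D.cov.eq_of_comp_eq hτ.1 hσ.1 (funext fun y => (hτ.2 y).trans (hσ.2 y).symm) x h

theorem DK.exists_lk (φ : X → X) (hφ : Continuous φ) (x y : V) (h : D.F y = φ (D.F x)) :
    ∃ τ, D.Lk φ τ ∧ τ x = y := by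
  obtain ⟨F, ⟨h1, h2⟩, -⟩ := D.cov.existsUnique_continuousMap_lifts
    (⟨fun v => φ (D.F v), hφ.comp D.cov.continuous⟩ : C(V, X)) x y h
  exact ⟨F, ⟨F.continuous, fun z => congrFun h2 z⟩, h1⟩

theorem DK.lk_tr {φ : X → X} {τ : V → V} (hτ : D.Lk φ τ) {γ : V} (hγ : γ ∈ D.Γ) :
    D.Lk φ fun x => γ * τ x :=
  ⟨(D.cl γ).comp hτ.1, fun x => by rw [D.per _ hγ, hτ.2]⟩

theorem DK.lk_tr' {φ : X → X} {τ : V → V} (hτ : D.Lk φ τ) {γ : V} (hγ : γ ∈ D.Γ) :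
    D.Lk φ fun x => τ (γ * x) :=
  ⟨hτ.1.comp (D.cl γ), fun x => by rw [hτ.2, D.per _ hγ]⟩

theorem DK.lk_conj {φ : X → X} (hφ : ∀ x, φ (D.g x) = D.g (φ x)) {τ : V → V} (hτ : D.Lk φ τ)
    (n : ℕ) : D.Lk φ fun x => D.T^[n] (τ (D.T.symm^[n] x)) := by
  have hTc : Continuous D.T := (LinearMap.toContinuousLinearMap D.T.toLinearMap).continuous
  have hSc : Continuous D.T.symm :=
    (LinearMap.toContinuousLinearMap D.T.symm.toLinearMap).continuous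
  refine ⟨(hTc.iterate n).comp (hτ.1.comp (hSc.iterate n)), fun x => ?_⟩
  have h1 : Function.Semiconj φ D.g D.g := hφ
  rw [D.F_iter, hτ.2, ← (h1.iterate_right n) (D.F _), ← D.F_iter, D.sT]

/-- a power of the automorphism commutes with a lift up to an element of `Γ` -/
theorem DK.almost_commL {φ : X → X} (hφ : ∀ x, φ (D.g x) = D.g (φ x)) {τ : V → V}
    (hτ : D.Lk φ τ) :
    ∃ J : ℕ, 1 ≤ J ∧ ∃ γ ∈ D.Γ, ∀ x, D.T^[J] (τ (D.T.symm^[J] x)) = γ * τ x := by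
  obtain ⟨n1, n2, h12, γ, hγ, hw⟩ := D.pigeon (φ (D.F 1))
    (fun n => D.T^[n] (τ (D.T.symm^[n] 1))) (fun n => (D.lk_conj hφ hτ n).2 1)
  have h1 : (fun x => D.T^[n2] (τ (D.T.symm^[n2] x))) =
      fun x => γ * D.T^[n1] (τ (D.T.symm^[n1] x)) :=
    D.uniqL (D.lk_conj hφ hτ n2) (D.lk_tr (D.lk_conj hφ hτ n1) hγ) 1 hw
  refine ⟨n2 - n1, by omega, D.T.symm^[n1] γ, (D.T_iter_mem n1 hγ).2, fun x => ?_⟩
  have h2 := congrFun h1 (D.T^[n1] x)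
  have hinj : Function.Injective (D.T^[n1]) := D.T.injective.iterate n1
  apply hinj
  rw [D.Tm, D.sT]
  simp only [D.sT'] at h2
  rw [← h2, ← Function.iterate_add_apply]
  have h3 : n1 + (n2 - n1) = n2 := by omega
  rw [h3]
  congr 2
  have h4 : n2 = (n2 - n1) + n1 := by omega
  conv_rhs => rw [h4]
  rw [Function.iterate_add_apply, D.sT']

theorem DK.cocL {φ : X → X} {τ : V → V} (hτ : D.Lk φ τ) :
    ∃ R' : ℝ, ∀ x, ∃ γ ∈ D.Γ₀ τ, ‖γ * x‖ ≤ R' := by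
  classical
  have hpr : ProperSpace V := FiniteDimensional.proper ℝ V
  obtain ⟨S, hS⟩ := D.fib (φ (D.F 1))
  have hex : ∀ γ : V, ∃ s g : V, γ ∈ D.Γ → s ∈ S ∧ g ∈ D.Γ ∧ τ γ = g * s := by
    intro γ
    by_cases hγ : γ ∈ D.Γ
    · obtain ⟨s, hs, g, hg, h⟩ := hS (τ γ) (by
        rw [hτ.2]
        have := D.per γ hγ 1
        rw [mul_one] at this
        rw [this])
      exact ⟨s, g, fun _ => ⟨hs, hg, h⟩⟩
    · exact ⟨1, 1, fun h => absurd h hγ⟩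
  choose s g hsg using hex
  have hrep : ∀ t : V, ∃ r : V, r ∈ D.Γ ∧ ((∃ γ ∈ D.Γ, s γ = t) → s r = t) := by
    intro t
    by_cases h : ∃ γ ∈ D.Γ, s γ = t
    · obtain ⟨γ, hγ, h⟩ := h
      exact ⟨γ, hγ, fun _ => h⟩
    · exact ⟨1, D.Γ.one_mem, fun h' => absurd h' h⟩
  choose r hr hrs using hrep
  have hbd : ∀ t : V, ∃ C : ℝ, ∀ v, ‖v‖ ≤ D.R → ‖r t * v‖ ≤ C := by
    intro t
    obtain ⟨C, hC⟩ := (isCompact_closedBall (0 : V) D.R).exists_bound_of_continuousOn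
      (D.cl (r t)).continuousOn
    exact ⟨C, fun v hv => hC v (mem_closedBall_zero_iff.2 hv)⟩
  choose C hC using hbd
  refine ⟨∑ t ∈ S, |C t|, fun x => ?_⟩
  obtain ⟨γ, hγ, hn⟩ := D.coc x
  have hγi := D.Γ.inv_mem hγ
  obtain ⟨t, ht⟩ : ∃ t, t = s γ⁻¹ := ⟨_, rfl⟩
  obtain ⟨h1, h2, h3⟩ := hsg _ hγi
  rw [← ht] at h1 h3
  have hrt : s (r t) = t := hrs t ⟨_, hγi, ht.symm⟩
  obtain ⟨h4, h5, h6⟩ := hsg _ (hr t)
  rw [hrt] at h6
  have h7 : γ⁻¹ * (r t)⁻¹ ∈ D.Γ₀ τ := by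
    refine ⟨D.Γ.mul_mem hγi (D.Γ.inv_mem (hr t)), g γ⁻¹ * (g (r t))⁻¹,
      D.Γ.mul_mem h2 (D.Γ.inv_mem h5), fun x => ?_⟩
    have h8 : (fun x => τ (γ⁻¹ * x)) = fun x => (g γ⁻¹ * (g (r t))⁻¹) * τ (r t * x) := by
      refine D.uniqL (D.lk_tr' hτ hγi) (D.lk_tr (D.lk_tr' hτ (hr t))
        (D.Γ.mul_mem h2 (D.Γ.inv_mem h5))) 1 ?_
      show τ (γ⁻¹ * 1) = (g γ⁻¹ * (g (r t))⁻¹) * τ (r t * 1)
      rw [mul_one, mul_one, h3, h6]
      group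
    have h9 := congrFun h8 ((r t)⁻¹ * x)
    simp only [mul_inv_cancel_left] at h9
    rw [mul_assoc γ⁻¹]
    exact h9
  refine ⟨(γ⁻¹ * (r t)⁻¹)⁻¹, (D.Γ₀ τ).inv_mem h7, ?_⟩
  have h10 : (γ⁻¹ * (r t)⁻¹)⁻¹ * x = r t * (γ * x) := by group
  rw [h10]
  refine (hC t _ hn).trans ((le_abs_self _).trans ?_)
  exact Finset.single_le_sum (f := fun t => |C t|) (fun i _ => abs_nonneg _) h1

/-- lifts of homeomorphisms are homeomorphisms -/
theorem DK.homeoL (φ : X ≃ₜ X) (x y : V) (h : D.F y = φ (D.F x)) :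
    ∃ τ : V ≃ₜ V, τ x = y ∧ ∀ w, D.F (τ w) = φ (D.F w) := by
  obtain ⟨τ, hτ, hxy⟩ := D.exists_lk φ φ.continuous x y h
  obtain ⟨σ, hσ, hyx⟩ := D.exists_lk φ.symm φ.symm.continuous y x (by
    rw [h, φ.symm_apply_apply])
  have hid : D.Dk id := ⟨continuous_id, fun _ => rfl⟩
  have h1 : σ ∘ τ = id := D.uniq ⟨hσ.1.comp hτ.1, fun z => by
      show D.F (σ (τ z)) = D.F z
      rw [hσ.2, hτ.2, φ.symm_apply_apply]⟩ hid x (by
    show σ (τ x) = x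
    rw [hxy, hyx])
  have h2 : τ ∘ σ = id := D.uniq ⟨hτ.1.comp hσ.1, fun z => by
      show D.F (τ (σ z)) = D.F z
      rw [hτ.2, hσ.2, φ.apply_symm_apply]⟩ hid y (by
    show τ (σ y) = y
    rw [hyx, hxy])
  exact ⟨{ toFun := τ
           invFun := σ
           left_inv := fun z => congrFun h1 z
           right_inv := fun z => congrFun h2 z
           continuous_toFun := hτ.1
           continuous_invFun := hσ.1 }, hxy, hτ.2⟩

theorem DK.hdL {φ : X → X} (hφ : ∀ x, φ (D.g x) = D.g (φ x)) (τ : V ≃ₜ V)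
    (hτ : ∀ w, D.F (τ w) = φ (D.F w)) :
    ∃ D' : HD V, ∀ w, D'.δ w = (τ 1)⁻¹ * τ w := by
  have hdk : D.Lk φ τ := ⟨τ.continuous, hτ⟩
  obtain ⟨J, hJ, γ', hγ', hcom⟩ := D.almost_commL hφ hdk
  obtain ⟨R', hR'⟩ := D.cocL hdk
  have hT : ∀ x, τ (D.T^[J] x) = γ'⁻¹ * D.T^[J] (τ x) := by
    intro x
    have := hcom (D.T^[J] x)
    rw [D.sT'] at this
    rw [this, inv_mul_cancel_left]
  have hTs : ∀ x, τ (D.T.symm^[J] x) = D.T.symm^[J] γ' * D.T.symm^[J] (τ x) := by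
    intro x
    have h1 := congrArg (D.T.symm^[J]) (hcom x)
    rw [D.sT', D.Tm'] at h1
    exact h1
  have hc : D.T^[J] (τ 1) = γ' * τ 1 := by
    have := hcom 1
    rwa [(D.T1 J).2] at this
  obtain ⟨c, hcdef⟩ : ∃ c, c = τ 1 := ⟨_, rfl⟩
  rw [← hcdef] at hc
  let δ' : V ≃ₜ V :=
    { toFun := fun w => c⁻¹ * τ w
      invFun := fun y => τ.symm (c * y)
      left_inv := fun w => by
        show τ.symm (c * (c⁻¹ * τ w)) = w
        rw [mul_inv_cancel_left, τ.symm_apply_apply]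
      right_inv := fun y => by
        show c⁻¹ * τ (τ.symm (c * y)) = y
        rw [τ.apply_symm_apply, inv_mul_cancel_left]
      continuous_toFun := (D.cl c⁻¹).comp τ.continuous
      continuous_invFun := τ.symm.continuous.comp (D.cl c) }
  refine ⟨{ toNB := D.toNB.it J hJ
            Γ := D.Γ₀ τ
            TΓ := ?_
            TΓ' := ?_
            R := R'
            coc := hR'
            δ := δ'
            eq := ?_
            com := ?_ }, fun w => by rw [← hcdef]; rfl⟩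
  · rintro γ ⟨hγ, γ₁, hγ₁, h⟩
    refine ⟨(D.T_iter_mem J hγ).1, γ'⁻¹ * D.T^[J] γ₁ * γ', D.Γ.mul_mem (D.Γ.mul_mem
      (D.Γ.inv_mem hγ') (D.T_iter_mem J hγ₁).1) hγ', fun x => ?_⟩
    show τ (D.T^[J] γ * x) = _
    have e1 : D.T^[J] γ * x = D.T^[J] (γ * D.T.symm^[J] x) := by rw [D.Tm, D.sT]
    rw [e1, hT, h, D.Tm, hcom]
    group
  · rintro γ ⟨hγ, γ₁, hγ₁, h⟩
    refine ⟨(D.T_iter_mem J hγ).2, D.T.symm^[J] γ' * D.T.symm^[J] γ₁ * (D.T.symm^[J] γ')⁻¹,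
      D.Γ.mul_mem (D.Γ.mul_mem (D.T_iter_mem J hγ').2 (D.T_iter_mem J hγ₁).2)
        (D.Γ.inv_mem (D.T_iter_mem J hγ').2), fun x => ?_⟩
    show τ (D.T.symm^[J] γ * x) = _
    have e1 : D.T.symm^[J] γ * x = D.T.symm^[J] (γ * D.T^[J] x) := by rw [D.Tm', D.sT']
    have e2 : D.T.symm^[J] (τ (D.T^[J] x)) = (D.T.symm^[J] γ')⁻¹ * τ x := by
      have e3 : D.T.symm^[J] γ' * D.T.symm^[J] (τ (D.T^[J] x)) = τ x := by
        rw [← hTs, D.sT']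
      rw [← e3, inv_mul_cancel_left]
    rw [e1, hTs, h, D.Tm', e2]
    group
  · rintro γ ⟨hγ, γ₁, hγ₁, h⟩ x
    show c⁻¹ * τ (γ * x) = c⁻¹ * τ γ * (c⁻¹ * τ x)
    have h1 := h 1
    rw [mul_one, ← hcdef] at h1
    rw [h, h1]
    group
  · intro x
    show c⁻¹ * τ (D.T^[J] x) = D.T^[J] (c⁻¹ * τ x)
    have e1 : D.T^[J] c⁻¹ = (D.T^[J] c)⁻¹ := by
      have e2 := D.Tm J c c⁻¹
      rw [mul_inv_cancel, (D.T1 J).1] at e2
      exact eq_inv_of_mul_eq_one_right e2.symm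
    rw [hT, D.Tm, e1, hc]
    group

end

end Pool.Agent.D0H26.Nil
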