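import Pool.Agent.D0H26.Nil.Grp

/-!
# Statements of the third block (with proofs in words)
-/

set_option autoImplicit false

open Filter Topology Set Metric

namespace Pool.Agent.D0H26.Nil

open Pool.Agent.D0H26.Fac (HSp subV)

universe u

/-- **HYP.**  A linear automorphism without nonzero bounded two-sided orbits has a hyperbolic
splitting.  Proof: take a basis, `e : V ≃L[ℝ] (Fin m → ℝ)`, and the real matrix `M` of `e T e⁻¹`; the
complex linear map of `M` has no eigenvalue `μ` of modulus one (if `M w = μ w` then the real parts of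
`c w`, `c ∈ ℂ`, have bounded orbits, so `w = 0`; see `hypMat_of` in `Pool.Agent.D0H26.Fac.Mat` for integer
matrices); apply `complex_split` of `Pool.Agent.D0H26.Fac.Lin` and take real parts as in
`exists_hsp` there (for integer matrices), then transport by `e` (the constant `C` changes by
`‖e‖ ‖e⁻¹‖`). -/
def S_HYP : Prop :=
  ∀ (V : Type u) [NormedAddCommGroup V] [NormedSpace ℝ V] [FiniteDimensional ℝ V]
    (T : V ≃ₗ[ℝ] V), (∀ (v : V) (K : ℝ), (∀ n : ℕ, ‖T^[n] v‖ ≤ K) →
      (∀ n : ℕ, ‖T.symm^[n] v‖ ≤ K) → v = 0) → Nonempty (HSp T)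

/-- **LANG.**  `x ↦ x * (T x)⁻¹` is onto for a hyperbolic automorphism.
Proof: by induction on `i` from `i = n` down: for `c ∈ W i` there is `x ∈ W i` with `x * (T x)⁻¹ = c`.
`i = n`: `c = 0 = 1`, `x = 1`.  Step: `id - T` is injective on `W i` (a fixed vector has a bounded orbit,
`D.H.eq_zero`), hence onto `W i` (finite dimension): `x - T x = c`.  Then `c' = x⁻¹ * c * T x` lies in
`W (i + 1)` by `NB.W_add` (`-x + c + T x = 0`), so `c' = y * (T y)⁻¹` and `c = (x y) * (T (x y))⁻¹`. -/
def S_LANG : Prop :=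
  ∀ (V : Type u) [NormedAddCommGroup V] [NormedSpace ℝ V] [FiniteDimensional ℝ V] [Group V]
    (D : NB V) (c : V), ∃ x : V, x * (D.T x)⁻¹ = c

end Pool.Agent.D0H26.Nil
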