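import Pool.Agent.D0H26.Nil.Leaf

/-!
# Rigidity: homomorphisms modulo the centre
-/

set_option autoImplicit false
set_option linter.unusedSectionVars false

open Filter Topology Set Metric

namespace Pool.Agent.D0H26.Nil

open Pool.Agent.D0H26.Fac (HSp subV)

universe u v w

section
variable {V : Type*} [NormedAddCommGroup V] [NormedSpace ℝ V] [FiniteDimensional ℝ V] [Group V]
  (D : HD V)

/-- the defect of the homomorphism property -/
def HD.d (x y : V) : V := (D.δ x * D.δ y)⁻¹ * D.δ (x * y)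

theorem HD.mul_d (x y : V) : D.δ (x * y) = D.δ x * D.δ y * D.d x y := by
  show _ = D.δ x * D.δ y * ((D.δ x * D.δ y)⁻¹ * D.δ (x * y))
  rw [mul_inv_cancel_left]

theorem HD.d_eq (x y : V) : D.d x y = (D.δ y)⁻¹ * D.E y x := by
  show (D.δ x * D.δ y)⁻¹ * D.δ (x * y) = (D.δ y)⁻¹ * ((D.δ x)⁻¹ * D.δ (x * y))
  group

theorem HD.E_eq (x y : V) : D.E y x = D.δ y * D.d x y := by
  rw [D.d_eq, mul_inv_cancel_left]

theorem HD.d_one (a : V) : D.d 1 a = 1 := by
  show (D.δ 1 * D.δ a)⁻¹ * D.δ (1 * a) = 1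
  rw [D.δ_one, one_mul, one_mul, inv_mul_cancel]

theorem HD.d_one' (x : V) : D.d x 1 = 1 := by
  show (D.δ x * D.δ 1)⁻¹ * D.δ (x * 1) = 1
  rw [D.δ_one, mul_one, mul_one, inv_mul_cancel]

theorem HD.δ_s {a : V} (ha : D.H.u a = 0) : D.H.u (D.δ a) = 0 := by
  rw [← D.E_one]
  exact D.leaf_s 1 a ha

theorem HD.δ_u {a : V} (ha : D.H.s a = 0) : D.H.s (D.δ a) = 0 := by
  rw [← D.E_one]
  exact D.leaf_u 1 a ha

theorem HD.d_s (S : Sp D.toNB) {a : V} (ha : D.H.u a = 0) (x : V) : D.H.u (D.d x a) = 0 := by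
  rw [D.d_eq]
  exact S.mul_s _ _ (S.inv_s _ (D.δ_s ha)) (D.leaf_s x a ha)

theorem HD.d_u (S : Sp D.toNB) {a : V} (ha : D.H.s a = 0) (x : V) : D.H.s (D.d x a) = 0 := by
  rw [D.d_eq]
  exact S.mul_u _ _ (S.inv_u _ (D.δ_u ha)) (D.leaf_u x a ha)

theorem HD.d_cont (a : V) : Continuous fun x => D.d x a := by
  have e : (fun x => D.d x a) = fun x => (D.δ a)⁻¹ * D.E a x := funext fun x => D.d_eq x a
  rw [e]
  exact D.cmul.comp (continuous_const.prodMk (D.E_cont a))

theorem HD.d_per {γ : V} (hγ : γ ∈ D.Γ) (a x : V) : D.d (γ * x) a = D.d x a := by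
  rw [D.d_eq, D.E_per hγ, D.d_eq]

theorem HD.d_bdd (a : V) : ∃ C : ℝ, ∀ x, ‖D.d x a‖ ≤ C := by
  have hpr : ProperSpace V := FiniteDimensional.proper ℝ V
  obtain ⟨C, hC⟩ := D.E_bdd ‖a‖
  have hc : Continuous fun v : V => (D.δ a)⁻¹ * v :=
    D.cmul.comp (continuous_const.prodMk continuous_id)
  obtain ⟨C', hC'⟩ := (isCompact_closedBall (0 : V) C).exists_bound_of_continuousOn
    hc.continuousOn
  refine ⟨C', fun x => ?_⟩
  rw [D.d_eq]
  exact hC' _ (mem_closedBall_zero_iff.2 (hC _ _ le_rfl))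

theorem HD.cen_core (S : Sp D.toNB) (h : ∀ x y z, D.d x y * z = z * D.d x y) (m : ℕ) :
    ∀ j : ℕ, D.n ≤ j + m → ∀ a ∈ D.W j, D.H.u a = 0 → ∀ x, D.d x a = 1 := by
  induction m with
  | zero =>
    intro j hj a ha _ x
    have h1 := D.W_le (show D.n ≤ j by omega) ha
    rw [D.Wn, Submodule.mem_bot, ← D.one_eq] at h1
    rw [h1, D.d_one']
  | succ m ih =>
    intro j hj a ha has x
    -- the key relation
    have key : ∀ w, D.H.s w = 0 → ∀ x, D.d (x * w) a = D.d x a * D.d w a := by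
      intro w hw
      obtain ⟨b, hb⟩ : ∃ b, b = S.A _ a w 1 := ⟨_, rfl⟩
      have hbs : D.H.u b = 0 := by rw [hb]; exact S.A_s _ has w 1
      have hbW : b ∈ D.W (j + 1) := by rw [hb]; exact S.A_mem _ has hw ha 1
      have hab : a * b = S.ps (w⁻¹ * a) := by
        rw [hb, S.mul_A, one_smul]
      have hdb : ∀ x, D.d x b = 1 := ih (j + 1) (by omega) b hbW hbs
      have main : ∀ x, D.d (x * w) a * (D.δ a * D.δ b) =
          D.d x a * S.ps ((D.δ w)⁻¹ * D.δ a) := by
        intro x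
        have e1 := D.leaf_rel S x a w has hw
        rw [← hab] at e1
        have e2 : D.E (a * b) (x * w) = D.d (x * w) a * (D.δ a * D.δ b) := by
          show (D.δ (x * w))⁻¹ * D.δ (x * w * (a * b)) = _
          rw [← mul_assoc (x * w) a b, D.mul_d (x * w * a) b, hdb, mul_one, D.mul_d (x * w) a]
          have := h (x * w) a (D.δ a)
          calc (D.δ (x * w))⁻¹ * (D.δ (x * w) * D.δ a * D.d (x * w) a * D.δ b) =
              (D.δ a * D.d (x * w) a) * D.δ b := by group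
            _ = D.d (x * w) a * (D.δ a * D.δ b) := by rw [← this]; group
        have e3 : (D.E w x)⁻¹ * D.E a x =
            D.d x a * ((D.δ w)⁻¹ * D.δ a) * (D.d x w)⁻¹ := by
          rw [D.E_eq, D.E_eq, mul_inv_rev]
          have c1 := h x a ((D.δ w)⁻¹ * D.δ a)
          have c2 : (D.d x w)⁻¹ * ((D.δ w)⁻¹ * D.δ a * D.d x a) =
              (D.δ w)⁻¹ * D.δ a * D.d x a * (D.d x w)⁻¹ := by
            rw [inv_mul_eq_iff_eq_mul, ← mul_assoc, h x w, mul_inv_cancel_right]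
          calc (D.d x w)⁻¹ * (D.δ w)⁻¹ * (D.δ a * D.d x a) =
              (D.d x w)⁻¹ * ((D.δ w)⁻¹ * D.δ a * D.d x a) := by group
            _ = D.d x a * ((D.δ w)⁻¹ * D.δ a) * (D.d x w)⁻¹ := by rw [c2, c1]
        rw [e2, e3, S.ps_mul_u _ _ (S.inv_u _ (D.d_u S hw x)), S.ps_s_mul _ (D.d_s S has x)] at e1
        exact e1
      intro x
      have m1 := main x
      have m2 := main 1
      rw [one_mul, D.d_one, one_mul] at m2
      rw [← m2, ← mul_assoc (D.d x a)] at m1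
      exact mul_right_cancel m1
    obtain ⟨C, hC⟩ := D.d_bdd a
    have hw1 : ∀ w, D.H.s w = 0 → D.d w a = 1 := by
      intro w hw
      have hpw : ∀ k : ℕ, D.H.s (w ^ k) = 0 := by
        intro k
        rw [D.pow_eq, map_smul, hw, smul_zero]
      have h1 : ∀ k : ℕ, D.d (w ^ k) a = (k : ℝ) • D.d w a := by
        intro k
        rw [← D.pow_eq]
        induction k with
        | zero => rw [pow_zero, pow_zero, D.d_one]
        | succ k ihk => rw [pow_succ, key w hw, ihk, ← pow_succ]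
      rw [D.one_eq]
      by_contra hne
      have hpos : 0 < ‖D.d w a‖ := norm_pos_iff.2 hne
      obtain ⟨k, hk⟩ := exists_nat_gt (C / ‖D.d w a‖)
      have h2 := hC (w ^ k)
      rw [h1, norm_smul, Real.norm_natCast] at h2
      rw [div_lt_iff₀ hpos] at hk
      linarith
    have h3 := D.const S (fun x => D.d x a) (D.d_cont a) (fun γ hγ x => D.d_per hγ a x)
      (fun x w hw => by
        show D.d (x * w) a = D.d x a
        rw [key w hw, hw1 w hw, mul_one]) x
    simp only [D.d_one] at h3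
    exact h3

theorem HD.cen_half (S : Sp D.toNB) (h : ∀ x y z, D.d x y * z = z * D.d x y) {a : V}
    (ha : D.H.u a = 0) (x : V) : D.δ (x * a) = D.δ x * D.δ a := by
  have h1 := D.cen_core S h D.n 0 (by omega) a (by rw [D.W0]; trivial) ha x
  rw [D.mul_d, h1, mul_one]

end

theorem cen : S_CEN.{u} := by
  intro V _ _ _ _ D S h x y
  have h' : ∀ x y z, D.d x y * z = z * D.d x y := fun x y z => h x y z
  have k1 : ∀ a x, D.H.u a = 0 → D.δ (x * a) = D.δ x * D.δ a := fun a x ha =>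
    D.cen_half S h' ha x
  have k2 : ∀ a x, D.H.s a = 0 → D.δ (x * a) = D.δ x * D.δ a := fun a x ha =>
    D.swap.cen_half S.swap h' ha x
  conv_lhs => rw [← S.dec y, ← mul_assoc, k2 _ _ (S.eu y), k1 _ _ (S.es y)]
  conv_rhs => rw [← S.dec y, k2 _ _ (S.eu y)]
  rw [mul_assoc]

end Pool.Agent.D0H26.Nil
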