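import Pool.Agent.D0H26.Nil.Exit

/-!
# Periods of minimal level are central
-/

set_option autoImplicit false
set_option linter.unusedSectionVars false

open Filter Topology Set Metric

namespace Pool.Agent.D0H26.Nil

open Pool.Agent.D0H26.Fac (HSp subV)

variable {V Y : Type*} [NormedAddCommGroup V] [NormedSpace ℝ V] [FiniteDimensional ℝ V] [Group V]
  [MetricSpace Y]

/-- the inverse of the automorphism -/
def NB.swap (D : NB V) : NB V where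
  cmul := D.cmul
  line := D.line
  acom := D.acom
  T := D.T.symm
  Tmul := D.Tsmul
  H := D.H.swap
  n := D.n
  W := D.W
  W0 := D.W0
  Wn := D.Wn
  Wanti := D.Wanti
  Wid := D.Wid
  Wcom := D.Wcom
  WT i := symm_mem D.T (D.W i) (D.WT i)

/-- the inverse system -/
def ND.swap (D : ND V Y) : ND V Y where
  toNB := D.toNB.swap
  Γ := D.Γ
  TΓ := D.TΓ'
  TΓ' := D.TΓ
  R := D.R
  coc := D.coc
  g := D.g.symm
  F := D.F
  cont := D.cont
  per := D.per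
  equi x := by
    show D.F (D.T.symm x) = D.g.symm (D.F x)
    rw [Homeomorph.eq_symm_apply, ← D.equi, D.T.apply_symm_apply]
  ε := D.ε
  hε := D.hε
  exp a b h1 h2 := D.exp a b h2 h1

/-- the swapped decomposition -/
def Sp.swap {D : NB V} (S : Sp D) : Sp D.swap where
  mul_s := S.mul_u
  mul_u := S.mul_s
  ps x := (S.pu x⁻¹)⁻¹
  pu x := (S.ps x⁻¹)⁻¹
  cps := D.cinv.comp (S.cpu.comp D.cinv)
  cpu := D.cinv.comp (S.cps.comp D.cinv)
  es x := S.inv_u _ (S.eu _)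
  eu x := S.inv_s _ (S.es _)
  dec := S.dec' _
  Ws i _ hx := D.W_inv (S.Wu i _ (D.W_inv hx))
  Wu i _ hx := D.W_inv (S.Ws i _ (D.W_inv hx))

variable (D : ND V Y) (S : Sp D.toNB)

include S in
/-- without small stable and unstable identifications there are no small identifications -/
theorem ND.noid (i : ℕ) (h1 : D.NoS i) (h2 : D.swap.NoS i) :
    ∃ ρ > 0, ∀ x c, c ∈ D.W i → ‖c‖ < ρ → D.F (x * c) = D.F x → c = 1 := by
  obtain ⟨ρ₁, hρ₁, h1⟩ := h1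
  obtain ⟨ρ₂, hρ₂, h2⟩ := h2
  obtain ⟨δ, hδ, hst⟩ := D.st1 S
  have hc : ∀ᶠ c in 𝓝 (0 : V), ‖S.ps c‖ < ρ₁ := by
    have : ContinuousAt (fun c : V => ‖S.ps c‖) 0 := S.cps.norm.continuousAt
    apply this.eventually_lt_const
    show ‖S.ps 0‖ < ρ₁
    rw [← D.one_eq, (S.ps_one _).1, D.one_eq, norm_zero]
    exact hρ₁
  obtain ⟨δ', hδ', h3⟩ := Metric.eventually_nhds_iff.1 hc
  refine ⟨min δ (min δ' ρ₂), lt_min hδ (lt_min hδ' hρ₂), fun x c hcW hc hx => ?_⟩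
  have hc1 : ‖c‖ < δ := hc.trans_le (min_le_left _ _)
  have hc2 : ‖c‖ < δ' := hc.trans_le ((min_le_right _ _).trans (min_le_left _ _))
  have hc3 : ‖c‖ < ρ₂ := hc.trans_le ((min_le_right _ _).trans (min_le_right _ _))
  have h4 : S.ps c = 0 := h1 x _ (S.es c) (S.Ws _ _ hcW)
    (h3 (by rwa [dist_zero_right])).le (hst x c hc1 hx)
  have h5 : c = S.pu c := by
    have := S.dec c
    rw [h4, ← D.one_eq, one_mul] at this
    exact this.symm
  have h6 : D.H.s c = 0 := by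
    rw [h5]
    exact S.eu _
  rw [D.one_eq]
  exact h2 x c h6 hcW hc3.le hx

include S in
/-- small identifications of minimal level are periods -/
theorem ND.smallP (j : ℕ) (h1 : D.NoS (j + 1)) (h2 : D.swap.NoS (j + 1)) :
    ∃ ρ > 0, ∀ x d, d ∈ D.W j → ‖d‖ < ρ → D.F (x * d) = D.F x → d ∈ D.P := by
  obtain ⟨ρ₁, hρ₁, e1⟩ := D.exit S j h1
  obtain ⟨ρ₂, hρ₂, e2⟩ := D.swap.exit S.swap j h2
  obtain ⟨δ, hδ, hst⟩ := D.st1 S
  have hc : ∀ᶠ c in 𝓝 (0 : V), ‖S.ps c‖ < ρ₁ ∧ ‖S.pu c‖ < ρ₂ := by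
    have t1 : ContinuousAt (fun c : V => ‖S.ps c‖) 0 := S.cps.norm.continuousAt
    have t2 : ContinuousAt (fun c : V => ‖S.pu c‖) 0 := S.cpu.norm.continuousAt
    refine (t1.eventually_lt_const ?_).and (t2.eventually_lt_const ?_)
    · show ‖S.ps 0‖ < ρ₁
      rw [← D.one_eq, (S.ps_one _).1, D.one_eq, norm_zero]
      exact hρ₁
    · show ‖S.pu 0‖ < ρ₂
      rw [← D.one_eq, (S.ps_one _).2, D.one_eq, norm_zero]
      exact hρ₂
  obtain ⟨δ', hδ', h3⟩ := Metric.eventually_nhds_iff.1 hc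
  refine ⟨min δ δ', lt_min hδ hδ', fun x d hdW hd hx => ?_⟩
  have hd1 : ‖d‖ < δ := hd.trans_le (min_le_left _ _)
  have hd2 : ‖d‖ < δ' := hd.trans_le (min_le_right _ _)
  obtain ⟨h4, h5⟩ := h3 (show dist d 0 < δ' by rwa [dist_zero_right])
  have h6 := hst x d hd1 hx
  have h7 : S.ps d ∈ D.P := e1 x _ (S.es d) (S.Ws _ _ hdW) h4 h6
  have h8 : S.pu d ∈ D.P := by
    refine e2 (x * S.ps d) _ (S.eu d) (S.Wu _ _ hdW) h5 ?_
    show D.F (x * S.ps d * S.pu d) = D.F (x * S.ps d)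
    rw [mul_assoc, S.dec, hx, h6]
  have := D.P.mul_mem h7 h8
  rwa [S.dec] at this

include S in
/-- recurrence of the powers of a period -/
theorem ND.recur (j : ℕ) (h1 : D.NoS (j + 1)) (h2 : D.swap.NoS (j + 1)) (a : V) (ha : a ∈ D.P)
    (haW : a ∈ D.W j) (ρ : ℝ) (hρ : 0 < ρ) :
    ∃ (i M : ℕ) (k d : V), 1 ≤ M ∧ k ∈ D.Γ ∧ k ∈ D.P ∧ k ∈ D.W j ∧ d ∈ D.P ∧ d ∈ D.W j ∧
      ‖d‖ < ρ ∧ k = a ^ i * d * (a ^ (i + M))⁻¹ := by
  have hpr : ProperSpace V := FiniteDimensional.proper ℝ V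
  obtain ⟨ρ', hρ', hsm⟩ := D.smallP S j h1 h2
  have haWi : ∀ i : ℕ, a ^ i ∈ D.W j := by
    intro i
    induction i with
    | zero => rw [pow_zero]; exact D.W_one j
    | succ i ih => rw [pow_succ]; exact D.W_mul ih haW
  choose γ hγ hγW hγn using fun i : ℕ => D.coc j (a ^ i) (haWi i)
  obtain ⟨s, hs, φ, hφ, hlim⟩ := (isCompact_closedBall (0 : V) D.R).tendsto_subseq
    (fun i => mem_closedBall_zero_iff.2 (hγn i))
  have hlim' : Tendsto (fun i => γ (φ (i + 1)) * a ^ φ (i + 1)) atTop (𝓝 s) :=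
    hlim.comp (tendsto_add_atTop_nat 1)
  have hd : Tendsto (fun i => (γ (φ i) * a ^ φ i)⁻¹ * (γ (φ (i + 1)) * a ^ φ (i + 1))) atTop
      (𝓝 0) := by
    have hm : Continuous fun p : V × V => p.1⁻¹ * p.2 :=
      D.cmul.comp ((D.cinv.comp continuous_fst).prodMk continuous_snd)
    have h3 : Tendsto (fun i => ((γ (φ i) * a ^ φ i, γ (φ (i + 1)) * a ^ φ (i + 1)) : V × V))
        atTop (𝓝 (s, s)) := hlim.prodMk_nhds hlim'
    have h4 : Tendsto (fun i => (γ (φ i) * a ^ φ i)⁻¹ * (γ (φ (i + 1)) * a ^ φ (i + 1))) atTop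
        (𝓝 (s⁻¹ * s)) := (hm.tendsto (s, s)).comp h3
    rwa [inv_mul_cancel, D.one_eq] at h4
  obtain ⟨i, hi⟩ := ((tendsto_order.1 (tendsto_zero_iff_norm_tendsto_zero.1 hd)).2 (min ρ ρ')
    (lt_min hρ hρ')).exists
  obtain ⟨d, hddef⟩ : ∃ d, d = (γ (φ i) * a ^ φ i)⁻¹ * (γ (φ (i + 1)) * a ^ φ (i + 1)) :=
    ⟨_, rfl⟩
  rw [← hddef] at hi
  have hlt : φ i < φ (i + 1) := hφ (Nat.lt_succ_self i)
  have hpow : ∀ m : ℕ, a ^ m ∈ D.P := fun m => D.P.pow_mem ha m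
  have hFs : ∀ m, D.F (γ m * a ^ m) = D.F 1 := by
    intro m
    rw [D.per _ (hγ m)]
    have := hpow m 1
    rwa [one_mul] at this
  have hdW : d ∈ D.W j := by
    rw [hddef]
    exact D.W_mul (D.W_inv (D.W_mul (hγW _) (haWi _))) (D.W_mul (hγW _) (haWi _))
  have hdP : d ∈ D.P := by
    refine hsm (γ (φ i) * a ^ φ i) d hdW (hi.trans_le (min_le_right _ _)) ?_
    rw [hddef, mul_inv_cancel_left, hFs, hFs]
  have hk : (γ (φ i))⁻¹ * γ (φ (i + 1)) = a ^ φ i * d * (a ^ (φ i + (φ (i + 1) - φ i)))⁻¹ := by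
    have e1 : φ i + (φ (i + 1) - φ i) = φ (i + 1) := by omega
    rw [e1, hddef]
    group
  refine ⟨φ i, φ (i + 1) - φ i, (γ (φ i))⁻¹ * γ (φ (i + 1)), d, by omega,
    D.Γ.mul_mem (D.Γ.inv_mem (hγ _)) (hγ _), ?_, D.W_mul (D.W_inv (hγW _)) (hγW _), hdP, hdW,
    hi.trans_le (min_le_left _ _), hk⟩
  rw [hk]
  exact D.P.mul_mem (D.P.mul_mem (hpow _) hdP) (D.P.inv_mem (hpow _))

include S in
/-- periods in the lattice, of minimal level, are central -/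
theorem ND.central_lattice (j : ℕ) (h1 : D.NoS (j + 1)) (h2 : D.swap.NoS (j + 1)) (k : V)
    (hΓ : k ∈ D.Γ) (hP : k ∈ D.P) (hW : k ∈ D.W j) (x : V) : x * k = k * x := by
  obtain ⟨ρ, hρ, hno⟩ := D.noid S (j + 1) h1 h2
  have hc : ∀ᶠ x in 𝓝 (0 : V), ‖x⁻¹ * k⁻¹ * x * k‖ < ρ := by
    have hcont : Continuous fun x : V => ‖x⁻¹ * k⁻¹ * x * k‖ := by
      have c1 : Continuous fun x : V => x⁻¹ * k⁻¹ := D.cmul.comp (D.cinv.prodMk continuous_const)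
      have c2 : Continuous fun x : V => x⁻¹ * k⁻¹ * x := D.cmul.comp (c1.prodMk continuous_id)
      exact (D.cmul.comp (c2.prodMk continuous_const)).norm
    apply hcont.continuousAt.eventually_lt_const
    show ‖(0 : V)⁻¹ * k⁻¹ * 0 * k‖ < ρ
    have e : (0 : V)⁻¹ * k⁻¹ * 0 * k = 0 := by
      rw [← D.one_eq]
      group
    rw [e, norm_zero]
    exact hρ
  obtain ⟨δ, hδ, hs⟩ := Metric.eventually_nhds_iff.1 hc
  have hsmall : ∀ x : V, ‖x‖ < δ → Commute x k := by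
    intro x hx
    have h3 := hno x _ (D.Wcom j x k hW) (hs (by rwa [dist_zero_right])) (by
      have e1 : x * (x⁻¹ * k⁻¹ * x * k) = k⁻¹ * (x * k) := by group
      rw [e1, D.per _ (D.Γ.inv_mem hΓ), hP])
    have e2 : x⁻¹ * k⁻¹ * x * k = (k * x)⁻¹ * (x * k) := by group
    rw [e2, inv_mul_eq_one] at h3
    exact h3.symm
  obtain ⟨N, hN⟩ := exists_nat_gt (‖x‖ / δ)
  have hN0 : (0 : ℝ) < N := lt_of_le_of_lt (div_nonneg (norm_nonneg _) hδ.le) hN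
  have hx1 : ‖(N : ℝ)⁻¹ • x‖ < δ := by
    rw [div_lt_iff₀ hδ] at hN
    rw [norm_smul, norm_inv, Real.norm_of_nonneg hN0.le, inv_mul_lt_iff₀ hN0]
    linarith
  have hx2 : x = ((N : ℝ)⁻¹ • x) ^ N := by
    rw [D.pow_eq, smul_smul, mul_inv_cancel₀ hN0.ne', one_smul]
  rw [hx2]
  exact (hsmall _ hx1).pow_left N

/-- commutators with powers, modulo the next term of the series -/
theorem NB.com_pow (D : NB V) (x a : V) (l : ℕ) (h : x⁻¹ * a⁻¹ * x * a ∈ D.W l) (M : ℕ) :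
    x⁻¹ * (a ^ M)⁻¹ * x * a ^ M ∈ D.W l ∧
      x⁻¹ * (a ^ M)⁻¹ * x * a ^ M - (M : ℝ) • (x⁻¹ * a⁻¹ * x * a) ∈ D.W (l + 1) := by
  induction M with
  | zero =>
    have e : x⁻¹ * (a ^ 0)⁻¹ * x * a ^ 0 = 1 := by
      rw [pow_zero]
      group
    rw [e, D.one_eq, Nat.cast_zero, zero_smul, sub_zero]
    exact ⟨(D.W _).zero_mem, (D.W _).zero_mem⟩
  | succ M ih =>
    obtain ⟨g, hg⟩ : ∃ g, g = x⁻¹ * (a ^ M)⁻¹ * x * a ^ M := ⟨_, rfl⟩
    obtain ⟨c, hc⟩ : ∃ c, c = x⁻¹ * a⁻¹ * x * a := ⟨_, rfl⟩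
    rw [← hg, ← hc] at ih
    rw [← hc] at h ⊢
    obtain ⟨ih1, ih2⟩ := ih
    have e1 : x⁻¹ * (a ^ (M + 1))⁻¹ * x * a ^ (M + 1) = c * (a⁻¹ * g * a) := by
      rw [hg, hc, pow_succ]
      group
    have hcg : a⁻¹ * g * a ∈ D.W l := D.W_conj a ih1
    have h3 : a⁻¹ * g * a - g ∈ D.W (l + 1) := by
      have h4 := D.W_inv (D.Wcom l a g ih1)
      have e2 : (a⁻¹ * g⁻¹ * a * g)⁻¹ = g⁻¹ * (a⁻¹ * g * a) := by group
      rw [e2] at h4
      have h5 := (D.Wid (l + 1) g _ h4).1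
      rwa [mul_inv_cancel_left] at h5
    have h6 := D.W_add c hcg
    rw [e1]
    refine ⟨D.W_mul h hcg, ?_⟩
    have e3 : c * (a⁻¹ * g * a) - ((M + 1 : ℕ) : ℝ) • c =
        (c * (a⁻¹ * g * a) - (c + a⁻¹ * g * a)) + (a⁻¹ * g * a - g) + (g - (M : ℝ) • c) := by
      push_cast
      rw [add_smul, one_smul]
      abel
    rw [e3]
    exact (D.W (l + 1)).add_mem ((D.W (l + 1)).add_mem h6 h3) ih2

include S in
/-- **Periods of minimal level are central.** -/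
theorem ND.central (j : ℕ) (h1 : D.NoS (j + 1)) (h2 : D.swap.NoS (j + 1)) (a : V)
    (hP : a ∈ D.P) (hW : a ∈ D.W j) (x : V) : x⁻¹ * a⁻¹ * x * a = 1 := by
  have step : ∀ l : ℕ, x⁻¹ * a⁻¹ * x * a ∈ D.W l → x⁻¹ * a⁻¹ * x * a ∈ D.W (l + 1) := by
    intro l hl
    have hcl : IsClosed (D.W (l + 1) : Set V) := Submodule.closed_of_finiteDimensional _
    rw [← SetLike.mem_coe, ← hcl.closure_eq, Metric.mem_closure_iff]
    intro e he
    -- small `d`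
    have hc : ∀ᶠ d in 𝓝 (0 : V), ‖x⁻¹ * d⁻¹ * x * d‖ < e := by
      have hcont : Continuous fun d : V => ‖x⁻¹ * d⁻¹ * x * d‖ := by
        have c1 : Continuous fun d : V => x⁻¹ * d⁻¹ :=
          D.cmul.comp (continuous_const.prodMk D.cinv)
        have c2 : Continuous fun d : V => x⁻¹ * d⁻¹ * x := D.cmul.comp (c1.prodMk continuous_const)
        exact (D.cmul.comp (c2.prodMk continuous_id)).norm
      apply hcont.continuousAt.eventually_lt_const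
      show ‖x⁻¹ * (0 : V)⁻¹ * x * 0‖ < e
      have e1 : x⁻¹ * (0 : V)⁻¹ * x * 0 = 0 := by
        rw [← D.one_eq]
        group
      rw [e1, norm_zero]
      exact he
    obtain ⟨δ, hδ, hs⟩ := Metric.eventually_nhds_iff.1 hc
    obtain ⟨i, M, k, d, hM, hkΓ, hkP, hkW, hdP, hdW, hd, hk⟩ := D.recur S j h1 h2 a hP hW δ hδ
    have hkc : ∀ y : V, y * k = k * y := D.central_lattice S j h1 h2 k hkΓ hkP hkW
    have hd' : d = k * a ^ M := by
      have e1 : a ^ i * d = k * a ^ (i + M) := by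
        rw [hk]
        group
      rw [pow_add, ← mul_assoc, ← hkc, mul_assoc] at e1
      exact mul_left_cancel e1
    have hcom : x⁻¹ * (a ^ M)⁻¹ * x * a ^ M = x⁻¹ * d⁻¹ * x * d := by
      have e2 : a ^ M = k⁻¹ * d := by rw [hd', inv_mul_cancel_left]
      have hkc' : x * k⁻¹ = k⁻¹ * x := by
        rw [eq_inv_mul_iff_mul_eq, ← mul_assoc, ← hkc, mul_assoc, mul_inv_cancel, mul_one]
      rw [e2, mul_inv_rev, inv_inv]
      calc x⁻¹ * (d⁻¹ * k) * x * (k⁻¹ * d) = x⁻¹ * d⁻¹ * k * (x * k⁻¹) * d := by group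
        _ = x⁻¹ * d⁻¹ * x * d := by rw [hkc']; group
    obtain ⟨-, h3⟩ := D.com_pow x a l hl M
    rw [hcom] at h3
    have hM0 : (0 : ℝ) < M := by exact_mod_cast hM
    have h4 := (D.W (l + 1)).smul_mem (-(M : ℝ)⁻¹) h3
    have e3 : (-(M : ℝ)⁻¹) • (x⁻¹ * d⁻¹ * x * d - (M : ℝ) • (x⁻¹ * a⁻¹ * x * a)) =
        x⁻¹ * a⁻¹ * x * a - (M : ℝ)⁻¹ • (x⁻¹ * d⁻¹ * x * d) := by
      rw [smul_sub, smul_smul, neg_mul, inv_mul_cancel₀ hM0.ne', neg_smul, neg_smul, one_smul]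
      abel
    rw [e3] at h4
    refine ⟨_, h4, ?_⟩
    rw [dist_eq_norm, sub_sub_cancel, norm_smul, norm_inv, Real.norm_of_nonneg hM0.le]
    have h5 : ‖x⁻¹ * d⁻¹ * x * d‖ < e := hs (by rwa [dist_zero_right])
    have h6 : (M : ℝ)⁻¹ ≤ 1 := inv_le_one_of_one_le₀ (by exact_mod_cast hM)
    calc (M : ℝ)⁻¹ * ‖x⁻¹ * d⁻¹ * x * d‖ ≤ 1 * ‖x⁻¹ * d⁻¹ * x * d‖ :=
          mul_le_mul_of_nonneg_right h6 (norm_nonneg _)
      _ < e := by rw [one_mul]; exact h5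
  have all : ∀ l : ℕ, x⁻¹ * a⁻¹ * x * a ∈ D.W l := by
    intro l
    induction l with
    | zero => rw [D.W0]; trivial
    | succ l ih => exact step l ih
  have := all D.n
  rw [D.Wn, Submodule.mem_bot] at this
  rw [this, D.one_eq]

end Pool.Agent.D0H26.Nil
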