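import Pool.Agent.D0H26.Nil.Defs

/-!
# Small identifications of an expansive factor of a nilmanifold automorphism
-/

set_option autoImplicit false
set_option linter.unusedSectionVars false

open Filter Topology Set Metric

namespace Pool.Agent.D0H26.Nil

open Pool.Agent.D0H26.Fac (HSp subV)

/-- The product decomposition. -/
structure Sp {V : Type*} [NormedAddCommGroup V] [NormedSpace ℝ V] [Group V] (D : NB V) where
  mul_s : ∀ x y, D.H.u x = 0 → D.H.u y = 0 → D.H.u (x * y) = 0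
  mul_u : ∀ x y, D.H.s x = 0 → D.H.s y = 0 → D.H.s (x * y) = 0
  ps : V → V
  pu : V → V
  cps : Continuous ps
  cpu : Continuous pu
  es : ∀ x, D.H.u (ps x) = 0
  eu : ∀ x, D.H.s (pu x) = 0
  dec : ∀ x, ps x * pu x = x
  Ws : ∀ i, ∀ x ∈ D.W i, ps x ∈ D.W i
  Wu : ∀ i, ∀ x ∈ D.W i, pu x ∈ D.W i

theorem symm_mem {V : Type*} [NormedAddCommGroup V] [NormedSpace ℝ V] [FiniteDimensional ℝ V]
    (T : V ≃ₗ[ℝ] V) (K : Submodule ℝ V) (h : ∀ x ∈ K, T x ∈ K) : ∀ x ∈ K, T.symm x ∈ K := by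
  intro x hx
  have hinj : Function.Injective (T.toLinearMap.restrict h) := by
    intro a b hab
    have h1 : T (a : V) = T (b : V) := congrArg Subtype.val hab
    exact Subtype.ext (T.injective h1)
  obtain ⟨y, hy⟩ := (LinearMap.injective_iff_surjective.1 hinj) ⟨x, hx⟩
  have h2 : T (y : V) = x := congrArg Subtype.val hy
  rw [← h2, T.symm_apply_apply]
  exact y.2

section alg
variable {V : Type*} [NormedAddCommGroup V] [NormedSpace ℝ V] [Group V] (D : NB V) (S : Sp D)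

include S

theorem Sp.inv_s {x : V} (h : D.H.u x = 0) : D.H.u x⁻¹ = 0 := by
  rw [D.inv_eq, map_neg, h, neg_zero]

theorem Sp.inv_u {x : V} (h : D.H.s x = 0) : D.H.s x⁻¹ = 0 := by
  rw [D.inv_eq, map_neg, h, neg_zero]

theorem Sp.both {x : V} (h : D.H.u x = 0) (h' : D.H.s x = 0) : x = 1 := by
  rw [← D.H.add x, h, h', add_zero, D.one_eq]

theorem Sp.uniq {a b : V} (ha : D.H.u a = 0) (hb : D.H.s b = 0) :
    S.ps (a * b) = a ∧ S.pu (a * b) = b := by
  have h := S.dec (a * b)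
  have h1 : (S.ps (a * b))⁻¹ * a = S.pu (a * b) * b⁻¹ := by
    rw [eq_mul_inv_iff_mul_eq, mul_assoc, inv_mul_eq_iff_eq_mul]
    exact h.symm
  have h2 : D.H.u ((S.ps (a * b))⁻¹ * a) = 0 := S.mul_s _ _ (S.inv_s D (S.es _)) ha
  have h3 : D.H.s ((S.ps (a * b))⁻¹ * a) = 0 := by
    rw [h1]
    exact S.mul_u _ _ (S.eu _) (S.inv_u D hb)
  have h4 := S.both D h2 h3
  have h5 : a = S.ps (a * b) := by rwa [inv_mul_eq_one, eq_comm] at h4
  refine ⟨h5.symm, ?_⟩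
  rw [h4] at h1
  have h6 := h1.symm
  rwa [mul_inv_eq_one] at h6

theorem Sp.ps_mul_u (g : V) {q : V} (hq : D.H.s q = 0) : S.ps (g * q) = S.ps g := by
  have h : g * q = S.ps g * (S.pu g * q) := by rw [← mul_assoc, S.dec]
  rw [h]
  exact (S.uniq D (S.es g) (S.mul_u _ _ (S.eu g) hq)).1

theorem Sp.ps_s_mul {s : V} (hs : D.H.u s = 0) (g : V) : S.ps (s * g) = s * S.ps g := by
  have h : s * g = (s * S.ps g) * S.pu g := by rw [mul_assoc, S.dec]
  rw [h]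
  exact (S.uniq D (S.mul_s _ _ hs (S.es g)) (S.eu g)).1

theorem Sp.s_one : D.H.u (1 : V) = 0 ∧ D.H.s (1 : V) = 0 := by
  rw [D.one_eq, map_zero, map_zero]
  exact ⟨rfl, rfl⟩

theorem Sp.ps_of_s {s : V} (hs : D.H.u s = 0) : S.ps s = s := by
  have := (S.uniq D hs (S.s_one D).2).1
  rwa [mul_one] at this

theorem Sp.ps_one : S.ps 1 = 1 ∧ S.pu 1 = 1 := by
  have := S.uniq D (S.s_one D).1 (S.s_one D).2
  rwa [mul_one] at this

/-- the swapped decomposition -/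
theorem Sp.dec' (x : V) : (S.pu x⁻¹)⁻¹ * (S.ps x⁻¹)⁻¹ = x := by
  rw [← mul_inv_rev, S.dec, inv_inv]

end alg

section core
variable {V Y : Type*} [NormedAddCommGroup V] [NormedSpace ℝ V] [FiniteDimensional ℝ V] [Group V]
  [MetricSpace Y] (D : ND V Y) (S : Sp D.toNB)

theorem ND.T_iter_mul (n : ℕ) (x y : V) : D.T^[n] (x * y) = D.T^[n] x * D.T^[n] y := by
  induction n generalizing x y with
  | zero => rfl
  | succ n ih => rw [Function.iterate_succ_apply, D.Tmul, ih]; rfl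

theorem ND.Ts_iter_mul (n : ℕ) (x y : V) :
    D.T.symm^[n] (x * y) = D.T.symm^[n] x * D.T.symm^[n] y := by
  induction n generalizing x y with
  | zero => rfl
  | succ n ih => rw [Function.iterate_succ_apply, D.Tsmul, ih]; rfl

theorem ND.iter (n : ℕ) (v : V) : D.F (D.T^[n] v) = D.g^[n] (D.F v) :=
  (show Function.Semiconj D.F D.T D.g from D.equi).iterate_right n v

theorem ND.iter' (n : ℕ) (v : V) : D.F (D.T.symm^[n] v) = D.g.symm^[n] (D.F v) :=
  (show Function.Semiconj D.F D.T.symm D.g.symm from fun v => by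
    rw [Homeomorph.eq_symm_apply, ← D.equi, D.T.apply_symm_apply]).iterate_right n v

theorem ND.bs {v : V} (hv : D.H.u v = 0) (n : ℕ) : ‖D.T^[n] v‖ ≤ D.H.C * D.H.l ^ n * ‖v‖ := by
  have h1 : D.H.s v = v := by
    have := D.H.add v
    rwa [hv, add_zero] at this
  have := D.H.bs n v
  rwa [h1] at this

theorem ND.bu {v : V} (hv : D.H.s v = 0) (n : ℕ) :
    ‖D.T.symm^[n] v‖ ≤ D.H.C * D.H.l ^ n * ‖v‖ := by
  have h1 : D.H.u v = v := by
    have := D.H.add v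
    rwa [hv, zero_add] at this
  have := D.H.bu n v
  rwa [h1] at this

theorem ND.bs' {v : V} (hv : D.H.u v = 0) (n : ℕ) : ‖D.T^[n] v‖ ≤ D.H.C * ‖v‖ := by
  have h1 : D.H.s v = v := by
    have := D.H.add v
    rwa [hv, add_zero] at this
  have := D.H.bs' n v
  rwa [h1] at this

theorem ND.bu' {v : V} (hv : D.H.s v = 0) (n : ℕ) : ‖D.T.symm^[n] v‖ ≤ D.H.C * ‖v‖ := by
  have h1 : D.H.u v = v := by
    have := D.H.add v
    rwa [hv, zero_add] at this
  have := D.H.bu' n v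
  rwa [h1] at this

/-- uniform continuity -/
theorem ND.uc2 (C : ℝ) (e : ℝ) (he : 0 < e) : ∃ δ > 0, ∀ x a v : V, ‖a‖ ≤ C → ‖v‖ < δ →
    dist (D.F (x * (v * a))) (D.F (x * a)) < e := by
  have hpr : ProperSpace V := FiniteDimensional.proper ℝ V
  have hK : IsCompact ((closedBall (0 : V) D.R) ×ˢ ((closedBall (0 : V) C) ×ˢ
      (closedBall (0 : V) 1))) :=
    (isCompact_closedBall _ _).prod ((isCompact_closedBall _ _).prod (isCompact_closedBall _ _))
  have hm : Continuous fun p : V × V => p.1 * p.2 := D.cmul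
  have hc : Continuous fun q : V × (V × V) => D.F (q.1 * (q.2.2 * q.2.1)) := by
    refine D.cont.comp (hm.comp (continuous_fst.prodMk ?_))
    exact hm.comp ((continuous_snd.comp continuous_snd).prodMk
      (continuous_fst.comp continuous_snd))
  have hu := hK.uniformContinuousOn_of_continuous hc.continuousOn
  rw [Metric.uniformContinuousOn_iff] at hu
  obtain ⟨δ, hδ, h⟩ := hu e he
  refine ⟨min δ 1, lt_min hδ one_pos, fun x a v ha hv => ?_⟩
  obtain ⟨γ, hγ, -, hγx⟩ := D.coc 0 x (by rw [D.W0]; trivial)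
  have h1 := h (γ * x, (a, v)) ⟨mem_closedBall_zero_iff.2 hγx, mem_closedBall_zero_iff.2 ha,
      mem_closedBall_zero_iff.2 (hv.le.trans (min_le_right _ _))⟩ (γ * x, (a, 1))
    ⟨mem_closedBall_zero_iff.2 hγx, mem_closedBall_zero_iff.2 ha, by
      rw [D.one_eq]; exact mem_closedBall_self zero_le_one⟩ (by
      rw [Prod.dist_eq, Prod.dist_eq, dist_self, dist_self, D.one_eq, dist_zero_right]
      exact max_lt hδ (max_lt hδ (hv.trans_le (min_le_left _ _))))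
  simp only [one_mul] at h1
  rw [mul_assoc, mul_assoc, D.per γ hγ, D.per γ hγ] at h1
  exact h1

theorem ND.uc (e : ℝ) (he : 0 < e) : ∃ δ > 0, ∀ x v : V, ‖v‖ < δ →
    dist (D.F (x * v)) (D.F x) < e := by
  obtain ⟨δ, hδ, h⟩ := D.uc2 0 e he
  refine ⟨δ, hδ, fun x v hv => ?_⟩
  have := h x 1 v (by rw [D.one_eq, norm_zero]) hv
  rwa [mul_one, mul_one] at this

include S in
theorem ND.small_of (r : ℝ) (hr : 0 < r) : ∃ δ > 0, ∀ v : V, ‖v‖ < δ →
    D.H.C * ‖S.ps v‖ < r ∧ D.H.C * ‖S.pu v‖ < r := by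
  have h1 : ContinuousAt (fun v => D.H.C * ‖S.ps v‖) 0 :=
    (continuous_const.mul S.cps.norm).continuousAt
  have h2 : ContinuousAt (fun v => D.H.C * ‖S.pu v‖) 0 :=
    (continuous_const.mul S.cpu.norm).continuousAt
  have e1 : D.H.C * ‖S.ps 0‖ = 0 := by
    rw [← D.one_eq, (S.ps_one _).1, D.one_eq, norm_zero, mul_zero]
  have e2 : D.H.C * ‖S.pu 0‖ = 0 := by
    rw [← D.one_eq, (S.ps_one _).2, D.one_eq, norm_zero, mul_zero]
  have h3 : ∀ᶠ v in 𝓝 (0 : V), D.H.C * ‖S.ps v‖ < r := by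
    apply h1.eventually_lt_const
    show D.H.C * ‖S.ps 0‖ < r
    rw [e1]; exact hr
  have h4 : ∀ᶠ v in 𝓝 (0 : V), D.H.C * ‖S.pu v‖ < r := by
    apply h2.eventually_lt_const
    show D.H.C * ‖S.pu 0‖ < r
    rw [e2]; exact hr
  obtain ⟨δ, hδ, h⟩ := Metric.eventually_nhds_iff.1 (h3.and h4)
  exact ⟨δ, hδ, fun v hv => h (by rwa [dist_zero_right])⟩

include S in
/-- the stable part of a small identification is an identification -/
theorem ND.st1 : ∃ δ > 0, ∀ x v : V, ‖v‖ < δ → D.F (x * v) = D.F x →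
    D.F (x * S.ps v) = D.F x := by
  obtain ⟨η, hη, huc⟩ := D.uc D.ε D.hε
  obtain ⟨δ, hδ, hsm⟩ := D.small_of S η hη
  refine ⟨δ, hδ, fun x v hv hx => ?_⟩
  obtain ⟨h1, h2⟩ := hsm v hv
  apply D.exp
  · intro n
    rw [← D.iter, ← D.iter, D.T_iter_mul]
    exact (huc _ _ ((D.bs' (S.es v) n).trans_lt h1)).le
  · intro n
    rw [← hx, ← D.iter', ← D.iter']
    have e1 : x * S.ps v = (x * v) * (S.pu v)⁻¹ := by
      nth_rewrite 2 [← S.dec v]
      group
    rw [e1, D.Ts_iter_mul]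
    refine (huc _ _ ?_).le
    exact (D.bu' (S.inv_u _ (S.eu v)) n).trans_lt (by rwa [D.inv_eq, norm_neg])

include S in
/-- unstable holonomy of small stable identifications -/
theorem ND.hol : ∃ δ > 0, ∀ x v ω : V, D.H.u v = 0 → D.H.s ω = 0 → ‖v‖ < δ → ‖ω‖ < δ →
    D.F (x * v) = D.F x → D.F (x * ω * S.ps (ω⁻¹ * v)) = D.F (x * ω) := by
  obtain ⟨η, hη, huc⟩ := D.uc (D.ε / 2) (half_pos D.hε)
  obtain ⟨δ, hδ, hsm⟩ := D.small_of S η hη
  have hm : Continuous fun p : V × V => p.1⁻¹ * p.2 :=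
    D.cmul.comp ((D.cinv.comp continuous_fst).prodMk continuous_snd)
  have h0 : (fun p : V × V => p.1⁻¹ * p.2) (0, 0) = 0 := by
    show (0 : V)⁻¹ * 0 = 0
    rw [← D.one_eq, inv_one, mul_one]
  have h1 : ∀ᶠ p in 𝓝 ((0, 0) : V × V), ‖p.1⁻¹ * p.2‖ < δ := by
    have : ContinuousAt (fun p : V × V => ‖p.1⁻¹ * p.2‖) (0, 0) := hm.norm.continuousAt
    apply this.eventually_lt_const
    show ‖(0 : V)⁻¹ * 0‖ < δ
    rw [← D.one_eq, inv_one, mul_one, D.one_eq, norm_zero]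
    exact hδ
  obtain ⟨δ', hδ', h2⟩ := Metric.eventually_nhds_iff.1 h1
  have hC1 : 0 < D.H.C + 1 := by have := D.H.hC; linarith
  refine ⟨min δ' (η / (D.H.C + 1)), lt_min hδ' (div_pos hη hC1), fun x v ω hv hω hv1 hω1 hx => ?_⟩
  have h3 : ‖ω⁻¹ * v‖ < δ := by
    have := @h2 (ω, v) (by
      rw [Prod.dist_eq, dist_zero_right, dist_zero_right]
      exact max_lt (hω1.trans_le (min_le_left _ _)) (hv1.trans_le (min_le_left _ _)))
    exact this
  obtain ⟨h4, h5⟩ := hsm _ h3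
  have hω2 : D.H.C * ‖ω‖ < η := by
    have h6 := hω1.trans_le (min_le_right _ _)
    rw [lt_div_iff₀ hC1] at h6
    have := norm_nonneg ω
    nlinarith
  have hdec : x * ω * S.ps (ω⁻¹ * v) = x * v * (S.pu (ω⁻¹ * v))⁻¹ := by
    have := S.dec (ω⁻¹ * v)
    rw [eq_mul_inv_iff_mul_eq, mul_assoc, mul_assoc, this, mul_inv_cancel_left]
  have hε2 := D.hε
  apply D.exp
  · intro n
    rw [← D.iter, ← D.iter, D.T_iter_mul]
    have := huc (D.T^[n] (x * ω)) (D.T^[n] (S.ps (ω⁻¹ * v))) ((D.bs' (S.es _) n).trans_lt h4)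
    linarith
  · intro n
    have e1 : dist (D.g.symm^[n] (D.F (x * ω * S.ps (ω⁻¹ * v)))) (D.g.symm^[n] (D.F (x * v))) <
        D.ε / 2 := by
      rw [← D.iter', ← D.iter', hdec, D.Ts_iter_mul n (x * v)]
      refine huc _ _ ((D.bu' (S.inv_u _ (S.eu _)) n).trans_lt ?_)
      rwa [D.inv_eq, norm_neg]
    have e2 : dist (D.g.symm^[n] (D.F (x * ω))) (D.g.symm^[n] (D.F x)) < D.ε / 2 := by
      rw [← D.iter', ← D.iter', D.Ts_iter_mul]
      exact huc _ _ ((D.bu' hω n).trans_lt hω2)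
    rw [hx] at e1
    rw [dist_comm] at e2
    have := dist_triangle (D.g.symm^[n] (D.F (x * ω * S.ps (ω⁻¹ * v)))) (D.g.symm^[n] (D.F x))
      (D.g.symm^[n] (D.F (x * ω)))
    linarith

include S in
/-- holonomy along a line -/
theorem ND.path : ∃ δ > 0, ∀ x v w : V, D.H.u v = 0 → D.H.s w = 0 → ∀ t₁ : ℝ, 0 ≤ t₁ →
    (∀ t : ℝ, 0 ≤ t → t ≤ t₁ → ‖S.ps ((t • w)⁻¹ * v)‖ < δ) → D.F (x * v) = D.F x →
    D.F (x * (t₁ • w) * S.ps ((t₁ • w)⁻¹ * v)) = D.F (x * (t₁ • w)) := by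
  obtain ⟨δ, hδ, hol⟩ := D.hol S
  refine ⟨δ, hδ, fun x v w hv hw t₁ ht₁ hsm hx => ?_⟩
  obtain ⟨N, hN⟩ := exists_nat_gt (‖t₁ • w‖ / δ)
  have hN0 : (0 : ℝ) < N := lt_of_le_of_lt (div_nonneg (norm_nonneg _) hδ.le) hN
  have hω : ‖(t₁ / N) • w‖ < δ := by
    rw [div_lt_iff₀ hδ] at hN
    rw [div_eq_inv_mul, mul_smul, norm_smul, norm_inv, Real.norm_of_nonneg hN0.le,
      inv_mul_lt_iff₀ hN0]
    linarith
  have key : ∀ k : ℕ, k ≤ N → D.F (x * ((k * (t₁ / N)) • w) *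
      S.ps (((k * (t₁ / N)) • w)⁻¹ * v)) = D.F (x * ((k * (t₁ / N)) • w)) := by
    intro k
    induction k with
    | zero =>
      intro _
      rw [Nat.cast_zero, zero_mul, zero_smul, ← D.one_eq, inv_one, one_mul, mul_one,
        S.ps_of_s _ hv, hx]
    | succ k ih =>
      intro hk
      have ih' := ih (by omega)
      have hk' : (k : ℝ) * (t₁ / N) ≤ t₁ := by
        have h1 : (k : ℝ) ≤ N := by exact_mod_cast (by omega : k ≤ N)
        calc (k : ℝ) * (t₁ / N) ≤ N * (t₁ / N) :=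
              mul_le_mul_of_nonneg_right h1 (div_nonneg ht₁ hN0.le)
          _ = t₁ := mul_div_cancel₀ _ hN0.ne'
      have h2 := hol (x * ((k * (t₁ / N)) • w)) (S.ps (((k * (t₁ / N)) • w)⁻¹ * v))
        ((t₁ / N) • w) (S.es _) (by rw [map_smul, hw, smul_zero])
        (hsm _ (mul_nonneg (Nat.cast_nonneg _) (div_nonneg ht₁ hN0.le)) hk') hω ih'
      have e1 : ((k + 1 : ℕ) * (t₁ / N)) • w = ((k * (t₁ / N)) • w) * ((t₁ / N) • w) := by
        rw [D.line]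
        congr 1
        push_cast
        ring
      have e2 : S.ps ((((k + 1 : ℕ) * (t₁ / N)) • w)⁻¹ * v) =
          S.ps (((t₁ / N) • w)⁻¹ * S.ps (((k * (t₁ / N)) • w)⁻¹ * v)) := by
        rw [e1, mul_inv_rev, mul_assoc]
        nth_rewrite 1 [← S.dec (((k * (t₁ / N)) • w)⁻¹ * v)]
        rw [← mul_assoc]
        exact S.ps_mul_u _ _ (S.eu _)
      rw [e2, e1, ← mul_assoc]
      exact h2
  have h3 := key N le_rfl
  rw [mul_div_cancel₀ _ hN0.ne'] at h3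
  exact h3

include S in
/-- density of the unstable leaves -/
theorem ND.dense (x y : V) (e : ℝ) (he : 0 < e) :
    ∃ γ ∈ D.Γ, ∃ w r : V, D.H.s w = 0 ∧ ‖r‖ < e ∧ y = γ * x * w * r := by
  have hpr : ProperSpace V := FiniteDimensional.proper ℝ V
  have hm : Continuous fun p : V × V => ‖(S.ps (p.1⁻¹ * p.2)⁻¹)⁻¹‖ :=
    (D.cinv.comp (S.cps.comp (D.cinv.comp
      (D.cmul.comp ((D.cinv.comp continuous_fst).prodMk continuous_snd))))).norm
  obtain ⟨K, hK⟩ := ((isCompact_closedBall (0 : V) D.R).prod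
    (isCompact_closedBall (0 : V) D.R)).exists_bound_of_continuousOn hm.continuousOn
  have ht : Tendsto (fun n : ℕ => D.H.C * D.H.l ^ n * K) atTop (𝓝 0) := by
    have := ((tendsto_pow_atTop_nhds_zero_of_lt_one D.H.hl0 D.H.hl1).const_mul D.H.C).mul_const K
    simpa using this
  obtain ⟨n, hn⟩ := ((tendsto_order.1 ht).2 e he).exists
  obtain ⟨γ₁, hγ₁, -, h1⟩ := D.coc 0 (D.T.symm^[n] x) (by rw [D.W0]; trivial)
  obtain ⟨γ₂, hγ₂, -, h2⟩ := D.coc 0 (D.T.symm^[n] y) (by rw [D.W0]; trivial)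
  obtain ⟨ρ, hρ⟩ : ∃ ρ, ρ = (γ₁ * D.T.symm^[n] x)⁻¹ * (γ₂ * D.T.symm^[n] y) := ⟨_, rfl⟩
  have h3 := hK (γ₁ * D.T.symm^[n] x, γ₂ * D.T.symm^[n] y)
    ⟨mem_closedBall_zero_iff.2 h1, mem_closedBall_zero_iff.2 h2⟩
  simp only [norm_norm] at h3
  rw [← hρ] at h3
  have hΓn : ∀ (k : ℕ) (γ : V), γ ∈ D.Γ → D.T^[k] γ ∈ D.Γ := by
    intro k
    induction k with
    | zero => intro γ h; exact h
    | succ k ih => intro γ h; rw [Function.iterate_succ_apply]; exact ih _ (D.TΓ _ h)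
  have hss : ∀ z : V, D.T^[n] (D.T.symm^[n] z) = z := fun z =>
    (Function.LeftInverse.iterate D.T.apply_symm_apply n) z
  have hdec := S.dec' _ ρ
  have hy : D.T.symm^[n] y = (γ₂⁻¹ * γ₁) * D.T.symm^[n] x * (S.pu ρ⁻¹)⁻¹ * (S.ps ρ⁻¹)⁻¹ := by
    rw [mul_assoc _ (S.pu ρ⁻¹)⁻¹, hdec, hρ]
    group
  have hTs : ∀ (k : ℕ) (z : V), D.H.s z = 0 → D.H.s (D.T^[k] z) = 0 := by
    intro k z hz
    have h4 : Function.Semiconj D.H.s D.T D.T := D.H.cs
    have h5 := (h4.iterate_right k) z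
    rw [hz] at h5
    rw [h5, iterate_map_zero]
  refine ⟨D.T^[n] (γ₂⁻¹ * γ₁), hΓn n _ (D.Γ.mul_mem (D.Γ.inv_mem hγ₂) hγ₁),
    D.T^[n] (S.pu ρ⁻¹)⁻¹, D.T^[n] (S.ps ρ⁻¹)⁻¹, hTs n _ (S.inv_u _ (S.eu _)), ?_, ?_⟩
  · refine ((D.bs (S.inv_s _ (S.es _)) n).trans ?_).trans_lt hn
    exact mul_le_mul_of_nonneg_left h3 (mul_nonneg D.H.hC (pow_nonneg D.H.hl0 n))
  · have h6 := congrArg (D.T^[n]) hy
    rw [hss, D.T_iter_mul, D.T_iter_mul, D.T_iter_mul, hss] at h6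
    exact h6

/-- the group of the (right) periods -/
def ND.P : Subgroup V where
  carrier := {p | ∀ x, D.F (x * p) = D.F x}
  mul_mem' := by
    intro a b ha hb x
    rw [← mul_assoc, hb, ha]
  one_mem' := fun x => by rw [mul_one]
  inv_mem' := by
    intro a ha x
    have := ha (x * a⁻¹)
    rw [inv_mul_cancel_right] at this
    exact this.symm

theorem ND.mem_P (p : V) : p ∈ D.P ↔ ∀ x, D.F (x * p) = D.F x := Iff.rfl

include S in
theorem ND.period_of (x v : V) (h : ∀ w, D.H.s w = 0 → D.F (x * w * v) = D.F (x * w)) :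
    v ∈ D.P := by
  intro y
  by_contra hne
  have hd : 0 < dist (D.F (y * v)) (D.F y) := dist_pos.2 hne
  obtain ⟨δ₁, hδ₁, h1⟩ := D.uc2 ‖v‖ (dist (D.F (y * v)) (D.F y) / 2) (half_pos hd)
  obtain ⟨δ₂, hδ₂, h2⟩ := D.uc (dist (D.F (y * v)) (D.F y) / 2) (half_pos hd)
  obtain ⟨γ, hγ, w, r, hw, hr, rfl⟩ := D.dense S x y (min δ₁ δ₂) (lt_min hδ₁ hδ₂)
  have e1 : D.F (γ * x * w * r * v) = D.F (x * w * (r * v)) := by
    rw [← D.per γ hγ (x * w * (r * v))]
    congr 1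
    group
  have e2 : D.F (γ * x * w * r) = D.F (x * w * r) := by
    rw [← D.per γ hγ (x * w * r)]
    congr 1
    group
  have h3 := h1 (x * w) v r le_rfl (hr.trans_le (min_le_left _ _))
  have h4 := h2 (x * w) r (hr.trans_le (min_le_right _ _))
  rw [h w hw] at h3
  rw [← e1] at h3
  rw [← e2, dist_comm] at h4
  have := dist_triangle (D.F (γ * x * w * r * v)) (D.F (x * w)) (D.F (γ * x * w * r))
  linarith

end core

end Pool.Agent.D0H26.Nil
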