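import Pool.Agent.D0H26.Nil.Cen

/-!
# Deck transformations
-/

set_option autoImplicit false
set_option linter.unusedSectionVars false

open Filter Topology Set Metric

namespace Pool.Agent.D0H26.Nil

open Pool.Agent.D0H26.Fac (HSp subV)

universe u v w

section pow
variable {V : Type*} [NormedAddCommGroup V] [NormedSpace ℝ V]

/-- powers of a linear automorphism -/
def itT (T : V ≃ₗ[ℝ] V) (J : ℕ) : V ≃ₗ[ℝ] V where
  toFun := T^[J]
  map_add' := iterate_map_add T J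
  map_smul' c x := by
    induction J generalizing x with
    | zero => rfl
    | succ J ih => rw [Function.iterate_succ_apply, map_smul, ih]; rfl
  invFun := T.symm^[J]
  left_inv := Function.LeftInverse.iterate T.symm_apply_apply J
  right_inv := Function.LeftInverse.iterate T.apply_symm_apply J

/-- the splitting of the powers -/
def itH {T : V ≃ₗ[ℝ] V} (H : HSp T) (J : ℕ) (hJ : 1 ≤ J) : HSp (itT T J) where
  s := H.s
  u := H.u
  add := H.add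
  cs v := ((show Function.Semiconj H.s T T from H.cs).iterate_right J) v
  cu v := ((show Function.Semiconj H.u T T from H.cu).iterate_right J) v
  C := H.C
  l := H.l ^ J
  hC := H.hC
  hl0 := pow_nonneg H.hl0 J
  hl1 := pow_lt_one₀ H.hl0 H.hl1 (by omega)
  bs n v := by
    have h := H.bs (J * n) v
    rw [Function.iterate_mul, pow_mul] at h
    exact h
  bu n v := by
    have h := H.bu (J * n) v
    rw [Function.iterate_mul, pow_mul] at h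
    exact h

end pow

/-- data of a covering -/
structure DK (V X : Type*) [NormedAddCommGroup V] [NormedSpace ℝ V] [Group V]
    [TopologicalSpace X] extends NB V where
  Γ : Subgroup V
  TΓ : ∀ γ ∈ Γ, T γ ∈ Γ
  TΓ' : ∀ γ ∈ Γ, T.symm γ ∈ Γ
  R : ℝ
  coc : ∀ x, ∃ γ ∈ Γ, ‖γ * x‖ ≤ R
  g : X → X
  F : V → X
  cov : IsCoveringMap F
  per : ∀ γ ∈ Γ, ∀ x, F (γ * x) = F x
  equi : ∀ x, F (T x) = g (F x)
  fib : ∀ a, ∃ S : Finset V, ∀ x, F x = a → ∃ s ∈ S, ∃ γ ∈ Γ, x = γ * s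

section
variable {V X : Type*} [NormedAddCommGroup V] [NormedSpace ℝ V] [FiniteDimensional ℝ V] [Group V]
  [TopologicalSpace X] [T2Space X] (D : DK V X)

/-- powers -/
def NB.it (D : NB V) (J : ℕ) (hJ : 1 ≤ J) : NB V where
  cmul := D.cmul
  line := D.line
  acom := D.acom
  T := itT D.T J
  Tmul x y := Pool.Agent.D0H25.NIL.iter_mul D.Tmul J x y
  H := itH D.H J hJ
  n := D.n
  W := D.W
  W0 := D.W0
  Wn := D.Wn
  Wanti := D.Wanti
  Wid := D.Wid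
  Wcom := D.Wcom
  WT i x hx := by
    show D.T^[J] x ∈ D.W i
    induction J with
    | zero => exact hx
    | succ J ih =>
      rw [Function.iterate_succ_apply']
      rcases Nat.eq_zero_or_pos J with h0 | h0
      · subst h0
        exact D.WT i _ hx
      · exact D.WT i _ (ih h0)

/-- deck transformations -/
def DK.Dk (D : DK V X) (τ : V → V) : Prop := Continuous τ ∧ ∀ x, D.F (τ x) = D.F x

theorem DK.uniq {τ σ : V → V} (hτ : D.Dk τ) (hσ : D.Dk σ) (x : V) (h : τ x = σ x) : τ = σ :=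
  D.cov.eq_of_comp_eq hτ.1 hσ.1 (funext fun y => (hτ.2 y).trans (hσ.2 y).symm) x h

theorem DK.exists_dk (x y : V) (h : D.F x = D.F y) : ∃ τ, D.Dk τ ∧ τ x = y := by
  obtain ⟨F, ⟨h1, h2⟩, -⟩ := D.cov.existsUnique_continuousMap_lifts
    (⟨D.F, D.cov.continuous⟩ : C(V, X)) x y h.symm
  exact ⟨F, ⟨F.continuous, fun z => congrFun h2 z⟩, h1⟩

/-- pigeonhole on a fibre -/
theorem DK.pigeon (a : X) (u : ℕ → V) (hu : ∀ n, D.F (u n) = a) :
    ∃ n1 n2 : ℕ, n1 < n2 ∧ ∃ γ ∈ D.Γ, u n2 = γ * u n1 := by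
  classical
  obtain ⟨S, hS⟩ := D.fib a
  choose s hs γ hγ hz using fun n => hS (u n) (hu n)
  obtain ⟨n1, n2, hne, heq⟩ : ∃ n1 n2 : ℕ, n1 ≠ n2 ∧ s n1 = s n2 := by
    have : ∃ n1 n2 : ℕ, n1 ≠ n2 ∧ (⟨s n1, hs n1⟩ : S) = ⟨s n2, hs n2⟩ :=
      Finite.exists_ne_map_eq_of_infinite fun n => (⟨s n, hs n⟩ : S)
    obtain ⟨n1, n2, h1, h2⟩ := this
    exact ⟨n1, n2, h1, congrArg Subtype.val h2⟩
  have key : ∀ a b : ℕ, s a = s b → ∃ γ ∈ D.Γ, u b = γ * u a := by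
    intro a b hab
    refine ⟨γ b * (γ a)⁻¹, D.Γ.mul_mem (hγ b) (D.Γ.inv_mem (hγ a)), ?_⟩
    rw [hz b, hz a, hab]
    group
  rcases lt_or_gt_of_ne hne with h | h
  · exact ⟨n1, n2, h, key n1 n2 heq⟩
  · exact ⟨n2, n1, h, key n2 n1 heq.symm⟩

include D in
theorem DK.cl (γ : V) : Continuous fun x : V => γ * x :=
  D.cmul.comp (continuous_const.prodMk continuous_id)

theorem DK.dk_tr {τ : V → V} (hτ : D.Dk τ) {γ : V} (hγ : γ ∈ D.Γ) : D.Dk fun x => γ * τ x :=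
  ⟨(D.cl γ).comp hτ.1, fun x => by rw [D.per _ hγ, hτ.2]⟩

theorem DK.dk_tr' {τ : V → V} (hτ : D.Dk τ) {γ : V} (hγ : γ ∈ D.Γ) : D.Dk fun x => τ (γ * x) :=
  ⟨hτ.1.comp (D.cl γ), fun x => by rw [hτ.2, D.per _ hγ]⟩

theorem DK.T_iter_mem (n : ℕ) {γ : V} (hγ : γ ∈ D.Γ) :
    D.T^[n] γ ∈ D.Γ ∧ D.T.symm^[n] γ ∈ D.Γ := by
  induction n with
  | zero => exact ⟨hγ, hγ⟩
  | succ n ih =>
    rw [Function.iterate_succ_apply', Function.iterate_succ_apply']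
    exact ⟨D.TΓ _ ih.1, D.TΓ' _ ih.2⟩

theorem DK.F_iter (n : ℕ) (x : V) : D.F (D.T^[n] x) = D.g^[n] (D.F x) :=
  (show Function.Semiconj D.F D.T D.g from D.equi).iterate_right n x

theorem DK.sT (n : ℕ) (x : V) : D.T^[n] (D.T.symm^[n] x) = x :=
  (Function.LeftInverse.iterate D.T.apply_symm_apply n) x

theorem DK.sT' (n : ℕ) (x : V) : D.T.symm^[n] (D.T^[n] x) = x :=
  (Function.LeftInverse.iterate D.T.symm_apply_apply n) x

theorem DK.Tm (n : ℕ) (x y : V) : D.T^[n] (x * y) = D.T^[n] x * D.T^[n] y :=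
  Pool.Agent.D0H25.NIL.iter_mul D.Tmul n x y

theorem DK.Tm' (n : ℕ) (x y : V) : D.T.symm^[n] (x * y) = D.T.symm^[n] x * D.T.symm^[n] y :=
  Pool.Agent.D0H25.NIL.iter_mul D.Tsmul n x y

theorem DK.T1 (n : ℕ) : D.T^[n] (1 : V) = 1 ∧ D.T.symm^[n] (1 : V) = 1 := by
  rw [D.one_eq, iterate_map_zero, iterate_map_zero]
  exact ⟨rfl, rfl⟩

theorem DK.dk_conj {τ : V → V} (hτ : D.Dk τ) (n : ℕ) :
    D.Dk fun x => D.T^[n] (τ (D.T.symm^[n] x)) := by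
  have hTc : Continuous D.T := (LinearMap.toContinuousLinearMap D.T.toLinearMap).continuous
  have hSc : Continuous D.T.symm :=
    (LinearMap.toContinuousLinearMap D.T.symm.toLinearMap).continuous
  refine ⟨(hTc.iterate n).comp (hτ.1.comp (hSc.iterate n)), fun x => ?_⟩
  rw [D.F_iter, hτ.2, ← D.F_iter, D.sT]

/-- a power of the automorphism commutes with a deck transformation up to an element of `Γ` -/
theorem DK.almost_comm {τ : V → V} (hτ : D.Dk τ) :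
    ∃ J : ℕ, 1 ≤ J ∧ ∃ γ ∈ D.Γ, ∀ x, D.T^[J] (τ (D.T.symm^[J] x)) = γ * τ x := by
  obtain ⟨n1, n2, h12, γ, hγ, hw⟩ := D.pigeon (D.F 1) (fun n => D.T^[n] (τ (D.T.symm^[n] 1)))
    (fun n => (D.dk_conj hτ n).2 1)
  have h1 : (fun x => D.T^[n2] (τ (D.T.symm^[n2] x))) =
      fun x => γ * D.T^[n1] (τ (D.T.symm^[n1] x)) :=
    D.uniq (D.dk_conj hτ n2) (D.dk_tr (D.dk_conj hτ n1) hγ) 1 hw
  refine ⟨n2 - n1, by omega, D.T.symm^[n1] γ, (D.T_iter_mem n1 hγ).2, fun x => ?_⟩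
  have h2 := congrFun h1 (D.T^[n1] x)
  have hinj : Function.Injective (D.T^[n1]) := D.T.injective.iterate n1
  apply hinj
  rw [D.Tm, D.sT]
  simp only [D.sT'] at h2
  rw [← h2, ← Function.iterate_add_apply]
  have h3 : n1 + (n2 - n1) = n2 := by omega
  rw [h3]
  congr 2
  have h4 : n2 = (n2 - n1) + n1 := by omega
  conv_rhs => rw [h4]
  rw [Function.iterate_add_apply, D.sT']

/-- the elements of `Γ` normalized by a deck transformation -/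
def DK.Γ₀ (D : DK V X) (τ : V → V) : Subgroup V where
  carrier := {γ | γ ∈ D.Γ ∧ ∃ γ' ∈ D.Γ, ∀ x, τ (γ * x) = γ' * τ x}
  mul_mem' := by
    rintro a b ⟨ha, a', ha', h1⟩ ⟨hb, b', hb', h2⟩
    refine ⟨D.Γ.mul_mem ha hb, a' * b', D.Γ.mul_mem ha' hb', fun x => ?_⟩
    rw [mul_assoc, h1, h2, mul_assoc]
  one_mem' := ⟨D.Γ.one_mem, 1, D.Γ.one_mem, fun x => by rw [one_mul, one_mul]⟩
  inv_mem' := by
    rintro a ⟨ha, a', ha', h1⟩
    refine ⟨D.Γ.inv_mem ha, a'⁻¹, D.Γ.inv_mem ha', fun x => ?_⟩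
    have := h1 (a⁻¹ * x)
    rw [mul_inv_cancel_left] at this
    rw [this, inv_mul_cancel_left]

theorem DK.coc₀ {τ : V → V} (hτ : D.Dk τ) : ∃ R' : ℝ, ∀ x, ∃ γ ∈ D.Γ₀ τ, ‖γ * x‖ ≤ R' := by
  classical
  have hpr : ProperSpace V := FiniteDimensional.proper ℝ V
  obtain ⟨S, hS⟩ := D.fib (D.F 1)
  have hex : ∀ γ : V, ∃ s g : V, γ ∈ D.Γ → s ∈ S ∧ g ∈ D.Γ ∧ τ γ = g * s := by
    intro γ
    by_cases hγ : γ ∈ D.Γ
    · obtain ⟨s, hs, g, hg, h⟩ := hS (τ γ) (by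
        rw [hτ.2]
        have := D.per γ hγ 1
        rwa [mul_one] at this)
      exact ⟨s, g, fun _ => ⟨hs, hg, h⟩⟩
    · exact ⟨1, 1, fun h => absurd h hγ⟩
  choose s g hsg using hex
  have hrep : ∀ t : V, ∃ r : V, r ∈ D.Γ ∧ ((∃ γ ∈ D.Γ, s γ = t) → s r = t) := by
    intro t
    by_cases h : ∃ γ ∈ D.Γ, s γ = t
    · obtain ⟨γ, hγ, h⟩ := h
      exact ⟨γ, hγ, fun _ => h⟩
    · exact ⟨1, D.Γ.one_mem, fun h' => absurd h' h⟩
  choose r hr hrs using hrep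
  have hbd : ∀ t : V, ∃ C : ℝ, ∀ v, ‖v‖ ≤ D.R → ‖r t * v‖ ≤ C := by
    intro t
    obtain ⟨C, hC⟩ := (isCompact_closedBall (0 : V) D.R).exists_bound_of_continuousOn
      (D.cl (r t)).continuousOn
    exact ⟨C, fun v hv => hC v (mem_closedBall_zero_iff.2 hv)⟩
  choose C hC using hbd
  refine ⟨∑ t ∈ S, |C t|, fun x => ?_⟩
  obtain ⟨γ, hγ, hn⟩ := D.coc x
  have hγi := D.Γ.inv_mem hγ
  obtain ⟨t, ht⟩ : ∃ t, t = s γ⁻¹ := ⟨_, rfl⟩
  obtain ⟨h1, h2, h3⟩ := hsg _ hγi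
  rw [← ht] at h1 h3
  have hrt : s (r t) = t := hrs t ⟨_, hγi, ht.symm⟩
  obtain ⟨h4, h5, h6⟩ := hsg _ (hr t)
  rw [hrt] at h6
  have h7 : γ⁻¹ * (r t)⁻¹ ∈ D.Γ₀ τ := by
    refine ⟨D.Γ.mul_mem hγi (D.Γ.inv_mem (hr t)), g γ⁻¹ * (g (r t))⁻¹,
      D.Γ.mul_mem h2 (D.Γ.inv_mem h5), fun x => ?_⟩
    have h8 : (fun x => τ (γ⁻¹ * x)) = fun x => (g γ⁻¹ * (g (r t))⁻¹) * τ (r t * x) := by
      refine D.uniq (D.dk_tr' hτ hγi) (D.dk_tr (D.dk_tr' hτ (hr t))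
        (D.Γ.mul_mem h2 (D.Γ.inv_mem h5))) 1 ?_
      show τ (γ⁻¹ * 1) = (g γ⁻¹ * (g (r t))⁻¹) * τ (r t * 1)
      rw [mul_one, mul_one, h3, h6]
      group
    have h9 := congrFun h8 ((r t)⁻¹ * x)
    simp only [mul_inv_cancel_left] at h9
    rw [mul_assoc γ⁻¹]
    exact h9
  refine ⟨(γ⁻¹ * (r t)⁻¹)⁻¹, (D.Γ₀ τ).inv_mem h7, ?_⟩
  have h10 : (γ⁻¹ * (r t)⁻¹)⁻¹ * x = r t * (γ * x) := by group
  rw [h10]
  refine (hC t _ hn).trans ((le_abs_self _).trans ?_)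
  exact Finset.single_le_sum (f := fun t => |C t|) (fun i _ => abs_nonneg _) h1

/-- the homeomorphism -/
theorem DK.homeo (x y : V) (h : D.F x = D.F y) :
    ∃ τ : V ≃ₜ V, τ x = y ∧ ∀ w, D.F (τ w) = D.F w := by
  obtain ⟨τ, hτ, hxy⟩ := D.exists_dk x y h
  obtain ⟨σ, hσ, hyx⟩ := D.exists_dk y x h.symm
  have hid : D.Dk id := ⟨continuous_id, fun _ => rfl⟩
  have hcomp : ∀ {a b : V → V}, D.Dk a → D.Dk b → D.Dk (a ∘ b) :=
    fun ha hb => ⟨ha.1.comp hb.1, fun z => (ha.2 _).trans (hb.2 z)⟩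
  have h1 : σ ∘ τ = id := D.uniq (hcomp hσ hτ) hid x (by
    show σ (τ x) = x
    rw [hxy, hyx])
  have h2 : τ ∘ σ = id := D.uniq (hcomp hτ hσ) hid y (by
    show τ (σ y) = y
    rw [hyx, hxy])
  exact ⟨{ toFun := τ
           invFun := σ
           left_inv := fun z => congrFun h1 z
           right_inv := fun z => congrFun h2 z
           continuous_toFun := hτ.1
           continuous_invFun := hσ.1 }, hxy, hτ.2⟩

theorem DK.hd (τ : V ≃ₜ V) (hτ : ∀ w, D.F (τ w) = D.F w) :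
    ∃ D' : HD V, ∀ w, D'.δ w = (τ 1)⁻¹ * τ w := by
  have hdk : D.Dk τ := ⟨τ.continuous, hτ⟩
  obtain ⟨J, hJ, γ', hγ', hcom⟩ := D.almost_comm hdk
  obtain ⟨R', hR'⟩ := D.coc₀ hdk
  have hT : ∀ x, τ (D.T^[J] x) = γ'⁻¹ * D.T^[J] (τ x) := by
    intro x
    have := hcom (D.T^[J] x)
    rw [D.sT'] at this
    rw [this, inv_mul_cancel_left]
  have hTs : ∀ x, τ (D.T.symm^[J] x) = D.T.symm^[J] γ' * D.T.symm^[J] (τ x) := by
    intro x
    have h1 := congrArg (D.T.symm^[J]) (hcom x)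
    rw [D.sT', D.Tm'] at h1
    exact h1
  have hc : D.T^[J] (τ 1) = γ' * τ 1 := by
    have := hcom 1
    rwa [(D.T1 J).2] at this
  obtain ⟨c, hcdef⟩ : ∃ c, c = τ 1 := ⟨_, rfl⟩
  rw [← hcdef] at hc
  let δ' : V ≃ₜ V :=
    { toFun := fun w => c⁻¹ * τ w
      invFun := fun y => τ.symm (c * y)
      left_inv := fun w => by
        show τ.symm (c * (c⁻¹ * τ w)) = w
        rw [mul_inv_cancel_left, τ.symm_apply_apply]
      right_inv := fun y => by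
        show c⁻¹ * τ (τ.symm (c * y)) = y
        rw [τ.apply_symm_apply, inv_mul_cancel_left]
      continuous_toFun := (D.cl c⁻¹).comp τ.continuous
      continuous_invFun := τ.symm.continuous.comp (D.cl c) }
  refine ⟨{ toNB := D.toNB.it J hJ
            Γ := D.Γ₀ τ
            TΓ := ?_
            TΓ' := ?_
            R := R'
            coc := hR'
            δ := δ'
            eq := ?_
            com := ?_ }, fun w => by rw [← hcdef]; rfl⟩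
  · rintro γ ⟨hγ, γ₁, hγ₁, h⟩
    refine ⟨(D.T_iter_mem J hγ).1, γ'⁻¹ * D.T^[J] γ₁ * γ', D.Γ.mul_mem (D.Γ.mul_mem
      (D.Γ.inv_mem hγ') (D.T_iter_mem J hγ₁).1) hγ', fun x => ?_⟩
    show τ (D.T^[J] γ * x) = _
    have e1 : D.T^[J] γ * x = D.T^[J] (γ * D.T.symm^[J] x) := by rw [D.Tm, D.sT]
    rw [e1, hT, h, D.Tm, hcom]
    group
  · rintro γ ⟨hγ, γ₁, hγ₁, h⟩
    refine ⟨(D.T_iter_mem J hγ).2, D.T.symm^[J] γ' * D.T.symm^[J] γ₁ * (D.T.symm^[J] γ')⁻¹,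
      D.Γ.mul_mem (D.Γ.mul_mem (D.T_iter_mem J hγ').2 (D.T_iter_mem J hγ₁).2)
        (D.Γ.inv_mem (D.T_iter_mem J hγ').2), fun x => ?_⟩
    show τ (D.T.symm^[J] γ * x) = _
    have e1 : D.T.symm^[J] γ * x = D.T.symm^[J] (γ * D.T^[J] x) := by rw [D.Tm', D.sT']
    have e2 : D.T.symm^[J] (τ (D.T^[J] x)) = (D.T.symm^[J] γ')⁻¹ * τ x := by
      have e3 : D.T.symm^[J] γ' * D.T.symm^[J] (τ (D.T^[J] x)) = τ x := by
        rw [← hTs, D.sT']
      rw [← e3, inv_mul_cancel_left]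
    rw [e1, hTs, h, D.Tm', e2]
    group
  · rintro γ ⟨hγ, γ₁, hγ₁, h⟩ x
    show c⁻¹ * τ (γ * x) = c⁻¹ * τ γ * (c⁻¹ * τ x)
    have h1 := h 1
    rw [mul_one, ← hcdef] at h1
    rw [h, h1]
    group
  · intro x
    show c⁻¹ * τ (D.T^[J] x) = D.T^[J] (c⁻¹ * τ x)
    have e1 : D.T^[J] c⁻¹ = (D.T^[J] c)⁻¹ := by
      have e2 := D.Tm J c c⁻¹
      rw [mul_inv_cancel, (D.T1 J).1] at e2
      exact eq_inv_of_mul_eq_one_right e2.symm
    rw [hT, D.Tm, e1, hc]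
    group

end

theorem deck : S_DECK.{u, v} := by
  intro V _ _ _ _ D Γ h1 h2 R h3 X _ _ g F h4 h5 h6 h7 x y hxy
  let K : DK V X :=
    { toNB := D
      Γ := Γ
      TΓ := h1
      TΓ' := h2
      R := R
      coc := h3
      g := g
      F := F
      cov := h4
      per := h5
      equi := h6
      fib := h7 }
  obtain ⟨τ, h8, h9⟩ := K.homeo x y hxy
  exact ⟨τ, h8, h9, K.hd τ h9⟩

end Pool.Agent.D0H26.Nil
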