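import Pool.Agent.D0H26.Fac.Core
import Pool.Agent.D0H26.Fac.Red

/-!
# Simply connected nilpotent Lie groups in exponential coordinates: definitions

A simply connected nilpotent Lie group is modelled on its Lie algebra `V` (a real vector space) by
the exponential map; `V` carries its vector space structure and the group law `x * y`.
-/

set_option autoImplicit false

open Filter Topology Set Metric

namespace Pool.Agent.D0H26.Nil

open Pool.Agent.D0H26.Fac (HSp subV)

/-- a linear subspace which is a normal subgroup, and whose cosets are its translates: an ideal -/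
def IsIdeal {V : Type*} [NormedAddCommGroup V] [NormedSpace ℝ V] [Group V]
    (K : Submodule ℝ V) : Prop :=
  ∀ x, ∀ k ∈ K, x * k - x ∈ K ∧ x * k * x⁻¹ ∈ K

/-- A simply connected nilpotent Lie group in exponential coordinates, with a hyperbolic
automorphism `T` and a `T`-invariant central series of ideals. -/
structure NB (V : Type*) [NormedAddCommGroup V] [NormedSpace ℝ V] [Group V] where
  cmul : Continuous fun p : V × V => p.1 * p.2
  line : ∀ (s t : ℝ) (x : V), (s • x) * (t • x) = (s + t) • x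
  acom : ∀ K : Submodule ℝ V, IsIdeal K → ∀ x y : V, x⁻¹ * y⁻¹ * x * y ∈ K →
    x * y - (x + y) ∈ K
  T : V ≃ₗ[ℝ] V
  Tmul : ∀ x y, T (x * y) = T x * T y
  H : HSp T
  n : ℕ
  W : ℕ → Submodule ℝ V
  W0 : W 0 = ⊤
  Wn : W n = ⊥
  Wanti : ∀ i, W (i + 1) ≤ W i
  Wid : ∀ i, IsIdeal (W i)
  Wcom : ∀ i x, ∀ y ∈ W i, x⁻¹ * y⁻¹ * x * y ∈ W (i + 1)
  WT : ∀ i, ∀ x ∈ W i, T x ∈ W i

section
variable {V : Type*} [NormedAddCommGroup V] [NormedSpace ℝ V] [Group V]

theorem NB.one_eq (D : NB V) : (1 : V) = 0 := by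
  have h := D.line 0 1 1
  rw [zero_smul, one_smul, zero_add, one_smul, mul_one] at h
  exact h.symm

theorem NB.inv_eq (D : NB V) (x : V) : x⁻¹ = -x := by
  have h := D.line 1 (-1) x
  rw [one_smul, neg_smul, one_smul, add_neg_cancel, zero_smul, ← D.one_eq] at h
  exact inv_eq_of_mul_eq_one_right h

theorem NB.cinv (D : NB V) : Continuous fun x : V => x⁻¹ := by
  have : (fun x : V => x⁻¹) = fun x => -x := funext D.inv_eq
  rw [this]
  exact continuous_neg

theorem NB.pow_eq (D : NB V) (x : V) (m : ℕ) : x ^ m = (m : ℝ) • x := by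
  induction m with
  | zero => rw [pow_zero, Nat.cast_zero, zero_smul, D.one_eq]
  | succ m ih =>
    have h := D.line m 1 x
    rw [one_smul] at h
    rw [pow_succ, ih, h]
    push_cast
    rfl

theorem NB.T_one (D : NB V) : D.T 1 = 1 := by rw [D.one_eq, map_zero]

theorem NB.T_inv (D : NB V) (x : V) : D.T x⁻¹ = (D.T x)⁻¹ := by
  rw [D.inv_eq, D.inv_eq, map_neg]

theorem NB.Tsmul (D : NB V) (x y : V) : D.T.symm (x * y) = D.T.symm x * D.T.symm y := by
  rw [LinearEquiv.symm_apply_eq, D.Tmul, D.T.apply_symm_apply, D.T.apply_symm_apply]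

/-- the subspaces of the central series are subgroups -/
theorem NB.W_mul (D : NB V) {i : ℕ} {x y : V} (hx : x ∈ D.W i) (hy : y ∈ D.W i) :
    x * y ∈ D.W i := by
  have := (D.W i).add_mem ((D.Wid i) x y hy).1 hx
  rwa [sub_add_cancel] at this

theorem NB.W_inv (D : NB V) {i : ℕ} {x : V} (hx : x ∈ D.W i) : x⁻¹ ∈ D.W i := by
  rw [D.inv_eq]
  exact (D.W i).neg_mem hx

theorem NB.W_one (D : NB V) (i : ℕ) : (1 : V) ∈ D.W i := by
  rw [D.one_eq]
  exact (D.W i).zero_mem

theorem NB.W_le (D : NB V) {i j : ℕ} (h : i ≤ j) : D.W j ≤ D.W i :=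
  antitone_nat_of_succ_le D.Wanti h

/-- modulo the next term of the series the product is the sum -/
theorem NB.W_add (D : NB V) {i : ℕ} (x : V) {y : V} (hy : y ∈ D.W i) :
    x * y - (x + y) ∈ D.W (i + 1) :=
  D.acom _ (D.Wid (i + 1)) x y (D.Wcom i x y hy)

theorem NB.W_conj (D : NB V) {i : ℕ} (x : V) {y : V} (hy : y ∈ D.W i) :
    x⁻¹ * y * x ∈ D.W i := by
  have h1 := D.Wcom i x y⁻¹ (D.W_inv hy)
  have h2 : x⁻¹ * y * x = (x⁻¹ * y⁻¹⁻¹ * x * y⁻¹) * y := by group
  rw [h2]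
  exact D.W_mul (D.Wanti i h1) hy

end

/-- The data: a hyperbolic automorphism `T` of a simply connected nilpotent Lie group, a
cocompact subgroup `Γ` (compatible with the central series), a continuous left `Γ`-invariant map
`F` to a space `Y` with an expansive homeomorphism `g`, `F ∘ T = g ∘ F`. -/
structure ND (V Y : Type*) [NormedAddCommGroup V] [NormedSpace ℝ V] [Group V] [MetricSpace Y]
    extends NB V where
  Γ : Subgroup V
  TΓ : ∀ γ ∈ Γ, T γ ∈ Γ
  TΓ' : ∀ γ ∈ Γ, T.symm γ ∈ Γ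
  R : ℝ
  coc : ∀ i, ∀ x ∈ W i, ∃ γ ∈ Γ, γ ∈ W i ∧ ‖γ * x‖ ≤ R
  g : Y ≃ₜ Y
  F : V → Y
  cont : Continuous F
  per : ∀ γ ∈ Γ, ∀ x, F (γ * x) = F x
  equi : ∀ x, F (T x) = g (F x)
  ε : ℝ
  hε : 0 < ε
  exp : ∀ a b, (∀ n : ℕ, dist (g^[n] a) (g^[n] b) ≤ ε) →
    (∀ n : ℕ, dist (g.symm^[n] a) (g.symm^[n] b) ≤ ε) → a = b

end Pool.Agent.D0H26.Nil
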