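import Pool.Agent.D0H26.Nil.Core

/-!
# Small identifications of minimal level are periods
-/

set_option autoImplicit false
set_option linter.unusedSectionVars false

open Filter Topology Set Metric

namespace Pool.Agent.D0H26.Nil

open Pool.Agent.D0H26.Fac (HSp subV)

section alg
variable {V : Type*} [NormedAddCommGroup V] [NormedSpace ℝ V] [Group V] (D : NB V) (S : Sp D)

/-- the displacement of `v` under the holonomy along the line of `w` -/
def Sp.A (v w : V) (t : ℝ) : V := v⁻¹ * S.ps ((t • w)⁻¹ * v)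

theorem Sp.mul_A (v w : V) (t : ℝ) : v * S.A D v w t = S.ps ((t • w)⁻¹ * v) := by
  show v * (v⁻¹ * S.ps ((t • w)⁻¹ * v)) = _
  rw [mul_inv_cancel_left]

theorem Sp.A_zero {v : V} (hv : D.H.u v = 0) (w : V) : S.A D v w 0 = 1 := by
  show v⁻¹ * S.ps (((0 : ℝ) • w)⁻¹ * v) = 1
  rw [zero_smul, ← D.one_eq, inv_one, one_mul, S.ps_of_s _ hv, inv_mul_cancel]

theorem Sp.A_s {v : V} (hv : D.H.u v = 0) (w : V) (t : ℝ) : D.H.u (S.A D v w t) = 0 :=
  S.mul_s _ _ (S.inv_s _ hv) (S.es _)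

theorem Sp.A_mem {v w : V} (hv : D.H.u v = 0) (hw : D.H.s w = 0) {j : ℕ} (hj : v ∈ D.W j) (t : ℝ) :
    S.A D v w t ∈ D.W (j + 1) := by
  have h1 := D.Wcom j (t • w) v hj
  have h2 : v⁻¹ * (t • w)⁻¹ * v * (t • w) ∈ D.W (j + 1) := by
    have := D.W_inv h1
    have e : ((t • w)⁻¹ * v⁻¹ * (t • w) * v)⁻¹ = v⁻¹ * (t • w)⁻¹ * v * (t • w) := by group
    rwa [e] at this
  have h3 : (t • w)⁻¹ * v = v * ((v⁻¹ * (t • w)⁻¹ * v * (t • w)) * (t • w)⁻¹) := by group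
  have h4 : D.H.s (t • w)⁻¹ = 0 := S.inv_u _ (by rw [map_smul, hw, smul_zero])
  show v⁻¹ * S.ps ((t • w)⁻¹ * v) ∈ D.W (j + 1)
  rw [h3, S.ps_s_mul _ hv, inv_mul_cancel_left, S.ps_mul_u _ _ h4]
  exact S.Ws _ _ h2

theorem Sp.A_add {v w : V} (hv : D.H.u v = 0) {l : ℕ} {t t' : ℝ}
    (h : S.A D v w t ∈ D.W l) (h' : S.A D v w t' ∈ D.W l) :
    S.A D v w (t + t') - (S.A D v w t + S.A D v w t') ∈ D.W (l + 1) := by
  obtain ⟨a₁, ha₁⟩ : ∃ a₁, a₁ = S.A D v w t := ⟨_, rfl⟩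
  obtain ⟨a₂, ha₂⟩ : ∃ a₂, a₂ = S.A D v w t' := ⟨_, rfl⟩
  obtain ⟨q₁, hq₁⟩ : ∃ q₁, q₁ = S.pu ((t • w)⁻¹ * v) := ⟨_, rfl⟩
  obtain ⟨q₂, hq₂⟩ : ∃ q₂, q₂ = S.pu ((t' • w)⁻¹ * v) := ⟨_, rfl⟩
  have d1 : (t • w)⁻¹ * v = v * a₁ * q₁ := by
    rw [ha₁, hq₁, S.mul_A, S.dec]
  have d2 : (t' • w)⁻¹ * v = v * a₂ * q₂ := by
    rw [ha₂, hq₂, S.mul_A, S.dec]
  have hq₁s : D.H.s q₁ = 0 := by rw [hq₁]; exact S.eu _
  have hq₂s : D.H.s q₂ = 0 := by rw [hq₂]; exact S.eu _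
  have ha₁s : D.H.u a₁ = 0 := by rw [ha₁]; exact S.A_s _ hv w t
  have hva₂ : D.H.u (v * a₂) = 0 := by
    rw [ha₂, S.mul_A]
    exact S.es _
  rw [← ha₁] at h ⊢
  rw [← ha₂] at h' ⊢
  have h1 := D.Wcom l q₂⁻¹ a₁ h
  have h2 : a₁⁻¹ * (q₂ * a₁ * q₂⁻¹) ∈ D.W (l + 1) := by
    have := D.W_inv h1
    have e : (q₂⁻¹⁻¹ * a₁⁻¹ * q₂⁻¹ * a₁)⁻¹ = a₁⁻¹ * (q₂ * a₁ * q₂⁻¹) := by group
    rwa [e] at this
  obtain ⟨e, he⟩ : ∃ e, e = a₁⁻¹ * (q₂ * a₁ * q₂⁻¹) := ⟨_, rfl⟩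
  rw [← he] at h2
  have h3 : q₂ * a₁ = a₁ * e * q₂ := by
    rw [he]
    group
  have h4 : S.ps (q₂ * a₁) = a₁ * S.ps e := by
    rw [h3, S.ps_mul_u _ _ hq₂s, S.ps_s_mul _ ha₁s]
  have h5 : S.A D v w (t + t') = a₂ * (a₁ * S.ps e) := by
    show v⁻¹ * S.ps (((t + t') • w)⁻¹ * v) = _
    rw [← D.line, mul_inv_rev, mul_assoc, d1, ← mul_assoc, S.ps_mul_u _ _ hq₁s, ← mul_assoc, d2,
      mul_assoc (v * a₂) q₂ a₁, S.ps_s_mul _ hva₂, h4]
    group
  have hf : S.ps e ∈ D.W (l + 1) := S.Ws _ _ h2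
  have h6 : a₁ * S.ps e - a₁ ∈ D.W (l + 1) := (D.Wid (l + 1) a₁ _ hf).1
  have h7 : a₁ * S.ps e ∈ D.W l := D.W_mul h (D.Wanti l hf)
  have h8 := D.W_add a₂ h7
  rw [h5]
  have h9 : a₂ * (a₁ * S.ps e) - (a₁ + a₂) =
      (a₂ * (a₁ * S.ps e) - (a₂ + a₁ * S.ps e)) + (a₁ * S.ps e - a₁) := by abel
  rw [h9]
  exact (D.W (l + 1)).add_mem h8 h6

theorem Sp.A_bdd [FiniteDimensional ℝ V] {v w : V} (hv : D.H.u v = 0) (hw : D.H.s w = 0) {j : ℕ}
    (hj : v ∈ D.W j) (C : ℝ) (hC : ∀ t : ℝ, 0 ≤ t → ‖S.A D v w t‖ ≤ C) :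
    ∀ t : ℝ, 0 ≤ t → S.A D v w t = 1 := by
  have step : ∀ l : ℕ, (∀ t : ℝ, 0 ≤ t → S.A D v w t ∈ D.W l) →
      ∀ t : ℝ, 0 ≤ t → S.A D v w t ∈ D.W (l + 1) := by
    intro l hl t ht
    have h1 : ∀ k : ℕ, S.A D v w ((k : ℝ) * t) - (k : ℝ) • S.A D v w t ∈ D.W (l + 1) := by
      intro k
      induction k with
      | zero =>
        rw [Nat.cast_zero, zero_mul, zero_smul, sub_zero, S.A_zero _ hv, D.one_eq]
        exact (D.W (l + 1)).zero_mem
      | succ k ih =>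
        have h2 := S.A_add D hv (hl ((k : ℝ) * t) (mul_nonneg (Nat.cast_nonneg k) ht)) (hl t ht)
        have e1 : ((k + 1 : ℕ) : ℝ) * t = (k : ℝ) * t + t := by push_cast; ring
        rw [e1]
        have e2 : S.A D v w ((k : ℝ) * t + t) - ((k + 1 : ℕ) : ℝ) • S.A D v w t =
            (S.A D v w ((k : ℝ) * t + t) - (S.A D v w ((k : ℝ) * t) + S.A D v w t)) +
            (S.A D v w ((k : ℝ) * t) - (k : ℝ) • S.A D v w t) := by
          push_cast
          rw [add_smul, one_smul]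
          abel
        rw [e2]
        exact (D.W (l + 1)).add_mem h2 ih
    have hcl : IsClosed (D.W (l + 1) : Set V) := Submodule.closed_of_finiteDimensional _
    have h3 : Tendsto (fun k : ℕ => ((k : ℝ) + 1)⁻¹ • (((k : ℝ) + 1) • S.A D v w t -
        S.A D v w (((k : ℝ) + 1) * t))) atTop (𝓝 (S.A D v w t)) := by
      have e1 : ∀ k : ℕ, ((k : ℝ) + 1)⁻¹ • (((k : ℝ) + 1) • S.A D v w t -
          S.A D v w (((k : ℝ) + 1) * t)) = S.A D v w t -
          ((k : ℝ) + 1)⁻¹ • S.A D v w (((k : ℝ) + 1) * t) := by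
        intro k
        have : ((k : ℝ) + 1) ≠ 0 := by positivity
        rw [smul_sub, smul_smul, inv_mul_cancel₀ this, one_smul]
      simp_rw [e1]
      have h4 : Tendsto (fun k : ℕ => ((k : ℝ) + 1)⁻¹ • S.A D v w (((k : ℝ) + 1) * t)) atTop
          (𝓝 0) := by
        rw [tendsto_zero_iff_norm_tendsto_zero]
        have h5 : Tendsto (fun k : ℕ => ((k : ℝ) + 1)⁻¹ * C) atTop (𝓝 0) := by
          have := (tendsto_one_div_add_atTop_nhds_zero_nat (𝕜 := ℝ)).mul_const C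
          simpa using this
        refine squeeze_zero (fun k => norm_nonneg _) (fun k => ?_) h5
        have hk : (0 : ℝ) < (k : ℝ) + 1 := by positivity
        rw [norm_smul, norm_inv, Real.norm_of_nonneg hk.le]
        exact mul_le_mul_of_nonneg_left (hC _ (mul_nonneg hk.le ht)) (inv_nonneg.2 hk.le)
      have := (tendsto_const_nhds (x := S.A D v w t)).sub h4
      rwa [sub_zero] at this
    refine hcl.mem_of_tendsto h3 (Eventually.of_forall fun k => ?_)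
    have h6 := h1 (k + 1)
    push_cast at h6
    have h7 := (D.W (l + 1)).smul_mem (((k : ℝ) + 1)⁻¹) ((D.W (l + 1)).neg_mem h6)
    rwa [neg_sub] at h7
  have all : ∀ i : ℕ, ∀ t : ℝ, 0 ≤ t → S.A D v w t ∈ D.W (j + 1 + i) := by
    intro i
    induction i with
    | zero => intro t _; exact S.A_mem D hv hw hj t
    | succ i ih => exact step _ ih
  intro t ht
  have h1 := D.W_le (show D.n ≤ j + 1 + D.n by omega) (all D.n t ht)
  rw [D.Wn, Submodule.mem_bot] at h1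
  rw [h1, D.one_eq]

end alg

section core
variable {V Y : Type*} [NormedAddCommGroup V] [NormedSpace ℝ V] [FiniteDimensional ℝ V] [Group V]
  [MetricSpace Y] (D : ND V Y) (S : Sp D.toNB)

/-- there are no small stable identifications in the `i`-th term of the central series -/
def ND.NoS (i : ℕ) : Prop := ∃ ρ > 0, ∀ x a, D.H.u a = 0 → a ∈ D.W i → ‖a‖ ≤ ρ →
  D.F (x * a) = D.F x → a = 0

include S in
/-- **Small stable identifications of minimal level are periods.** -/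
theorem ND.exit (j : ℕ) (hno : D.NoS (j + 1)) :
    ∃ δ > 0, ∀ x v, D.H.u v = 0 → v ∈ D.W j → ‖v‖ < δ → D.F (x * v) = D.F x → v ∈ D.P := by
  have hpr : ProperSpace V := FiniteDimensional.proper ℝ V
  obtain ⟨ρ, hρ, hno⟩ := hno
  obtain ⟨δh, hδh, hpath⟩ := D.path S
  -- products of small elements are small
  obtain ⟨ρ', hρ', hprod⟩ : ∃ ρ' > 0, ∀ a b : V, ‖a‖ < ρ' → ‖b‖ < ρ' → ‖a * b‖ < δh := by
    have h1 : ∀ᶠ p in 𝓝 ((0, 0) : V × V), ‖p.1 * p.2‖ < δh := by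
      have : ContinuousAt (fun p : V × V => ‖p.1 * p.2‖) (0, 0) := D.cmul.norm.continuousAt
      apply this.eventually_lt_const
      show ‖(0 : V) * 0‖ < δh
      rw [← D.one_eq, mul_one, D.one_eq, norm_zero]
      exact hδh
    obtain ⟨δ', hδ', h2⟩ := Metric.eventually_nhds_iff.1 h1
    refine ⟨δ', hδ', fun a b ha hb => ?_⟩
    exact @h2 (a, b) (by
      rw [Prod.dist_eq, dist_zero_right, dist_zero_right]
      exact max_lt ha hb)
  obtain ⟨r, hr⟩ : ∃ r, r = min ρ (ρ' / 2) := ⟨_, rfl⟩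
  have hr0 : 0 < r := by rw [hr]; exact lt_min hρ (half_pos hρ')
  have hrρ : r ≤ ρ := by rw [hr]; exact min_le_left _ _
  have hrρ' : r < ρ' := by
    rw [hr]
    exact (min_le_right _ _).trans_lt (half_lt_self hρ')
  -- compactness
  obtain ⟨c, hc, hcb⟩ : ∃ c > 0, ∀ x a, D.H.u a = 0 → a ∈ D.W (j + 1) → ‖a‖ = r →
      c ≤ dist (D.F (x * a)) (D.F x) := by
    have hKc : IsCompact ((closedBall (0 : V) D.R) ×ˢ
        (sphere (0 : V) r ∩ ({a | D.H.u a = 0} ∩ (D.W (j + 1) : Set V)))) := by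
      refine (isCompact_closedBall _ _).prod ((isCompact_sphere _ _).inter_right ?_)
      refine IsClosed.inter ?_ (Submodule.closed_of_finiteDimensional _)
      exact isClosed_eq (LinearMap.toContinuousLinearMap D.H.u).continuous continuous_const
    have hf : Continuous fun p : V × V => dist (D.F (p.1 * p.2)) (D.F p.1) :=
      (D.cont.comp D.cmul).dist (D.cont.comp continuous_fst)
    have hred : ∀ x a, ∃ y ∈ closedBall (0 : V) D.R, D.F (y * a) = D.F (x * a) ∧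
        D.F y = D.F x := by
      intro x a
      obtain ⟨γ, hγ, -, hγx⟩ := D.coc 0 x (by rw [D.W0]; trivial)
      refine ⟨γ * x, mem_closedBall_zero_iff.2 hγx, ?_, D.per γ hγ x⟩
      rw [mul_assoc, D.per γ hγ]
    rcases (((closedBall (0 : V) D.R) ×ˢ
        (sphere (0 : V) r ∩ ({a | D.H.u a = 0} ∩ (D.W (j + 1) : Set V)))).eq_empty_or_nonempty)
      with hemp | hne
    · refine ⟨1, one_pos, fun x a h1 h2 h3 => ?_⟩
      exfalso
      obtain ⟨y, hy, -, -⟩ := hred x a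
      have : (y, a) ∈ ((closedBall (0 : V) D.R) ×ˢ
          (sphere (0 : V) r ∩ ({a | D.H.u a = 0} ∩ (D.W (j + 1) : Set V)))) :=
        ⟨hy, mem_sphere_zero_iff_norm.2 h3, h1, h2⟩
      rw [hemp] at this
      exact this
    · obtain ⟨⟨y₀, a₀⟩, ⟨hy₀, ha₀, ha₁, ha₂⟩, hmin⟩ := hKc.exists_isMinOn hne hf.continuousOn
      have ha₀' : ‖a₀‖ = r := mem_sphere_zero_iff_norm.1 ha₀
      refine ⟨dist (D.F (y₀ * a₀)) (D.F y₀), ?_, fun x a h1 h2 h3 => ?_⟩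
      · apply dist_pos.2
        intro heq
        have := hno y₀ a₀ ha₁ ha₂ (ha₀'.le.trans hrρ) heq
        rw [this, norm_zero] at ha₀'
        exact hr0.ne ha₀'
      · obtain ⟨y, hy, e1, e2⟩ := hred x a
        have := isMinOn_iff.1 hmin (y, a) ⟨hy, mem_sphere_zero_iff_norm.2 h3, h1, h2⟩
        rw [← e1, ← e2]
        exact this
  obtain ⟨δ₁, hδ₁, huc⟩ := D.uc2 r c hc
  refine ⟨min δ₁ ρ', lt_min hδ₁ hρ', fun x v hv hvj hvs hx => ?_⟩
  have hv1 : ‖v‖ < δ₁ := hvs.trans_le (min_le_left _ _)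
  have hv2 : ‖v‖ < ρ' := hvs.trans_le (min_le_right _ _)
  have hAc : ∀ w : V, Continuous fun t : ℝ => S.A _ v w t := by
    intro w
    have h1 : Continuous fun t : ℝ => S.ps ((t • w)⁻¹ * v) :=
      S.cps.comp (D.cmul.comp ((D.cinv.comp (continuous_id.smul continuous_const)).prodMk
        continuous_const))
    exact D.cmul.comp (continuous_const.prodMk h1)
  have hbd : ∀ w, D.H.s w = 0 → ∀ t : ℝ, 0 ≤ t → ‖S.A _ v w t‖ < r := by
    intro w hw t₀ ht₀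
    by_contra hcon
    rw [not_lt] at hcon
    have hn : Continuous fun t : ℝ => ‖S.A _ v w t‖ := (hAc w).norm
    have h0 : ‖S.A _ v w 0‖ = 0 := by rw [S.A_zero _ hv, D.one_eq, norm_zero]
    -- the first exit
    have hne : (Icc 0 t₀ ∩ {t | ‖S.A _ v w t‖ = r}).Nonempty := by
      have h1 := intermediate_value_Icc ht₀ hn.continuousOn
      obtain ⟨t, ht, htr⟩ := h1 ⟨h0.le.trans hr0.le, hcon⟩
      exact ⟨t, ht, htr⟩
    have hcp : IsCompact (Icc 0 t₀ ∩ {t | ‖S.A _ v w t‖ = r}) :=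
      isCompact_Icc.inter_right (isClosed_eq hn continuous_const)
    obtain ⟨τ, ⟨hτ1, hτ2⟩, hτmin⟩ := hcp.exists_isLeast hne
    have hτr : ‖S.A _ v w τ‖ = r := hτ2
    have hlt : ∀ t, 0 ≤ t → t ≤ τ → ‖S.A _ v w t‖ ≤ r := by
      intro t ht0 htτ
      by_contra hgt
      rw [not_le] at hgt
      have h1 := intermediate_value_Icc ht0 (hn.continuousOn (s := Icc 0 t))
      obtain ⟨t', ht', ht'r⟩ := h1 ⟨h0.le.trans hr0.le, hgt.le⟩
      have h2 : τ ≤ t' := hτmin ⟨⟨ht'.1, ht'.2.trans (htτ.trans hτ1.2)⟩, ht'r⟩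
      have h3 : t' = t := le_antisymm ht'.2 (htτ.trans h2)
      rw [h3] at ht'r
      exact hgt.ne' ht'r
    have h1 := hpath x v w hv hw τ hτ1.1 (fun t ht0 htτ => by
      rw [← S.mul_A]
      exact hprod _ _ hv2 ((hlt t ht0 htτ).trans_lt hrρ')) hx
    rw [← S.mul_A] at h1
    have h2 := huc (x * (τ • w)) (S.A _ v w τ) v hτr.le hv1
    rw [h1] at h2
    have h3 := hcb (x * (τ • w)) (S.A _ v w τ) (S.A_s _ hv w τ) (S.A_mem _ hv hw hvj τ) hτr
    rw [dist_comm] at h2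
    linarith
  refine D.period_of S x v fun w hw => ?_
  have hA := S.A_bdd _ hv hw hvj r (fun t ht => (hbd w hw t ht).le)
  have hps : ∀ t : ℝ, 0 ≤ t → S.ps ((t • w)⁻¹ * v) = v := by
    intro t ht
    rw [← S.mul_A, hA t ht, mul_one]
  have hvd : ‖v‖ < δh := by
    have := hprod v 1 hv2 (by rw [D.one_eq, norm_zero]; exact hρ')
    rwa [mul_one] at this
  have h1 := hpath x v w hv hw 1 zero_le_one (fun t ht0 _ => by rw [hps t ht0]; exact hvd) hx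
  rwa [hps 1 zero_le_one, one_smul] at h1

end core

end Pool.Agent.D0H26.Nil
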