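import Pool.Agent.D0H26.Nil.Quot

/-!
# Nilpotent Lie groups in exponential coordinates and hyperbolic nilmanifold automorphisms
-/

set_option autoImplicit false
set_option linter.unusedSectionVars false

open Filter Topology Set Metric

namespace Pool.Agent.D0H26.Nil

open Pool.Agent.D0H26.Fac (HSp subV)

/-- `V` with the group law `x * y` is a Lie group written in exponential coordinates: the lines
`t ↦ t • x` are one-parameter subgroups, and the addition of `V` is the addition of the Lie algebra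
(the product formula `((x / m) * (y / m)) ^ m → x + y` of Lie and Trotter; note that
`z ^ m = m • z`). -/
structure ExpCoord (V : Type*) [NormedAddCommGroup V] [NormedSpace ℝ V] [Group V] : Prop where
  cont : Continuous fun p : V × V => p.1 * p.2
  line : ∀ (s t : ℝ) (x : V), (s • x) * (t • x) = (s + t) • x
  trotter : ∀ x y : V, Tendsto (fun m : ℕ => ((m : ℝ) + 1) •
    ((((m : ℝ) + 1)⁻¹ • x) * (((m : ℝ) + 1)⁻¹ • y))) atTop (𝓝 (x + y))

section
variable {V : Type*} [NormedAddCommGroup V] [NormedSpace ℝ V] [Group V] (E : ExpCoord V)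

include E

theorem ExpCoord.one_eq : (1 : V) = 0 := by
  have h := E.line 0 1 1
  rw [zero_smul, one_smul, zero_add, one_smul, mul_one] at h
  exact h.symm

theorem ExpCoord.inv_eq (x : V) : x⁻¹ = -x := by
  have h := E.line 1 (-1) x
  rw [one_smul, neg_smul, one_smul, add_neg_cancel, zero_smul, ← E.one_eq] at h
  exact inv_eq_of_mul_eq_one_right h

theorem ExpCoord.cinv : Continuous fun x : V => x⁻¹ := by
  have : (fun x : V => x⁻¹) = fun x => -x := funext E.inv_eq
  rw [this]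
  exact continuous_neg

theorem ExpCoord.pow_eq (x : V) (m : ℕ) : x ^ m = (m : ℝ) • x := by
  induction m with
  | zero => rw [pow_zero, Nat.cast_zero, zero_smul, E.one_eq]
  | succ m ih =>
    have h := E.line m 1 x
    rw [one_smul] at h
    rw [pow_succ, ih, h]
    push_cast
    rfl

theorem ExpCoord.pow_eq' (x : V) (m : ℕ) : x ^ (m + 1) = ((m : ℝ) + 1) • x := by
  rw [E.pow_eq]
  push_cast
  rfl

theorem ExpCoord.root (x : V) (m : ℕ) : ((((m : ℝ) + 1)⁻¹ • x) ^ (m + 1)) = x := by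
  have : ((m : ℝ) + 1) ≠ 0 := by positivity
  rw [E.pow_eq', smul_smul, mul_inv_cancel₀ this, one_smul]

/-- the normal subgroup given by an ideal -/
def idealSub (K : Submodule ℝ V) (hK : IsIdeal K) : Subgroup V where
  carrier := K
  mul_mem' := by
    intro a b ha hb
    have := K.add_mem ((hK a b hb).1) ha
    rwa [sub_add_cancel] at this
  one_mem' := by
    show (1 : V) ∈ K
    rw [E.one_eq]
    exact K.zero_mem
  inv_mem' := by
    intro a ha
    show a⁻¹ ∈ K
    rw [E.inv_eq]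
    exact K.neg_mem ha

theorem idealSub_normal (K : Submodule ℝ V) (hK : IsIdeal K) : (idealSub E K hK).Normal :=
  ⟨fun k hk x => (hK x k hk).2⟩

theorem ExpCoord.mk_iff [FiniteDimensional ℝ V] (K : Submodule ℝ V) (hK : IsIdeal K) (a b : V) :
    (a : V ⧸ idealSub E K hK) = b ↔ b - a ∈ K := by
  have hN := idealSub_normal E K hK
  rw [QuotientGroup.eq]
  constructor
  · intro h
    have h1 := (hK a (a⁻¹ * b) h).1
    rwa [mul_inv_cancel_left] at h1
  · intro h
    obtain ⟨k, hk, rfl⟩ : ∃ k ∈ K, b = a + k := ⟨b - a, h, by abel⟩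
    -- `a + k = lim ((a/n) * (k/n)) ^ n`
    have h1 : ∀ m : ℕ, a⁻¹ * (((m : ℝ) + 1) •
        ((((m : ℝ) + 1)⁻¹ • a) * (((m : ℝ) + 1)⁻¹ • k))) ∈ idealSub E K hK := by
      intro m
      rw [← QuotientGroup.eq, ← E.pow_eq', QuotientGroup.mk_pow, QuotientGroup.mk_mul]
      have h2 : ((((((m : ℝ) + 1)⁻¹ • k : V)) : V ⧸ idealSub E K hK)) = 1 := by
        rw [QuotientGroup.eq_one_iff]
        exact K.smul_mem _ hk
      rw [h2, mul_one, ← QuotientGroup.mk_pow, E.root]
    have h3 : Tendsto (fun m : ℕ => a⁻¹ * (((m : ℝ) + 1) •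
        ((((m : ℝ) + 1)⁻¹ • a) * (((m : ℝ) + 1)⁻¹ • k)))) atTop (𝓝 (a⁻¹ * (a + k))) := by
      have hc : Continuous fun v : V => a⁻¹ * v := E.cont.comp (continuous_const.prodMk continuous_id)
      exact (hc.tendsto _).comp (E.trotter a k)
    have hcl : IsClosed (K : Set V) := Submodule.closed_of_finiteDimensional _
    exact hcl.mem_of_tendsto h3 (Eventually.of_forall h1)

/-- modulo an ideal, commuting elements add -/
theorem ExpCoord.acom [FiniteDimensional ℝ V] (K : Submodule ℝ V) (hK : IsIdeal K) (x y : V)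
    (h : x⁻¹ * y⁻¹ * x * y ∈ K) : x * y - (x + y) ∈ K := by
  have hN := idealSub_normal E K hK
  have hcom : Commute (x : V ⧸ idealSub E K hK) (y : V ⧸ idealSub E K hK) := by
    have h1 : (y * x)⁻¹ * (x * y) ∈ idealSub E K hK := by
      have e : (y * x)⁻¹ * (x * y) = x⁻¹ * y⁻¹ * x * y := by group
      rw [e]
      exact h
    have h2 := QuotientGroup.eq.2 h1
    rw [QuotientGroup.mk_mul, QuotientGroup.mk_mul] at h2
    exact h2.symm
  -- roots of commuting elements commute
  have hroot : ∀ (a b : V) (m : ℕ), Commute (a : V ⧸ idealSub E K hK) (b : V ⧸ idealSub E K hK) →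
      Commute (((((m : ℝ) + 1)⁻¹ • a : V)) : V ⧸ idealSub E K hK) (b : V ⧸ idealSub E K hK) := by
    intro a b m hab
    obtain ⟨z, hz⟩ : ∃ z, z = b⁻¹ * (((m : ℝ) + 1)⁻¹ • a) * b := ⟨_, rfl⟩
    have h1 : z ^ (m + 1) = b⁻¹ * a * b := by
      rw [hz]
      have := conj_pow (a := b⁻¹) (b := ((m : ℝ) + 1)⁻¹ • a) (i := m + 1)
      rw [inv_inv] at this
      rw [this, E.root]
    have h2 : ((z ^ (m + 1) : V) : V ⧸ idealSub E K hK) = a := by
      rw [h1, QuotientGroup.mk_mul, QuotientGroup.mk_mul, QuotientGroup.mk_inv, mul_assoc,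
        hab.eq, inv_mul_cancel_left]
    rw [E.mk_iff, E.pow_eq'] at h2
    have hm : ((m : ℝ) + 1) ≠ 0 := by positivity
    have h3 := K.smul_mem (((m : ℝ) + 1)⁻¹) h2
    rw [smul_sub, smul_smul, inv_mul_cancel₀ hm, one_smul, ← E.mk_iff K hK, hz,
      QuotientGroup.mk_mul, QuotientGroup.mk_mul, QuotientGroup.mk_inv, mul_assoc,
      inv_mul_eq_iff_eq_mul] at h3
    exact h3
  have hm : ∀ m : ℕ, (((((m : ℝ) + 1) •
      ((((m : ℝ) + 1)⁻¹ • x) * (((m : ℝ) + 1)⁻¹ • y)) : V)) : V ⧸ idealSub E K hK) =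
      ((x * y : V) : V ⧸ idealSub E K hK) := by
    intro m
    have h1 := (hroot y _ m ((hroot x y m hcom).symm)).symm
    rw [← E.pow_eq', QuotientGroup.mk_pow, QuotientGroup.mk_mul, h1.mul_pow,
      ← QuotientGroup.mk_pow, ← QuotientGroup.mk_pow, E.root, E.root, QuotientGroup.mk_mul]
  have hcl : IsClosed (K : Set V) := Submodule.closed_of_finiteDimensional _
  have h3 : Tendsto (fun m : ℕ => x * y - (((m : ℝ) + 1) •
      ((((m : ℝ) + 1)⁻¹ • x) * (((m : ℝ) + 1)⁻¹ • y)))) atTop (𝓝 (x * y - (x + y))) :=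
    tendsto_const_nhds.sub (E.trotter x y)
  exact hcl.mem_of_tendsto h3 (Eventually.of_forall fun m => (E.mk_iff K hK _ _).1 (hm m))

/-- the terms of a central series of subspaces are ideals -/
theorem ExpCoord.ideals [FiniteDimensional ℝ V] (n : ℕ) (W : ℕ → Submodule ℝ V) (Wn : W n = ⊥)
    (Wanti : ∀ i, W (i + 1) ≤ W i)
    (Wcom : ∀ i x, ∀ y ∈ W i, x⁻¹ * y⁻¹ * x * y ∈ W (i + 1)) : ∀ i, IsIdeal (W i) := by
  have key : ∀ m i : ℕ, n ≤ i + m → IsIdeal (W i) := by
    intro m
    induction m with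
    | zero =>
      intro i hi x k hk
      have h1 := antitone_nat_of_succ_le Wanti hi hk
      rw [Wn, Submodule.mem_bot] at h1
      rw [h1, ← E.one_eq, mul_one, sub_self, mul_inv_cancel, E.one_eq]
      exact ⟨Submodule.zero_mem _, Submodule.zero_mem _⟩
    | succ m ih =>
      intro i hi
      have hI := ih (i + 1) (by omega)
      have h1 : ∀ x, ∀ k ∈ W i, x * k - x ∈ W i := by
        intro x k hk
        have h2 := Wanti i (E.acom _ hI x k (Wcom i x k hk))
        have h3 := (W i).add_mem h2 hk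
        have e : x * k - (x + k) + k = x * k - x := by abel
        rwa [e] at h3
      intro x k hk
      refine ⟨h1 x k hk, ?_⟩
      have hk' : k⁻¹ ∈ W i := by
        rw [E.inv_eq]
        exact (W i).neg_mem hk
      have h2 := Wanti i (Wcom i x⁻¹ k⁻¹ hk')
      have h3 := (W i).add_mem (h1 (x⁻¹⁻¹ * k⁻¹⁻¹ * x⁻¹ * k⁻¹) k hk) h2
      have e : x⁻¹⁻¹ * k⁻¹⁻¹ * x⁻¹ * k⁻¹ * k - x⁻¹⁻¹ * k⁻¹⁻¹ * x⁻¹ * k⁻¹ +
          x⁻¹⁻¹ * k⁻¹⁻¹ * x⁻¹ * k⁻¹ = x * k * x⁻¹ := by
        rw [sub_add_cancel]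
        group
      rwa [e] at h3
  intro i
  exact key n i (by omega)

end

end Pool.Agent.D0H26.Nil
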