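import Pool.Agent.D0H26.Nil.Rig

/-!
# Rigidity: the leaves
-/

set_option autoImplicit false
set_option linter.unusedSectionVars false

open Filter Topology Set Metric

namespace Pool.Agent.D0H26.Nil

open Pool.Agent.D0H26.Fac (HSp subV)

universe u v w

section
variable {V : Type*} [NormedAddCommGroup V] [NormedSpace ℝ V] [FiniteDimensional ℝ V] [Group V]
  (D : HD V)

theorem HD.E_cont2 : Continuous fun p : V × V => D.E p.1 p.2 := by
  have h1 : Continuous fun p : V × V => D.δ (p.2 * p.1) :=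
    D.δ.continuous.comp (D.cmul.comp (continuous_snd.prodMk continuous_fst))
  exact D.cmul.comp ((D.cinv.comp (D.δ.continuous.comp continuous_snd)).prodMk h1)

/-- boundedness -/
theorem HD.E_bdd (C : ℝ) : ∃ C' : ℝ, ∀ x a, ‖a‖ ≤ C → ‖D.E a x‖ ≤ C' := by
  have hpr : ProperSpace V := FiniteDimensional.proper ℝ V
  obtain ⟨C', hC'⟩ := ((isCompact_closedBall (0 : V) C).prod
    (isCompact_closedBall (0 : V) D.R)).exists_bound_of_continuousOn D.E_cont2.continuousOn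
  refine ⟨C', fun x a ha => ?_⟩
  obtain ⟨γ, hγ, hn⟩ := D.coc x
  have := hC' (a, γ * x) ⟨mem_closedBall_zero_iff.2 ha, mem_closedBall_zero_iff.2 hn⟩
  simp only [D.E_per hγ] at this
  exact this

/-- uniform continuity at the identity -/
theorem HD.E_small (e : ℝ) (he : 0 < e) : ∃ r > 0, ∀ x a, ‖a‖ < r → ‖D.E a x‖ < e := by
  have hpr : ProperSpace V := FiniteDimensional.proper ℝ V
  have hu := ((isCompact_closedBall (0 : V) 1).prod
    (isCompact_closedBall (0 : V) D.R)).uniformContinuousOn_of_continuous D.E_cont2.continuousOn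
  rw [Metric.uniformContinuousOn_iff] at hu
  obtain ⟨r, hr, h⟩ := hu e he
  refine ⟨min r 1, lt_min hr one_pos, fun x a ha => ?_⟩
  obtain ⟨γ, hγ, hn⟩ := D.coc x
  have h1 := h (a, γ * x) ⟨mem_closedBall_zero_iff.2 (ha.le.trans (min_le_right _ _)),
    mem_closedBall_zero_iff.2 hn⟩ (0, γ * x) ⟨mem_closedBall_self zero_le_one,
    mem_closedBall_zero_iff.2 hn⟩ (by
      rw [Prod.dist_eq, dist_self, dist_zero_right]
      exact max_lt (ha.trans_le (min_le_left _ _)) hr)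
  have e0 : D.E 0 (γ * x) = 0 := by
    show (D.δ (γ * x))⁻¹ * D.δ (γ * x * 0) = 0
    rw [← D.one_eq, mul_one, inv_mul_cancel]
  rw [e0, dist_zero_right, D.E_per hγ] at h1
  exact h1

theorem HD.E_T (a x : V) : D.T (D.E a x) = D.E (D.T a) (D.T x) := by
  show D.T ((D.δ x)⁻¹ * D.δ (x * a)) = (D.δ (D.T x))⁻¹ * D.δ (D.T x * D.T a)
  rw [D.Tmul, D.T_inv, ← D.Tmul, D.com, D.com]

theorem HD.E_Tn (n : ℕ) (a x : V) : D.T^[n] (D.E a x) = D.E (D.T^[n] a) (D.T^[n] x) := by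
  induction n generalizing a x with
  | zero => rfl
  | succ n ih =>
    rw [Function.iterate_succ_apply, Function.iterate_succ_apply, Function.iterate_succ_apply,
      D.E_T, ih]

/-- stable leaves are preserved -/
theorem HD.leaf_s (x a : V) (ha : D.H.u a = 0) : D.H.u (D.E a x) = 0 := by
  rw [← Pool.Agent.D0H25.NIL.tendsto_iff D.H] at ha ⊢
  rw [Metric.tendsto_atTop]
  intro e he
  obtain ⟨r, hr, h⟩ := D.E_small e he
  obtain ⟨N, hN⟩ := Metric.tendsto_atTop.1 ha r hr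
  refine ⟨N, fun n hn => ?_⟩
  rw [dist_zero_right, D.E_Tn]
  have := hN n hn
  rw [dist_zero_right] at this
  exact h _ _ this

/-- unstable leaves are preserved -/
theorem HD.leaf_u (x a : V) (ha : D.H.s a = 0) : D.H.s (D.E a x) = 0 :=
  D.swap.leaf_s x a ha

/-- the data of the inverse homeomorphism -/
def HD.invR : ∃ R' : ℝ, ∀ x, ∃ γ ∈ D.Γ, ‖D.δ (γ * x)‖ ≤ R' := by
  have hpr : ProperSpace V := FiniteDimensional.proper ℝ V
  obtain ⟨R', hR'⟩ := (isCompact_closedBall (0 : V) D.R).exists_bound_of_continuousOn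
    D.δ.continuous.continuousOn
  refine ⟨R', fun x => ?_⟩
  obtain ⟨γ, hγ, hn⟩ := D.coc x
  exact ⟨γ, hγ, hR' _ (mem_closedBall_zero_iff.2 hn)⟩

theorem HD.δ_inv {γ : V} (hγ : γ ∈ D.Γ) : D.δ γ⁻¹ = (D.δ γ)⁻¹ := by
  have h := D.eq γ hγ γ⁻¹
  rw [mul_inv_cancel, D.δ_one] at h
  exact eq_inv_of_mul_eq_one_right h.symm

/-- the data of the inverse homeomorphism -/
noncomputable def HD.inv : HD V where
  toNB := D.toNB
  Γ :=
    { carrier := {y | ∃ γ ∈ D.Γ, D.δ γ = y}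
      mul_mem' := by
        rintro _ _ ⟨a, ha, rfl⟩ ⟨b, hb, rfl⟩
        exact ⟨a * b, D.Γ.mul_mem ha hb, D.eq a ha b⟩
      one_mem' := ⟨1, D.Γ.one_mem, D.δ_one⟩
      inv_mem' := by
        rintro _ ⟨a, ha, rfl⟩
        exact ⟨a⁻¹, D.Γ.inv_mem ha, D.δ_inv ha⟩ }
  TΓ := by
    rintro _ ⟨γ, hγ, rfl⟩
    exact ⟨D.T γ, D.TΓ γ hγ, D.com γ⟩
  TΓ' := by
    rintro _ ⟨γ, hγ, rfl⟩
    refine ⟨D.T.symm γ, D.TΓ' γ hγ, ?_⟩
    apply D.T.injective
    rw [← D.com, D.T.apply_symm_apply, D.T.apply_symm_apply]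
  R := D.invR.choose
  coc := by
    intro y
    obtain ⟨γ, hγ, hn⟩ := D.invR.choose_spec (D.δ.symm y)
    refine ⟨D.δ γ, ⟨γ, hγ, rfl⟩, ?_⟩
    rw [D.eq γ hγ, D.δ.apply_symm_apply] at hn
    exact hn
  δ := D.δ.symm
  eq := by
    rintro _ ⟨γ, hγ, rfl⟩ x
    rw [Homeomorph.symm_apply_eq, D.δ.symm_apply_apply, D.eq γ hγ, D.δ.apply_symm_apply]
  com := by
    intro x
    rw [Homeomorph.symm_apply_eq, D.com, D.δ.apply_symm_apply]

theorem HD.leaf_surj (x y : V) (hy : D.H.s y = 0) : ∃ w, D.H.s w = 0 ∧ D.E w x = y := by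
  refine ⟨D.inv.E y (D.δ x), D.inv.leaf_u _ _ hy, ?_⟩
  show (D.δ x)⁻¹ * D.δ (x * ((D.δ.symm (D.δ x))⁻¹ * D.δ.symm (D.δ x * y))) = y
  rw [D.δ.symm_apply_apply, mul_inv_cancel_left, D.δ.apply_symm_apply, inv_mul_cancel_left]

theorem HD.leaf_rel (S : Sp D.toNB) (x a w : V) (ha : D.H.u a = 0) (hw : D.H.s w = 0) :
    D.E (S.ps (w⁻¹ * a)) (x * w) = S.ps ((D.E w x)⁻¹ * D.E a x) := by
  have e1 : x * a = x * w * S.ps (w⁻¹ * a) * S.pu (w⁻¹ * a) := by
    rw [mul_assoc (x * w), S.dec]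
    group
  have e2 : D.δ x * D.E a x = D.δ x * D.E w x * D.E (S.ps (w⁻¹ * a)) (x * w) *
      D.E (S.pu (w⁻¹ * a)) (x * w * S.ps (w⁻¹ * a)) := by
    rw [← D.mul_E, ← D.mul_E, ← D.mul_E, ← D.mul_E, ← e1]
  have e3 : (D.E w x)⁻¹ * D.E a x = D.E (S.ps (w⁻¹ * a)) (x * w) *
      D.E (S.pu (w⁻¹ * a)) (x * w * S.ps (w⁻¹ * a)) := by
    rw [inv_mul_eq_iff_eq_mul, ← mul_assoc]
    rw [mul_assoc, mul_assoc, mul_right_inj, ← mul_assoc] at e2
    exact e2
  rw [e3]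
  exact (S.uniq _ (D.leaf_s _ _ (S.es _)) (D.leaf_u _ _ (S.eu _))).1.symm

theorem HD.const (S : Sp D.toNB) (f : V → V) (hf : Continuous f)
    (hper : ∀ γ ∈ D.Γ, ∀ x, f (γ * x) = f x)
    (hu : ∀ x w, D.H.s w = 0 → f (x * w) = f x) (y : V) : f y = f 1 := by
  have hpr : ProperSpace V := FiniteDimensional.proper ℝ V
  -- density of the unstable leaves
  have hdense : ∀ e : ℝ, 0 < e → ∃ γ ∈ D.Γ, ∃ w r : V, D.H.s w = 0 ∧ ‖r‖ < e ∧
      y = γ * w * r := by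
    intro e he
    have hm : Continuous fun p : V × V => ‖(S.ps (p.1⁻¹ * p.2)⁻¹)⁻¹‖ :=
      (D.cinv.comp (S.cps.comp (D.cinv.comp
        (D.cmul.comp ((D.cinv.comp continuous_fst).prodMk continuous_snd))))).norm
    obtain ⟨K, hK⟩ := ((isCompact_closedBall (0 : V) D.R).prod
      (isCompact_closedBall (0 : V) D.R)).exists_bound_of_continuousOn hm.continuousOn
    have ht : Tendsto (fun n : ℕ => D.H.C * D.H.l ^ n * K) atTop (𝓝 0) := by
      have := ((tendsto_pow_atTop_nhds_zero_of_lt_one D.H.hl0 D.H.hl1).const_mul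
        D.H.C).mul_const K
      simpa using this
    obtain ⟨n, hn⟩ := ((tendsto_order.1 ht).2 e he).exists
    obtain ⟨γ₁, hγ₁, h1⟩ := D.coc 1
    obtain ⟨γ₂, hγ₂, h2⟩ := D.coc (D.T.symm^[n] y)
    obtain ⟨ρ, hρ⟩ : ∃ ρ, ρ = (γ₁ * 1)⁻¹ * (γ₂ * D.T.symm^[n] y) := ⟨_, rfl⟩
    have h3 := hK (γ₁ * 1, γ₂ * D.T.symm^[n] y)
      ⟨mem_closedBall_zero_iff.2 h1, mem_closedBall_zero_iff.2 h2⟩
    simp only [norm_norm] at h3
    rw [← hρ] at h3
    have hΓn : ∀ (k : ℕ) (γ : V), γ ∈ D.Γ → D.T^[k] γ ∈ D.Γ := by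
      intro k
      induction k with
      | zero => intro γ h; exact h
      | succ k ih => intro γ h; rw [Function.iterate_succ_apply]; exact ih _ (D.TΓ _ h)
    have hss : ∀ z : V, D.T^[n] (D.T.symm^[n] z) = z := fun z =>
      (Function.LeftInverse.iterate D.T.apply_symm_apply n) z
    have hdec := S.dec' _ ρ
    have hy : D.T.symm^[n] y = (γ₂⁻¹ * γ₁) * (S.pu ρ⁻¹)⁻¹ * (S.ps ρ⁻¹)⁻¹ := by
      rw [mul_assoc _ (S.pu ρ⁻¹)⁻¹, hdec, hρ]
      group
    have hTs : ∀ (k : ℕ) (z : V), D.H.s z = 0 → D.H.s (D.T^[k] z) = 0 := by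
      intro k z hz
      have h4 : Function.Semiconj D.H.s D.T D.T := D.H.cs
      have h5 := (h4.iterate_right k) z
      rw [hz] at h5
      rw [h5, iterate_map_zero]
    have hbs : ∀ (k : ℕ) (v : V), D.H.u v = 0 → ‖D.T^[k] v‖ ≤ D.H.C * D.H.l ^ k * ‖v‖ := by
      intro k v hv
      have h6 : D.H.s v = v := by
        have := D.H.add v
        rwa [hv, add_zero] at this
      have := D.H.bs k v
      rwa [h6] at this
    refine ⟨D.T^[n] (γ₂⁻¹ * γ₁), hΓn n _ (D.Γ.mul_mem (D.Γ.inv_mem hγ₂) hγ₁),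
      D.T^[n] (S.pu ρ⁻¹)⁻¹, D.T^[n] (S.ps ρ⁻¹)⁻¹, hTs n _ (S.inv_u _ (S.eu _)), ?_, ?_⟩
    · refine ((hbs n _ (S.inv_s _ (S.es _))).trans ?_).trans_lt hn
      exact mul_le_mul_of_nonneg_left h3 (mul_nonneg D.H.hC (pow_nonneg D.H.hl0 n))
    · have h6 := congrArg (D.T^[n]) hy
      rw [hss, Pool.Agent.D0H25.NIL.iter_mul D.Tmul, Pool.Agent.D0H25.NIL.iter_mul D.Tmul] at h6
      exact h6
  -- uniform continuity
  by_contra hne
  have hd : 0 < dist (f y) (f 1) := dist_pos.2 hne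
  have hc : Continuous fun p : V × V => f (p.1 * p.2) := hf.comp D.cmul
  have huc := ((isCompact_closedBall (0 : V) D.R).prod
    (isCompact_closedBall (0 : V) 1)).uniformContinuousOn_of_continuous hc.continuousOn
  rw [Metric.uniformContinuousOn_iff] at huc
  obtain ⟨r₀, hr₀, h⟩ := huc _ hd
  obtain ⟨γ, hγ, w, r, hw, hr, hy⟩ := hdense (min r₀ 1) (lt_min hr₀ one_pos)
  obtain ⟨γ₁, hγ₁, h1⟩ := D.coc (γ * w)
  have h2 := h (γ₁ * (γ * w), r) ⟨mem_closedBall_zero_iff.2 h1,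
    mem_closedBall_zero_iff.2 (hr.le.trans (min_le_right _ _))⟩ (γ₁ * (γ * w), 1)
    ⟨mem_closedBall_zero_iff.2 h1, by rw [D.one_eq]; exact mem_closedBall_self zero_le_one⟩ (by
      rw [Prod.dist_eq, dist_self, D.one_eq, dist_zero_right]
      exact max_lt hr₀ (hr.trans_le (min_le_left _ _)))
  simp only [mul_one] at h2
  rw [mul_assoc γ₁, hper γ₁ hγ₁, hper γ₁ hγ₁, ← hy, hper γ hγ] at h2
  have h3 : f w = f 1 := by
    have := hu 1 w hw
    rwa [one_mul] at this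
  rw [h3] at h2
  exact lt_irrefl _ h2

end

theorem leaf : S_LEAF.{u} := by
  intro V _ _ _ _ D S
  exact ⟨fun x a => D.leaf_s x a, fun x a => D.leaf_u x a, D.leaf_surj,
    fun x a w => D.leaf_rel S x a w, D.E_bdd, D.const S⟩

end Pool.Agent.D0H26.Nil
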