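import Pool.Agent.D0H26.Nil.Def
import Pool.Agent.D0H26.Nil.Deck
import Pool.Agent.D0H25.NIL.Cov
import Pool.Agent.D0H98.NIL.Lin
import Pool.Agent.D0H26.Fac.Top

/-!
# Expansive factors of hyperbolic nilmanifold automorphisms: the main theorems
-/

set_option autoImplicit false
set_option linter.unusedSectionVars false

open Filter Topology Set Metric

namespace Pool.Agent.D0H26.Nil

open Pool.Agent.D0H26.Fac (HSp subV)
open Pool.Agent.TH289.K (Expansive)

universe u v w

theorem Hyp.split {V : Type*} [NormedAddCommGroup V] [NormedSpace ℝ V] {T : V ≃ₗ[ℝ] V}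
    (h : Hyp T) : Nonempty (HSp T) := by
  obtain ⟨s, u, h1, h2, h3, C, l, hl0, hl1, h4⟩ := h
  have hC : ∀ (n : ℕ) (v : V), C * l ^ n * ‖v‖ ≤ max C 0 * l ^ n * ‖v‖ := fun n v =>
    mul_le_mul_of_nonneg_right (mul_le_mul_of_nonneg_right (le_max_left _ _)
      (pow_nonneg hl0 n)) (norm_nonneg _)
  exact ⟨{ s := s
           u := u
           add := h1
           cs := h2
           cu := h3
           C := max C 0
           l := l
           hC := le_max_right _ _
           hl0 := hl0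
           hl1 := hl1
           bs := fun n v => (h4 n v).1.trans (hC n v)
           bu := fun n v => (h4 n v).2.trans (hC n v) }⟩

theorem HSp.hyp {V : Type*} [NormedAddCommGroup V] [NormedSpace ℝ V] {T : V ≃ₗ[ℝ] V}
    (H : HSp T) : Hyp T :=
  ⟨H.s, H.u, H.add, H.cs, H.cu, H.C, H.l, H.hl0, H.hl1, fun n v => ⟨H.bs n v, H.bu n v⟩⟩

section
variable {V : Type*} [NormedAddCommGroup V] [NormedSpace ℝ V] [FiniteDimensional ℝ V] [Group V]

/-- a nilmanifold automorphism as a group with a central series -/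
theorem NilAut.nb (D : NilAut V) : ∃ (B : NB V) (R : ℝ), B.T = D.T ∧
    ∀ i, ∀ x ∈ B.W i, ∃ γ ∈ D.Γ, γ ∈ B.W i ∧ ‖γ * x‖ ≤ R := by
  obtain ⟨H⟩ := D.hyp.split
  obtain ⟨n, W, R, h1, h2, h3⟩ := D.series
  have hid := D.coord.ideals n W h2 (fun i => (h3 i).1) (fun i => (h3 i).2.1)
  exact ⟨{ cmul := D.coord.cont
           line := D.coord.line
           acom := fun K hK x y h => D.coord.acom K hK x y h
           T := D.T
           Tmul := D.T_mul
           H := H
           n := n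
           W := W
           W0 := h1
           Wn := h2
           Wanti := fun i => (h3 i).1
           Wid := hid
           Wcom := fun i => (h3 i).2.1
           WT := fun i => (h3 i).2.2.1 }, R, rfl, fun i => (h3 i).2.2.2⟩

/-- locally injective maps of a compact nilmanifold have bounded fibres -/
theorem bdd_fib {X : Type*} (E : ExpCoord V) (Γ : Subgroup V) (R : ℝ)
    (coc : ∀ x, ∃ γ ∈ Γ, ‖γ * x‖ ≤ R) (F : V → X) (per : ∀ γ ∈ Γ, ∀ x, F (γ * x) = F x)
    (δ : ℝ) (hδ : 0 < δ) (hi : ∀ x v, ‖v‖ < δ → F (x * v) = F x → v = 0) :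
    ∃ m : ℕ, ∀ a, ∃ S : Finset V, S.card ≤ m ∧ ∀ x, F x = a → ∃ s ∈ S, ∃ γ ∈ Γ, x = γ * s := by
  classical
  have hpr : ProperSpace V := FiniteDimensional.proper ℝ V
  have hc : Continuous fun p : V × V => p.1⁻¹ * p.2 :=
    E.cont.comp ((E.cinv.comp continuous_fst).prodMk continuous_snd)
  have hu := ((isCompact_closedBall (0 : V) R).prod
    (isCompact_closedBall (0 : V) R)).uniformContinuousOn_of_continuous hc.continuousOn
  rw [Metric.uniformContinuousOn_iff] at hu
  obtain ⟨η, hη, h⟩ := hu δ hδ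
  have hnear : ∀ a b : V, ‖a‖ ≤ R → ‖b‖ ≤ R → dist a b < η → ‖a⁻¹ * b‖ < δ := by
    intro a b ha hb hab
    have h1 := h (a, b) ⟨mem_closedBall_zero_iff.2 ha, mem_closedBall_zero_iff.2 hb⟩ (a, a)
      ⟨mem_closedBall_zero_iff.2 ha, mem_closedBall_zero_iff.2 ha⟩ (by
        rw [Prod.dist_eq, dist_self, dist_comm]
        exact max_lt hη hab)
    simp only [inv_mul_cancel] at h1
    rwa [E.one_eq, dist_zero_right] at h1
  obtain ⟨t, -, htf, htc⟩ := (isCompact_closedBall (0 : V) R).finite_cover_balls (half_pos hη)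
  refine ⟨htf.toFinset.card, fun a => ?_⟩
  have hex : ∀ c : V, ∃ s : V, (∃ x, ‖x‖ ≤ R ∧ x ∈ ball c (η / 2) ∧ F x = a) →
      ‖s‖ ≤ R ∧ s ∈ ball c (η / 2) ∧ F s = a := by
    intro c
    by_cases hc : ∃ x, ‖x‖ ≤ R ∧ x ∈ ball c (η / 2) ∧ F x = a
    · obtain ⟨x, hx⟩ := hc
      exact ⟨x, fun _ => hx⟩
    · exact ⟨1, fun h' => absurd h' hc⟩
  choose s hs using hex
  refine ⟨htf.toFinset.image s, Finset.card_image_le, fun x hx => ?_⟩
  obtain ⟨γ, hγ, hn⟩ := coc x
  obtain ⟨c, hct, hcb⟩ := mem_iUnion₂.1 (htc (mem_closedBall_zero_iff.2 hn))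
  have hFγ : F (γ * x) = a := by rw [per γ hγ, hx]
  obtain ⟨h1, h2, h3⟩ := hs c ⟨γ * x, hn, hcb, hFγ⟩
  refine ⟨s c, Finset.mem_image.2 ⟨c, htf.mem_toFinset.2 hct, rfl⟩, γ⁻¹, Γ.inv_mem hγ, ?_⟩
  have hd : dist (s c) (γ * x) < η := by
    rw [mem_ball] at h2 hcb
    have := dist_triangle_right (s c) (γ * x) c
    linarith
  have h4 := hi (s c) _ (hnear _ _ h1 hn hd) (by rw [mul_inv_cancel_left, hFγ, h3])
  rw [← E.one_eq, inv_mul_eq_one] at h4
  rw [h4, inv_mul_cancel_left]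

end

/-- **Structure of the expansive factors.** -/
theorem structure_thm {Y : Type v} [TopologicalSpace Y] [CompactSpace Y]
    [TopologicalSpace.MetrizableSpace Y] (g : Y ≃ₜ Y) (hg : Expansive g) {V : Type u}
    [NormedAddCommGroup V] [NormedSpace ℝ V] [FiniteDimensional ℝ V] [Group V] (D : NilAut V)
    (F : V → Y) (hF : Semi D g F) :
    ∃ (V' : Type u) (_ : NormedAddCommGroup V') (_ : NormedSpace ℝ V')
      (_ : FiniteDimensional ℝ V') (_ : Group V') (D' : NilAut V') (p : V →ₗ[ℝ] V')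
      (F' : V' → Y), Quot D D' p ∧ Semi D' g F' ∧ (∀ x, F x = F' (p x)) ∧ BddToOne D' F' := by
  let _ : MetricSpace Y := TopologicalSpace.metrizableSpaceMetric Y
  obtain ⟨ε, hε, hexp⟩ := Pool.Agent.D0H26.Fac.exists_eps hg
  obtain ⟨B, R, hBT, hcoc⟩ := D.nb
  obtain ⟨hF1, hF2, hF3⟩ := hF
  let N : ND V Y :=
    { toNB := B
      Γ := D.Γ
      TΓ := fun γ hγ => by rw [hBT]; exact (D.T_Γ γ).2 hγ
      TΓ' := fun γ hγ => by
        rw [← D.T_Γ, ← hBT, B.T.apply_symm_apply]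
        exact hγ
      R := R
      coc := hcoc
      g := g
      F := F
      cont := hF1
      per := hF2
      equi := fun x => by rw [hBT, hF3]
      ε := ε
      hε := hε
      exp := hexp }
  obtain ⟨V', i1, i2, i3, i4, D', m, ρ, hρ, hinj⟩ :=
    ND.final Pool.Agent.D0H98.NIL.t_LIN2 Pool.Agent.D0H98.NIL.t_LIN4
      (Pool.Agent.D0H25.NIL.split Pool.Agent.D0H98.NIL.t_LIN2) _ V N rfl
  have hcp : Continuous m.p := LinearMap.continuous_of_finiteDimensional _
  have hcoord : ExpCoord V' :=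
    { cont := D'.cmul
      line := D'.line
      trotter := by
        intro x' y'
        obtain ⟨x, rfl⟩ := m.surj x'
        obtain ⟨y, rfl⟩ := m.surj y'
        have h1 := (hcp.tendsto _).comp (D.coord.trotter x y)
        rw [map_add] at h1
        refine h1.congr fun k => ?_
        show m.p _ = _
        rw [map_smul, m.mul, map_smul, map_smul] }
  have hg' : D'.g = g := m.g
  have hper := D'.per
  let A : NilAut V' :=
    { coord := hcoord
      T := D'.T
      T_mul := D'.Tmul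
      hyp := HSp.hyp D'.H
      Γ := D'.Γ
      T_Γ := fun x => ⟨fun h => by
        have := D'.TΓ' _ h
        rwa [D'.T.symm_apply_apply] at this, D'.TΓ x⟩
      discrete := by
        refine ⟨ρ, hρ, fun γ hγ hn => ?_⟩
        rw [D'.one_eq]
        refine hinj 1 γ hn ?_
        rw [one_mul, ← D'.per γ hγ 1, mul_one]
      series := ⟨D'.n, D'.W, D'.R, D'.W0, D'.Wn, fun i => ⟨D'.Wanti i, D'.Wcom i, D'.WT i,
        D'.coc i⟩⟩ }
  refine ⟨V', i1, i2, i3, i4, A, m.p, D'.F, ⟨m.surj, m.mul, fun x => ?_, m.Γ⟩,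
    ⟨D'.cont, D'.per, fun x => ?_⟩, fun x => (m.F x).symm, ⟨ρ, hρ, fun x v hv h => ?_⟩, ?_⟩
  · have h1 := m.T x
    have h2 : N.T = D.T := hBT
    rw [h2] at h1
    exact h1
  · have h1 := D'.equi x
    rw [hg'] at h1
    exact h1
  · rw [D'.one_eq]
    exact hinj x v hv h
  · exact bdd_fib hcoord D'.Γ D'.R (fun x => by
      obtain ⟨γ, hγ, -, hn⟩ := D'.coc 0 x (by rw [D'.W0]; trivial)
      exact ⟨γ, hγ, hn⟩) D'.F D'.per ρ hρ hinj

/-- continuous homomorphisms are linear in exponential coordinates -/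
theorem lin_of_hom {V : Type*} [NormedAddCommGroup V] [NormedSpace ℝ V] [FiniteDimensional ℝ V]
    [Group V] (E : ExpCoord V) (B : NB V) (δ : V ≃ₜ V) (h : ∀ x y, δ (x * y) = δ x * δ y) :
    ∃ A : V ≃ₗ[ℝ] V, ∀ x, A x = δ x := by
  have hs : ∀ (t : ℝ) x, δ (t • x) = t • δ x := by
    intro t x
    have h1 := B.onepar (fun t => δ (t • x)) (δ.continuous.comp
      (continuous_id.smul continuous_const)) (fun s t => by
        show δ ((s + t) • x) = δ (s • x) * δ (t • x)
        rw [← E.line, h]) t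
    simp only [one_smul] at h1
    exact h1
  have ha : ∀ x y, δ (x + y) = δ x + δ y := by
    intro x y
    have h1 := (δ.continuous.tendsto _).comp (E.trotter x y)
    have h2 := E.trotter (δ x) (δ y)
    refine tendsto_nhds_unique h1 (h2.congr fun m => ?_)
    show _ = δ _
    rw [hs, h, hs, hs]
  exact ⟨{ toFun := δ
           map_add' := ha
           map_smul' := hs
           invFun := δ.symm
           left_inv := δ.symm_apply_apply
           right_inv := δ.apply_symm_apply }, fun x => rfl⟩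

/-- **Manifold factors.** -/
theorem cover_thm (E' : Type w) [NormedAddCommGroup E'] [NormedSpace ℝ E']
    [FiniteDimensional ℝ E'] {M : Type v} [TopologicalSpace M] [T2Space M] [CompactSpace M]
    [ChartedSpace E' M] (g : M ≃ₜ M) {V : Type u}
    [NormedAddCommGroup V] [NormedSpace ℝ V] [FiniteDimensional ℝ V] [Group V] (D : NilAut V)
    (F : V → M) (hF : Semi D g F) (hs : Function.Surjective F)
    (hi : ∃ δ > 0, ∀ x v, ‖v‖ < δ → F (x * v) = F x → v = 1) : InfraCover D F := by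
  obtain ⟨B, R, hBT, hcoc⟩ := D.nb
  obtain ⟨hF1, hF2, hF3⟩ := hF
  obtain ⟨δ, hδ, hi⟩ := hi
  have hcoc0 : ∀ x, ∃ γ ∈ D.Γ, ‖γ * x‖ ≤ R := by
    intro x
    obtain ⟨γ, hγ, -, hn⟩ := hcoc 0 x (by rw [B.W0]; trivial)
    exact ⟨γ, hγ, hn⟩
  obtain ⟨hcov, hfib⟩ := Pool.Agent.D0H25.NIL.cov V D.coord.cont D.coord.cinv D.coord.one_eq D.Γ R
    hcoc0 E' M F hF1 hs hF2 δ hδ (fun x v hv h => by
      rw [← D.coord.one_eq]
      exact hi x v hv h)
  refine ⟨hs, hcov, hfib, fun x y hxy => ?_⟩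
  obtain ⟨τ, h1, h2, D', h3⟩ := deck V B D.Γ (fun γ hγ => by rw [hBT]; exact (D.T_Γ γ).2 hγ)
    (fun γ hγ => by
      rw [← D.T_Γ, ← hBT, B.T.apply_symm_apply]
      exact hγ) R hcoc0 M g F hcov hF2 (fun x => by rw [hBT, hF3]) hfib x y hxy
  have hhom := rig Pool.Agent.D0H98.NIL.t_LIN2 leaf cen V D'
  obtain ⟨A, hA⟩ := lin_of_hom D.coord B D'.δ hhom
  have hτ : ∀ w, τ w = τ 1 * A w := by
    intro w
    rw [hA, h3, mul_inv_cancel_left]
  refine ⟨τ 1, A, fun a b => ?_, ?_, fun w => ?_⟩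
  · rw [hA, hA, hA, hhom]
  · rw [← hτ, h1]
  · rw [← hτ, h2]

end Pool.Agent.D0H26.Nil
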