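import Pool.Agent.D0H26.Nil.Ucs

/-!
# Lattices and the centre (Malcev)
-/

set_option autoImplicit false
set_option linter.unusedSectionVars false

open Filter Topology Set Metric

namespace Pool.Agent.D0H26.Nil

open Pool.Agent.D0H26.Fac (HSp subV)

universe u v w

section
variable {V : Type*} [NormedAddCommGroup V] [NormedSpace ℝ V] [FiniteDimensional ℝ V] [Group V]

/-- if the commutators with the powers are bounded then they are trivial -/
theorem NB.bdd_com (D : NB V) (v c : V) (C' : ℝ)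
    (hb : ∀ M : ℕ, ‖v⁻¹ * (c ^ M)⁻¹ * v * c ^ M‖ ≤ C') : v * c = c * v := by
  have step : ∀ l : ℕ, v⁻¹ * c⁻¹ * v * c ∈ D.W l → v⁻¹ * c⁻¹ * v * c ∈ D.W (l + 1) := by
    intro l hl
    obtain ⟨e, he⟩ : ∃ e, e = v⁻¹ * c⁻¹ * v * c := ⟨_, rfl⟩
    have hcl : IsClosed (D.W (l + 1) : Set V) := Submodule.closed_of_finiteDimensional _
    have h3 : Tendsto (fun k : ℕ => ((k : ℝ) + 1)⁻¹ • (((k : ℝ) + 1) • e -
        v⁻¹ * (c ^ (k + 1))⁻¹ * v * c ^ (k + 1))) atTop (𝓝 e) := by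
      have e1 : ∀ k : ℕ, ((k : ℝ) + 1)⁻¹ • (((k : ℝ) + 1) • e -
          v⁻¹ * (c ^ (k + 1))⁻¹ * v * c ^ (k + 1)) = e -
          ((k : ℝ) + 1)⁻¹ • (v⁻¹ * (c ^ (k + 1))⁻¹ * v * c ^ (k + 1)) := by
        intro k
        have : ((k : ℝ) + 1) ≠ 0 := by positivity
        rw [smul_sub, smul_smul, inv_mul_cancel₀ this, one_smul]
      simp_rw [e1]
      have h4 : Tendsto (fun k : ℕ => ((k : ℝ) + 1)⁻¹ •
          (v⁻¹ * (c ^ (k + 1))⁻¹ * v * c ^ (k + 1))) atTop (𝓝 0) := by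
        rw [tendsto_zero_iff_norm_tendsto_zero]
        have h5 : Tendsto (fun k : ℕ => ((k : ℝ) + 1)⁻¹ * C') atTop (𝓝 0) := by
          have := (tendsto_one_div_add_atTop_nhds_zero_nat (𝕜 := ℝ)).mul_const C'
          simpa using this
        refine squeeze_zero (fun k => norm_nonneg _) (fun k => ?_) h5
        have hk : (0 : ℝ) < (k : ℝ) + 1 := by positivity
        rw [norm_smul, norm_inv, Real.norm_of_nonneg hk.le]
        exact mul_le_mul_of_nonneg_left (hb _) (inv_nonneg.2 hk.le)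
      have := (tendsto_const_nhds (x := e)).sub h4
      rwa [sub_zero] at this
    rw [← he]
    refine hcl.mem_of_tendsto h3 (Eventually.of_forall fun k => ?_)
    have h6 := (D.com_pow v c l hl (k + 1)).2
    rw [← he] at h6
    push_cast at h6
    have h7 := (D.W (l + 1)).smul_mem (((k : ℝ) + 1)⁻¹) ((D.W (l + 1)).neg_mem h6)
    rwa [neg_sub] at h7
  have all : ∀ l : ℕ, v⁻¹ * c⁻¹ * v * c ∈ D.W l := by
    intro l
    induction l with
    | zero => rw [D.W0]; trivial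
    | succ l ih => exact step l ih
  have h1 := all D.n
  rw [D.Wn, Submodule.mem_bot, ← D.one_eq] at h1
  have e : v⁻¹ * c⁻¹ * v * c = (c * v)⁻¹ * (v * c) := by group
  rw [e, inv_mul_eq_one] at h1
  exact h1.symm

/-- elements commuting with a cocompact subgroup are central -/
theorem NB.cen_of (D : NB V) (Γ : Subgroup V) (R : ℝ) (coc : ∀ x, ∃ γ ∈ Γ, ‖γ * x‖ ≤ R) (e : V)
    (he : ∀ γ ∈ Γ, e * γ = γ * e) : e ∈ D.cen := by
  have hpr : ProperSpace V := FiniteDimensional.proper ℝ V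
  intro x
  have hc : Continuous fun b : V => e⁻¹ * b⁻¹ * e * b := by
    have c1 : Continuous fun b : V => e⁻¹ * b⁻¹ := D.cmul.comp (continuous_const.prodMk D.cinv)
    have c2 : Continuous fun b : V => e⁻¹ * b⁻¹ * e := D.cmul.comp (c1.prodMk continuous_const)
    exact D.cmul.comp (c2.prodMk continuous_id)
  obtain ⟨C, hC⟩ := (isCompact_closedBall (0 : V) R).exists_bound_of_continuousOn
    hc.continuousOn
  refine (D.bdd_com e x C fun M => ?_).symm
  obtain ⟨γ, hγ, hn⟩ := coc (x ^ M)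
  obtain ⟨b, hb⟩ : ∃ b, b = γ * x ^ M := ⟨_, rfl⟩
  have hx : x ^ M = γ⁻¹ * b := by rw [hb, inv_mul_cancel_left]
  have h1 : e⁻¹ * (x ^ M)⁻¹ * e * x ^ M = e⁻¹ * b⁻¹ * e * b := by
    rw [hx]
    have h2 := he γ hγ
    calc e⁻¹ * (γ⁻¹ * b)⁻¹ * e * (γ⁻¹ * b) = e⁻¹ * b⁻¹ * (γ * e) * γ⁻¹ * b := by group
      _ = e⁻¹ * b⁻¹ * e * b := by rw [← h2]; group
  rw [h1]
  rw [← hb] at hn
  exact hC b (mem_closedBall_zero_iff.2 hn)

/-- the centralizer is a subspace -/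
theorem ExpCoord.fix (E : ExpCoord V) (e : V) :
    ∃ K : Submodule ℝ V, ∀ x, x ∈ K ↔ e * x = x * e := by
  obtain ⟨A, hA⟩ := E.conj e
  refine ⟨LinearMap.ker (A - LinearMap.id), fun x => ?_⟩
  rw [LinearMap.mem_ker, LinearMap.sub_apply, hA, sub_eq_zero]
  show e * x * e⁻¹ = x ↔ _
  rw [mul_inv_eq_iff_eq_mul]

/-- a finite set detecting central elements -/
theorem exists_detect (D : NB V) (E : ExpCoord V) (Γ : Subgroup V) (R : ℝ)
    (coc : ∀ x, ∃ γ ∈ Γ, ‖γ * x‖ ≤ R) : ∃ S : Finset V, (∀ s ∈ S, s ∈ Γ) ∧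
      ∀ e : V, (∀ s ∈ S, e * s = s * e) → e ∈ D.cen := by
  obtain ⟨S, hS, hspan⟩ := (Submodule.fg_span_iff_fg_span_finset_subset (R := ℝ)
    (Γ : Set V)).1 (IsNoetherian.noetherian _)
  refine ⟨S, fun s hs => hS hs, fun e he => D.cen_of Γ R coc e fun γ hγ => ?_⟩
  obtain ⟨K, hK⟩ := E.fix e
  have h1 : Submodule.span ℝ (S : Set V) ≤ K := by
    rw [Submodule.span_le]
    intro s hs
    exact (hK s).2 (he s hs)
  have h2 : γ ∈ Submodule.span ℝ (S : Set V) := by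
    rw [← hspan]
    exact Submodule.subset_span hγ
  exact (hK γ).1 (h1 h2)

/-- balls contain finitely many elements of a discrete subgroup -/
theorem finite_ball (E : ExpCoord V) (Γ : Subgroup V) (disc : ∃ r > 0, ∀ γ ∈ Γ, ‖γ‖ < r → γ = 1)
    (R : ℝ) : {γ : V | γ ∈ Γ ∧ ‖γ‖ ≤ R}.Finite := by
  have hpr : ProperSpace V := FiniteDimensional.proper ℝ V
  obtain ⟨r, hr, hd⟩ := disc
  have hc : Continuous fun p : V × V => p.1⁻¹ * p.2 :=
    E.cont.comp ((E.cinv.comp continuous_fst).prodMk continuous_snd)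
  have hu := ((isCompact_closedBall (0 : V) R).prod
    (isCompact_closedBall (0 : V) R)).uniformContinuousOn_of_continuous hc.continuousOn
  rw [Metric.uniformContinuousOn_iff] at hu
  obtain ⟨η, hη, h⟩ := hu r hr
  obtain ⟨t, -, htf, htc⟩ := (isCompact_closedBall (0 : V) R).finite_cover_balls (half_pos hη)
  refine (htf.biUnion (t := fun c => {γ : V | γ ∈ Γ ∧ ‖γ‖ ≤ R} ∩ ball c (η / 2))
    fun c _ => ?_).subset ?_
  · apply Set.Subsingleton.finite
    rintro a ⟨⟨ha, ha'⟩, hac⟩ b ⟨⟨hb, hb'⟩, hbc⟩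
    have hab : dist a b < η := by
      rw [mem_ball] at hac hbc
      have := dist_triangle_right a b c
      linarith
    have h1 := h (a, b) ⟨mem_closedBall_zero_iff.2 ha', mem_closedBall_zero_iff.2 hb'⟩ (a, a)
      ⟨mem_closedBall_zero_iff.2 ha', mem_closedBall_zero_iff.2 ha'⟩ (by
        rw [Prod.dist_eq, dist_self, dist_comm]
        exact max_lt hη hab)
    simp only [inv_mul_cancel] at h1
    rw [E.one_eq, dist_zero_right] at h1
    have h2 := hd _ (Γ.mul_mem (Γ.inv_mem ha) hb) h1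
    rw [inv_mul_eq_one] at h2
    exact h2
  · intro γ hγ
    obtain ⟨c, hct, hcb⟩ := mem_iUnion₂.1 (htc (mem_closedBall_zero_iff.2 hγ.2))
    exact mem_biUnion hct ⟨hγ, hcb⟩

/-- **Malcev**: a lattice meets the centre in a lattice -/
theorem cen_coc (D : NB V) (E : ExpCoord V) (Γ : Subgroup V)
    (disc : ∃ r > 0, ∀ γ ∈ Γ, ‖γ‖ < r → γ = 1) (R : ℝ) (coc : ∀ x, ∃ γ ∈ Γ, ‖γ * x‖ ≤ R) :
    ∃ R' : ℝ, ∀ z ∈ D.cen, ∃ γ ∈ Γ, γ ∈ D.cen ∧ ‖γ * z‖ ≤ R' := by
  classical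
  have hpr : ProperSpace V := FiniteDimensional.proper ℝ V
  obtain ⟨S, hSΓ, hS⟩ := exists_detect D E Γ R coc
  choose γ hγ hn using coc
  -- bounds for the commutators
  have hbd : ∀ s : V, ∃ C : ℝ, ∀ b : V, ‖b‖ ≤ R → ‖b * s * b⁻¹ * s⁻¹‖ ≤ C := by
    intro s
    have hc : Continuous fun b : V => b * s * b⁻¹ * s⁻¹ := by
      have c1 : Continuous fun b : V => b * s := D.cmul.comp (continuous_id.prodMk continuous_const)
      have c2 : Continuous fun b : V => b * s * b⁻¹ := D.cmul.comp (c1.prodMk D.cinv)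
      exact D.cmul.comp (c2.prodMk continuous_const)
    obtain ⟨C, hC⟩ := (isCompact_closedBall (0 : V) R).exists_bound_of_continuousOn
      hc.continuousOn
    exact ⟨C, fun b hb => hC b (mem_closedBall_zero_iff.2 hb)⟩
  choose C hC using hbd
  obtain ⟨R₂, hR₂⟩ : ∃ R₂, R₂ = ∑ s ∈ S, |C s| := ⟨_, rfl⟩
  obtain ⟨Φ, hΦ⟩ : ∃ Φ, Φ = {γ : V | γ ∈ Γ ∧ ‖γ‖ ≤ R₂} := ⟨_, rfl⟩
  have hΦf : Φ.Finite := by rw [hΦ]; exact finite_ball E Γ disc R₂
  -- the classes
  let κ : V → (S → V) := fun z s => γ z * s * (γ z)⁻¹ * (s : V)⁻¹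
  have hκ : ∀ z ∈ D.cen, κ z ∈ Set.pi univ (fun _ : S => Φ) := by
    intro z hz s _
    rw [hΦ]
    refine ⟨Γ.mul_mem (Γ.mul_mem (Γ.mul_mem (hγ z) (hSΓ s s.2)) (Γ.inv_mem (hγ z)))
      (Γ.inv_mem (hSΓ s s.2)), ?_⟩
    have e : κ z s = (γ z * z) * s * (γ z * z)⁻¹ * (s : V)⁻¹ := by
      show γ z * s * (γ z)⁻¹ * (s : V)⁻¹ = _
      have h1 := hz (s : V)
      calc γ z * s * (γ z)⁻¹ * (s : V)⁻¹ = γ z * (s * z) * z⁻¹ * (γ z)⁻¹ * (s : V)⁻¹ := by group
        _ = (γ z * z) * s * (γ z * z)⁻¹ * (s : V)⁻¹ := by rw [h1]; group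
    rw [e]
    refine (hC s _ (hn z)).trans ((le_abs_self _).trans ?_)
    rw [hR₂]
    exact Finset.single_le_sum (f := fun t => |C t|) (fun i _ => abs_nonneg _) s.2
  have hfin : (Set.pi univ (fun _ : S => Φ)).Finite := Set.Finite.pi fun _ => hΦf
  have hrep : ∀ k : S → V, ∃ z : V, (∃ z' ∈ D.cen, κ z' = k) → z ∈ D.cen ∧ κ z = k := by
    intro k
    by_cases h : ∃ z' ∈ D.cen, κ z' = k
    · obtain ⟨z', hz', h⟩ := h
      exact ⟨z', fun _ => ⟨hz', h⟩⟩
    · exact ⟨1, fun h' => absurd h' h⟩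
  choose rep hrep using hrep
  have hbd2 : ∀ k : S → V, ∃ C : ℝ, ∀ b : V, ‖b‖ ≤ R → ‖(γ (rep k))⁻¹ * b‖ ≤ C := by
    intro k
    have hc : Continuous fun b : V => (γ (rep k))⁻¹ * b :=
      D.cmul.comp (continuous_const.prodMk continuous_id)
    obtain ⟨C, hC⟩ := (isCompact_closedBall (0 : V) R).exists_bound_of_continuousOn
      hc.continuousOn
    exact ⟨C, fun b hb => hC b (mem_closedBall_zero_iff.2 hb)⟩
  choose C' hC' using hbd2
  refine ⟨∑ k ∈ hfin.toFinset, |C' k|, fun z hz => ?_⟩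
  obtain ⟨hz0, hk⟩ := hrep (κ z) ⟨z, hz, rfl⟩
  obtain ⟨z0, hz0def⟩ : ∃ z0, z0 = rep (κ z) := ⟨_, rfl⟩
  rw [← hz0def] at hz0 hk
  refine ⟨(γ z0)⁻¹ * γ z, Γ.mul_mem (Γ.inv_mem (hγ _)) (hγ _), hS _ fun s hs => ?_, ?_⟩
  · have h1 : κ z0 ⟨s, hs⟩ = κ z ⟨s, hs⟩ := by rw [hk]
    have h2 : γ z0 * s * (γ z0)⁻¹ * s⁻¹ = γ z * s * (γ z)⁻¹ * s⁻¹ := h1
    have h3 : γ z0 * s * (γ z0)⁻¹ = γ z * s * (γ z)⁻¹ := mul_right_cancel h2
    calc (γ z0)⁻¹ * γ z * s = (γ z0)⁻¹ * (γ z * s * (γ z)⁻¹) * γ z := by group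
      _ = s * ((γ z0)⁻¹ * γ z) := by rw [← h3]; group
  · rw [mul_assoc]
    have h1 := hC' (κ z) _ (hn z)
    rw [← hz0def] at h1
    refine h1.trans ((le_abs_self _).trans ?_)
    exact Finset.single_le_sum (f := fun t => |C' t|) (fun i _ => abs_nonneg _)
      (hfin.mem_toFinset.2 (hκ z hz))

/-- the image of a lattice modulo the centre is discrete -/
theorem disc_image {D : NB V} (E : ExpCoord V) {V' : Type*} [NormedAddCommGroup V']
    [NormedSpace ℝ V'] [FiniteDimensional ℝ V'] [Group V'] (Q : QM D V') (hQ : Q.K = D.cen)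
    (Γ : Subgroup V) (disc : ∃ r > 0, ∀ γ ∈ Γ, ‖γ‖ < r → γ = 1) (R : ℝ)
    (hR : ∀ z ∈ D.cen, ∃ γ ∈ Γ, γ ∈ D.cen ∧ ‖γ * z‖ ≤ R) :
    ∃ r > 0, ∀ γ ∈ Γ.map Q.hom, ‖γ‖ < r → γ = 1 := by
  have hpr : ProperSpace V := FiniteDimensional.proper ℝ V
  have hpr' : ProperSpace V' := FiniteDimensional.proper ℝ V'
  have hq1 : (1 : V') = 0 := by rw [← Q.q_one, D.one_eq, map_zero]
  have hc : Continuous fun p : V' × V => Q.ι p.1 * p.2 :=
    D.cmul.comp ((Q.cι.comp continuous_fst).prodMk continuous_snd)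
  obtain ⟨R₂, hR₂⟩ := ((isCompact_closedBall (0 : V') 1).prod
    (isCompact_closedBall (0 : V) R)).exists_bound_of_continuousOn hc.continuousOn
  have hfin := finite_ball E Γ disc R₂
  have hfin' : ({γ : V | γ ∈ Γ ∧ ‖γ‖ ≤ R₂} ∩ {γ | Q.q γ ≠ 0}).Finite :=
    hfin.subset inter_subset_left
  obtain ⟨r, hr, hr1⟩ : ∃ r > 0, ∀ γ ∈ ({γ : V | γ ∈ Γ ∧ ‖γ‖ ≤ R₂} ∩ {γ | Q.q γ ≠ 0}),
      r ≤ ‖Q.q γ‖ := by
    rcases ({γ : V | γ ∈ Γ ∧ ‖γ‖ ≤ R₂} ∩ {γ | Q.q γ ≠ 0}).eq_empty_or_nonempty with h | h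
    · refine ⟨1, one_pos, fun γ hγ => ?_⟩
      rw [h] at hγ
      exact absurd hγ (Set.notMem_empty _)
    · obtain ⟨γ₀, h0, hmin⟩ := Set.exists_min_image _ (fun γ => ‖Q.q γ‖) hfin' h
      exact ⟨‖Q.q γ₀‖, norm_pos_iff.2 h0.2, hmin⟩
  refine ⟨min r 1, lt_min hr one_pos, ?_⟩
  rintro _ ⟨γ, hγ, rfl⟩ hn
  have hn' : ‖Q.q γ‖ < min r 1 := hn
  show Q.q γ = 1
  rw [hq1]
  by_contra hne
  have hk : γ - Q.ι (Q.q γ) ∈ D.cen := by
    rw [← hQ]
    exact Q.mem γ
  obtain ⟨k, hkd⟩ : ∃ k, k = γ - Q.ι (Q.q γ) := ⟨_, rfl⟩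
  rw [← hkd] at hk
  have hγk : γ = Q.ι (Q.q γ) * k := by
    rw [(D.cen_add k hk _).1, hkd]
    abel
  obtain ⟨l, hl, hlc, hln⟩ := hR k hk
  have h1 : l * γ = Q.ι (Q.q γ) * (l * k) := by
    have := hlc (Q.ι (Q.q γ))
    conv_lhs => rw [hγk]
    rw [← mul_assoc, ← this, mul_assoc]
  have h2 : ‖l * γ‖ ≤ R₂ := by
    rw [h1]
    exact hR₂ (Q.q γ, l * k) ⟨mem_closedBall_zero_iff.2 (hn'.le.trans (min_le_right _ _)),
      mem_closedBall_zero_iff.2 hln⟩
  have h3 : Q.q (l * γ) = Q.q γ := by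
    rw [Q.mul, Q.kK l (by rw [hQ]; exact hlc), ← hq1, one_mul]
  have h4 := hr1 (l * γ) ⟨⟨Γ.mul_mem hl hγ, h2⟩, by rw [mem_setOf_eq, h3]; exact hne⟩
  rw [h3] at h4
  exact absurd (h4.trans_lt (hn'.trans_le (min_le_left _ _))) (lt_irrefl _)

end

/-- quotients exist -/
theorem exists_QM {V : Type u} [NormedAddCommGroup V] [NormedSpace ℝ V] [FiniteDimensional ℝ V]
    [Group V] (D : NB V) (K : Submodule ℝ V)
    (hK : ∀ k ∈ K, ∀ x, x * k = x + k ∧ k * x = x + k) (hKT : ∀ k ∈ K, D.T k ∈ K) :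
    ∃ (V' : Type u) (_ : NormedAddCommGroup V') (_ : NormedSpace ℝ V')
      (_ : FiniteDimensional ℝ V') (_ : Group V') (Q : QM D V'), Q.K = K ∧
      Module.finrank ℝ V' + Module.finrank ℝ K = Module.finrank ℝ V := by
  obtain ⟨U, hU⟩ := K.exists_isCompl
  have hU' : IsCompl U K := hU.symm
  have hL2 := Pool.Agent.D0H98.NIL.t_LIN2.{u}
  letI : Group U := qGroup D K U hU' hK
  let Q : QM D U :=
    { K := K
      q := U.projectionOnto K hU'
      ι := U.subtype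
      qι := fun x => Submodule.projectionOnto_apply_left hU' x
      nι := fun x => le_rfl
      mul := proj_mul K U hU' hK
      mem := fun v => Submodule.sub_projection_mem hU' v
      kK := fun k hk => (Submodule.projectionOnto_apply_eq_zero_iff hU').2 hk
      KT := hKT
      Ks := fun k hk => (hL2 V D.T D.H K hKT k hk).1
      Ku := fun k hk => (hL2 V D.T D.H K hKT k hk).2.1
      KT' := fun k hk => (hL2 V D.T D.H K hKT k hk).2.2
      Kc := fun k hk x => (hK k hk x).1 }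
  exact ⟨U, inferInstance, inferInstance, inferInstance, this, Q, rfl,
    Submodule.finrank_add_eq_of_isCompl hU'⟩

/-- exponential coordinates of a quotient -/
theorem ExpCoord.push {V : Type*} [NormedAddCommGroup V] [NormedSpace ℝ V]
    [FiniteDimensional ℝ V] [Group V] (E : ExpCoord V) {V' : Type*} [NormedAddCommGroup V']
    [NormedSpace ℝ V'] [FiniteDimensional ℝ V'] [Group V'] (B' : NB V') (p : V →ₗ[ℝ] V')
    (hs : Function.Surjective p) (hm : ∀ x y, p (x * y) = p x * p y) : ExpCoord V' where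
  cont := B'.cmul
  line := B'.line
  trotter := by
    intro x' y'
    obtain ⟨x, rfl⟩ := hs x'
    obtain ⟨y, rfl⟩ := hs y'
    have hcp : Continuous p := LinearMap.continuous_of_finiteDimensional _
    have h1 := (hcp.tendsto _).comp (E.trotter x y)
    rw [map_add] at h1
    refine h1.congr fun k => ?_
    show p _ = _
    rw [map_smul, hm, map_smul, map_smul]

/-- **Malcev**: a lattice is compatible with an invariant central series -/
theorem malcev (m : ℕ) : ∀ (V : Type u) [NormedAddCommGroup V] [NormedSpace ℝ V]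
    [FiniteDimensional ℝ V] [Group V] (D : NB V) (_ : ExpCoord V) (Γ : Subgroup V)
    (_ : ∃ r > 0, ∀ γ ∈ Γ, ‖γ‖ < r → γ = 1) (R : ℝ) (_ : ∀ x, ∃ γ ∈ Γ, ‖γ * x‖ ≤ R),
    Module.finrank ℝ V = m → ∃ (n : ℕ) (U : ℕ → Submodule ℝ V) (R' : ℝ), U 0 = ⊤ ∧ U n = ⊥ ∧
      ∀ i, U (i + 1) ≤ U i ∧ (∀ x, ∀ y ∈ U i, x⁻¹ * y⁻¹ * x * y ∈ U (i + 1)) ∧
        (∀ x ∈ U i, D.T x ∈ U i) ∧ ∀ x ∈ U i, ∃ γ ∈ Γ, γ ∈ U i ∧ ‖γ * x‖ ≤ R' := by
  induction m using Nat.strong_induction_on with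
  | _ m ih =>
    intro V _ _ _ _ D E Γ disc R coc hm
    have hpr : ProperSpace V := FiniteDimensional.proper ℝ V
    by_cases hbot : D.cen = ⊥
    · refine ⟨0, fun _ => ⊤, R, rfl, ?_, fun i => ⟨le_rfl, fun _ _ _ => trivial,
        fun _ _ => trivial, fun x _ => ?_⟩⟩
      · rw [eq_bot_iff]
        intro x _
        rw [Submodule.mem_bot]
        exact D.cen_ne hbot x
      · obtain ⟨γ, hγ, hn⟩ := coc x
        exact ⟨γ, hγ, trivial, hn⟩
    obtain ⟨Rz, hRz⟩ := cen_coc D E Γ disc R coc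
    obtain ⟨V', _, _, _, _, Q, hQ, hfr⟩ := exists_QM D D.cen D.cen_add D.cen_T
    have h4 : 1 ≤ Module.finrank ℝ D.cen := by
      rw [Submodule.one_le_finrank_iff]
      exact hbot
    have hpr' : ProperSpace V' := FiniteDimensional.proper ℝ V'
    have E' : ExpCoord V' := E.push Q.nb Q.q (fun x => ⟨Q.ι x, Q.qι x⟩) Q.mul
    have hq1 : (1 : V') = 0 := by rw [← Q.q_one, D.one_eq, map_zero]
    obtain ⟨n, U, R', hU0, hUn, hU⟩ := ih _ (by omega) V' Q.nb E' (Γ.map Q.hom)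
      (disc_image E Q hQ Γ disc Rz hRz) (‖LinearMap.toContinuousLinearMap Q.q‖ * R) (by
        intro x
        obtain ⟨γ, hγ, hn⟩ := coc (Q.ι x)
        refine ⟨Q.q γ, ⟨γ, hγ, rfl⟩, ?_⟩
        have e : Q.q γ * x = Q.q (γ * Q.ι x) := by rw [Q.mul, Q.qι]
        rw [e]
        exact (Q.nq _).trans (mul_le_mul_of_nonneg_left hn (norm_nonneg _))) rfl
    -- a bound for the lifts
    have hc : Continuous fun p : V' × V => Q.ι p.1 * p.2 :=
      D.cmul.comp ((Q.cι.comp continuous_fst).prodMk continuous_snd)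
    obtain ⟨R₂, hR₂⟩ := ((isCompact_closedBall (0 : V') R').prod
      (isCompact_closedBall (0 : V) Rz)).exists_bound_of_continuousOn hc.continuousOn
    have hker : ∀ x, x ∈ (⊥ : Submodule ℝ V').comap Q.q ↔ x ∈ D.cen := by
      intro x
      rw [Submodule.mem_comap, Submodule.mem_bot, ← hQ]
      constructor
      · intro h
        have := Q.mem x
        rwa [h, map_zero, sub_zero] at this
      · exact Q.kK x
    refine ⟨n + 1, fun i => if i ≤ n then (U i).comap Q.q else ⊥, max R₂ 0, ?_, ?_, fun i => ?_⟩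
    · simp only [Nat.zero_le, if_true, hU0, Submodule.comap_top]
    · have : ¬ (n + 1 ≤ n) := by omega
      simp only [this, if_false]
    · obtain ⟨u1, u2, u3, u4⟩ := hU i
      have hcase : i < n ∨ i = n ∨ n < i := by omega
      have hlift : i ≤ n → ∀ x ∈ (U i).comap Q.q, ∃ γ ∈ Γ, γ ∈ (U i).comap Q.q ∧
          ‖γ * x‖ ≤ max R₂ 0 := by
        intro _ x hx
        obtain ⟨_, ⟨γ, hγ, rfl⟩, hγU, hn⟩ := u4 (Q.q x) hx
        have hn' : ‖Q.q (γ * x)‖ ≤ R' := by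
          rw [Q.mul]
          exact hn
        obtain ⟨k, hk, hkx⟩ : ∃ k ∈ D.cen, γ * x = Q.ι (Q.q (γ * x)) * k := by
          have h1 := Q.mem (γ * x)
          refine ⟨γ * x - Q.ι (Q.q (γ * x)), by rwa [hQ] at h1, ?_⟩
          rw [Q.Kc _ h1]
          abel
        obtain ⟨l, hl, hlc, hln⟩ := hRz k hk
        refine ⟨l * γ, Γ.mul_mem hl hγ, ?_, ?_⟩
        · rw [Submodule.mem_comap, Q.mul, Q.kK l (by rw [hQ]; exact hlc), ← hq1, one_mul]
          exact hγU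
        · have h1 : l * γ * x = Q.ι (Q.q (γ * x)) * (l * k) := by
            have := hlc (Q.ι (Q.q (γ * x)))
            rw [mul_assoc, hkx, Q.mul (Q.ι (Q.q (γ * x))) k, Q.qι,
              Q.kK k (by rw [hQ]; exact hk), ← hq1, mul_one, ← mul_assoc, ← this, mul_assoc]
          rw [h1]
          exact (hR₂ (Q.q (γ * x), l * k) ⟨mem_closedBall_zero_iff.2 hn',
            mem_closedBall_zero_iff.2 hln⟩).trans (le_max_left _ _)
      rcases hcase with h | h | h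
      · have h1 : i ≤ n := h.le
        have h2 : i + 1 ≤ n := h
        simp only [h1, h2, if_true]
        refine ⟨Submodule.comap_mono u1, fun x y hy => ?_, fun x hx => ?_, hlift h1⟩
        · rw [Submodule.mem_comap, Q.mul, Q.mul, Q.mul, Q.q_inv, Q.q_inv]
          exact u2 _ _ hy
        · rw [Submodule.mem_comap, Q.qT]
          exact u3 _ hx
      · subst h
        have h2 : ¬ (i + 1 ≤ i) := by omega
        simp only [le_refl, h2, if_true, if_false]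
        refine ⟨bot_le, fun x y hy => ?_, fun x hx => ?_, hlift le_rfl⟩
        · rw [hUn, hker] at hy
          rw [Submodule.mem_bot, ← D.one_eq]
          have e : x⁻¹ * y⁻¹ * x * y = (y * x)⁻¹ * (x * y) := by group
          rw [e, hy x, inv_mul_cancel]
        · rw [Submodule.mem_comap, Q.qT]
          exact u3 _ hx
      · have h1 : ¬ (i ≤ n) := by omega
        have h2 : ¬ (i + 1 ≤ n) := by omega
        simp only [h1, h2, if_false]
        refine ⟨le_rfl, fun x y hy => ?_, fun x hx => ?_, fun x hx => ?_⟩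
        · rw [Submodule.mem_bot, ← D.one_eq] at hy
          rw [hy, inv_one, mul_one, mul_one, inv_mul_cancel, D.one_eq]
          exact Submodule.zero_mem _
        · rw [Submodule.mem_bot] at hx
          rw [hx, map_zero]
          exact Submodule.zero_mem _
        · rw [Submodule.mem_bot, ← D.one_eq] at hx
          refine ⟨1, Γ.one_mem, ?_, ?_⟩
          · rw [D.one_eq]
            exact Submodule.zero_mem _
          · rw [hx, mul_one, D.one_eq, norm_zero]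
            exact le_max_right _ _

end Pool.Agent.D0H26.Nil
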