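import Pool.Agent.D0H26.Nil.Defs

/-!
# Statements of the independent modules (with proofs in words)
-/

set_option autoImplicit false

open Filter Topology Set Metric

namespace Pool.Agent.D0H26.Nil

open Pool.Agent.D0H26.Fac (HSp subV)

universe u v w

/-- **LIN1.** A vector that is contracted by `Tⁿ` and by `T⁻ⁿ` is zero.
Proof: the set `G` of the `v` with `Tⁿ v → 0` and `T⁻ⁿ v → 0` is a subspace, invariant under `T` and
`T⁻¹`.  On the finite dimensional `G` pointwise convergence is convergence in norm: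
`‖Tⁿ|_G‖ → 0` and `‖T⁻ⁿ|_G‖ → 0`; but `‖v‖ = ‖Tⁿ T⁻ⁿ v‖ ≤ ‖Tⁿ|_G‖ ‖T⁻ⁿ|_G‖ ‖v‖`.  (Or: take a basis
of `G`, so that `‖Tⁿ w‖ ≤ aₙ ‖w‖` on `G` with `aₙ → 0`.) -/
def S_LIN1 : Prop :=
  ∀ (V : Type u) [NormedAddCommGroup V] [NormedSpace ℝ V] [FiniteDimensional ℝ V]
    (T : V ≃ₗ[ℝ] V) (v : V), Tendsto (fun n : ℕ => T^[n] v) atTop (𝓝 0) →
    Tendsto (fun n : ℕ => T.symm^[n] v) atTop (𝓝 0) → v = 0

/-- **LIN2.** The projections of a hyperbolic splitting preserve the invariant subspaces.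
Proof: `T K = K` by dimension.  Choose a complement `U` of `K` and let `q : V → U` be the projection
along `K`; `T' = q ∘ T` is an automorphism of `U` with `q ∘ T = T' ∘ q`, so `q ∘ Tⁿ = T'ⁿ ∘ q`,
`q ∘ T⁻ⁿ = T'⁻ⁿ ∘ q`.  For `v ∈ K` let `z = q (s v) = - q (u v)`.  Then `T'ⁿ z = q (Tⁿ s v) → 0` and
`T'⁻ⁿ z = - q (T⁻ⁿ u v) → 0`, hence `z = 0` by LIN1. -/
def S_LIN2 : Prop :=
  ∀ (V : Type u) [NormedAddCommGroup V] [NormedSpace ℝ V] [FiniteDimensional ℝ V]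
    (T : V ≃ₗ[ℝ] V) (H : HSp T) (K : Submodule ℝ V), (∀ x ∈ K, T x ∈ K) →
    ∀ x ∈ K, H.s x ∈ K ∧ H.u x ∈ K ∧ T.symm x ∈ K

/-- **LIN3.** A subgroup that spans a subspace is cocompact in it.
Proof: choose a basis of `K` in `Λ` (`Submodule.exists_basis...`/`exists_linearIndependent`), write
`z = ∑ cᵢ bᵢ` and take `γ = ∑ ⌊cᵢ⌋ bᵢ`; `R = ∑ ‖bᵢ‖`. -/
def S_LIN3 : Prop :=
  ∀ (V : Type u) [NormedAddCommGroup V] [NormedSpace ℝ V] [FiniteDimensional ℝ V]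
    (K : Submodule ℝ V) (Λ : AddSubgroup V), (∀ x ∈ Λ, x ∈ K) →
    K ≤ Submodule.span ℝ (Λ : Set V) → ∃ R : ℝ, ∀ z ∈ K, ∃ γ ∈ Λ, ‖z - γ‖ ≤ R

/-- **LIN4.** Let `B` be a closed additive subgroup of `V` and `subV B` the largest subspace in it
(`Pool.Agent.D0H26.Fac.subV`).  (1) Small elements of `B` lie in `subV B`.  (2) If `T B ⊆ B` and
`Tⁿ a → 0`, `a ∈ B`, then `a ∈ subV B`.
Proof: (1) as in the proof of `exists_proj` in `Pool.Agent.D0H26.Fac.Red`: let `U` be a complement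
of `subV B` and `q` the projection to `U` along `subV B`.  `B ∩ U` is a closed subgroup of `U` without
lines, hence `B ∩ U ∩ ball = 0` by `discrete_of_closed`; and `q b ∈ B ∩ U` for `b ∈ B`, with
`‖q b‖ ≤ C ‖b‖`.  (2) `Tⁿ a ∈ B` is small for large `n`, so `Tⁿ a ∈ subV B` by (1); `T` maps `subV B`
into itself, and onto itself by dimension, so `a ∈ subV B`. -/
def S_LIN4 : Prop :=
  ∀ (V : Type u) [NormedAddCommGroup V] [NormedSpace ℝ V] [FiniteDimensional ℝ V]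
    (B : AddSubgroup V), IsClosed (B : Set V) →
    (∃ δ > 0, ∀ b ∈ B, ‖b‖ < δ → b ∈ subV B) ∧
    ∀ T : V ≃ₗ[ℝ] V, (∀ b ∈ B, T b ∈ B) → ∀ a ∈ B,
      Tendsto (fun n : ℕ => T^[n] a) atTop (𝓝 0) → a ∈ subV B

/-- **SPLIT.** The product decomposition `N = Nˢ Nᵘ`.  `Eˢ = {v | u v = 0}`, `Eᵘ = {v | s v = 0}`.
Proof: recursion.  For `w ∈ W i` put `a = s w`, `b = u w` (they lie in `W i` by LIN2), then
`w' = a⁻¹ * w * b⁻¹` lies in `W (i + 1)`, since modulo `W (i + 1)` the product on `W i` is the sum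
(`NB.W_add`, `NB.inv_eq`) and `-a + w - b = 0`.  Starting with `w₀ = x` and `p₀ = q₀ = 1` put
`p_(i+1) = p_i * s w_i`, `q_(i+1) = u w_i * q_i`, `w_(i+1) = (s w_i)⁻¹ * w_i * (u w_i)⁻¹`.  Then
`x = p_i * w_i * q_i`, all are continuous functions of `x`, and `w_n = 0 = 1` as `W n = ⊥`.  `p_n ∈ Eˢ`
as `Eˢ` is closed under products: `v ∈ Eˢ` if and only if `Tⁿ v → 0` (`‖Tⁿ v‖ ≤ C lⁿ ‖v‖` if `v = s v`;
conversely `u v = T⁻ⁿ (u (Tⁿ v))`, so `‖u v‖ ≤ C lⁿ ‖Tⁿ v‖ → 0`), `Tⁿ (v * w) = Tⁿ v * Tⁿ w`, and the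
product is continuous at `(0, 0)`, `0 * 0 = 0`.  If `x ∈ W j` all the factors stay in `W j`
(`NB.W_mul`). -/
def S_SPLIT : Prop :=
  ∀ (V : Type u) [NormedAddCommGroup V] [NormedSpace ℝ V] [FiniteDimensional ℝ V] [Group V]
    (D : NB V),
    (∀ x y, D.H.u x = 0 → D.H.u y = 0 → D.H.u (x * y) = 0) ∧
    (∀ x y, D.H.s x = 0 → D.H.s y = 0 → D.H.s (x * y) = 0) ∧
    ∃ ps pu : V → V, Continuous ps ∧ Continuous pu ∧
      (∀ x, D.H.u (ps x) = 0 ∧ D.H.s (pu x) = 0 ∧ ps x * pu x = x) ∧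
      ∀ i, ∀ x ∈ D.W i, ps x ∈ D.W i ∧ pu x ∈ D.W i

/-- **COV.** Covering criterion.  `Q` is continuous, onto, left invariant under a cocompact
subgroup `Γ` and injective on small right translates.
Proof: adapt `Pool.Agent.D0H26.Fac.Cov` (there `V = ℝᵏ` with `Γ = ℤᵏ` acting by translations):
(a) `dim M' ≤ dim V` by Baire, (b) `Q` is open by invariance of domain
(`Pool.Agent.TH553.K289.image_nhds`), since `Q` is injective near every point: if `Q x = Q y`, `x`, `y`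
near `x₀`, then `v = x⁻¹ * y` is small, `y = x * v`, so `v = 0 = 1`; (c) for `a ∈ M'` the fibre `F = Q⁻¹ a` is
closed, `F ∩ closedBall 0 R` is finite (it is compact and discrete), every point of `F` is
`γ⁻¹ * s` with `s` in it.  Use the neighbourhoods `x * B`, `B = {v | ‖v‖ < r}` with `r` so small that
`Q` is injective on `x * B` for ALL `x` (`‖v⁻¹ * w‖ < δ` for `v, w ∈ B`) and the sets `x * B`, `x ∈ F`, are
disjoint; `V₀ = (Q '' (closedBall 0 R \ ⋃_{x ∈ F} x * B))ᶜ ∩ ⋂_{s ∈ F ∩ closedBall 0 R} Q '' (s * B)`. -/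
def S_COV : Prop :=
  ∀ (V : Type u) [NormedAddCommGroup V] [NormedSpace ℝ V] [FiniteDimensional ℝ V] [Group V]
    (_ : Continuous fun p : V × V => p.1 * p.2) (_ : Continuous fun x : V => x⁻¹)
    (_ : (1 : V) = 0)
    (Γ : Subgroup V) (R : ℝ) (_ : ∀ x, ∃ γ ∈ Γ, ‖γ * x‖ ≤ R)
    (E' : Type v) [NormedAddCommGroup E'] [NormedSpace ℝ E'] [FiniteDimensional ℝ E']
    (M' : Type w) [TopologicalSpace M'] [T2Space M'] [CompactSpace M'] [ChartedSpace E' M']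
    (Q : V → M') (_ : Continuous Q) (_ : Function.Surjective Q)
    (_ : ∀ γ ∈ Γ, ∀ x, Q (γ * x) = Q x) (δ : ℝ) (_ : 0 < δ)
    (_ : ∀ x v, ‖v‖ < δ → Q (x * v) = Q x → v = 0),
    IsCoveringMap Q ∧ ∀ a, ∃ S : Finset V, ∀ x, Q x = a → ∃ s ∈ S, ∃ γ ∈ Γ, x = γ * s

end Pool.Agent.D0H26.Nil
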