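import Pool.Agent.D0H26.Nil.Cent
import Pool.Agent.D0H26.Nil.Stm

/-!
# The quotient by a central ideal of periods
-/

set_option autoImplicit false
set_option linter.unusedSectionVars false

open Filter Topology Set Metric

namespace Pool.Agent.D0H26.Nil

open Pool.Agent.D0H26.Fac (HSp subV)

universe u v

/-- the data of a quotient by a central subspace -/
structure QM {V : Type*} [NormedAddCommGroup V] [NormedSpace ℝ V] [Group V] (D : NB V)
    (V' : Type*) [NormedAddCommGroup V'] [NormedSpace ℝ V'] [Group V'] where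
  K : Submodule ℝ V
  q : V →ₗ[ℝ] V'
  ι : V' →ₗ[ℝ] V
  qι : ∀ x, q (ι x) = x
  nι : ∀ x, ‖ι x‖ ≤ ‖x‖
  mul : ∀ x y, q (x * y) = q x * q y
  mem : ∀ x, x - ι (q x) ∈ K
  kK : ∀ k ∈ K, q k = 0
  KT : ∀ k ∈ K, D.T k ∈ K
  Ks : ∀ k ∈ K, D.H.s k ∈ K
  Ku : ∀ k ∈ K, D.H.u k ∈ K
  KT' : ∀ k ∈ K, D.T.symm k ∈ K
  Kc : ∀ k ∈ K, ∀ x, x * k = x + k

section
variable {V : Type*} [NormedAddCommGroup V] [NormedSpace ℝ V] [FiniteDimensional ℝ V] [Group V]
  {D : NB V} {V' : Type*} [NormedAddCommGroup V'] [NormedSpace ℝ V'] [FiniteDimensional ℝ V']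
  [Group V'] (Q : QM D V')

/-- an endomorphism preserving `K` commutes with `q` modulo its quotient -/
theorem QM.comm (f : V →ₗ[ℝ] V) (hf : ∀ k ∈ Q.K, f k ∈ Q.K) (x : V) :
    Q.q (f (Q.ι (Q.q x))) = Q.q (f x) := by
  have h := Q.kK _ (hf _ (Q.mem x))
  rw [map_sub, map_sub, sub_eq_zero] at h
  exact h.symm

/-- the automorphism of the quotient -/
def QM.T' : V' ≃ₗ[ℝ] V' where
  toFun x := Q.q (D.T (Q.ι x))
  map_add' x y := by rw [map_add, map_add, map_add]
  map_smul' c x := by rw [map_smul, map_smul, map_smul]; rfl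
  invFun x := Q.q (D.T.symm (Q.ι x))
  left_inv x := by
    show Q.q (D.T.symm (Q.ι (Q.q (D.T (Q.ι x))))) = x
    have := Q.comm D.T.symm.toLinearMap Q.KT' (D.T (Q.ι x))
    simp only [LinearEquiv.coe_coe] at this
    rw [this, D.T.symm_apply_apply, Q.qι]
  right_inv x := by
    show Q.q (D.T (Q.ι (Q.q (D.T.symm (Q.ι x))))) = x
    have := Q.comm D.T.toLinearMap Q.KT (D.T.symm (Q.ι x))
    simp only [LinearEquiv.coe_coe] at this
    rw [this, D.T.apply_symm_apply, Q.qι]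

theorem QM.qT (x : V) : Q.q (D.T x) = Q.T' (Q.q x) :=
  (Q.comm D.T.toLinearMap Q.KT x).symm

theorem QM.qTs (x : V) : Q.q (D.T.symm x) = Q.T'.symm (Q.q x) :=
  (Q.comm D.T.symm.toLinearMap Q.KT' x).symm

theorem QM.cq : Continuous Q.q := LinearMap.continuous_of_finiteDimensional _

theorem QM.cι : Continuous Q.ι := LinearMap.continuous_of_finiteDimensional _

theorem QM.nq (x : V) : ‖Q.q x‖ ≤ ‖LinearMap.toContinuousLinearMap Q.q‖ * ‖x‖ :=
  (LinearMap.toContinuousLinearMap Q.q).le_opNorm x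

/-- the splitting of the quotient -/
noncomputable def QM.H' : HSp Q.T' where
  s := Q.q ∘ₗ D.H.s ∘ₗ Q.ι
  u := Q.q ∘ₗ D.H.u ∘ₗ Q.ι
  add v := by
    show Q.q (D.H.s (Q.ι v)) + Q.q (D.H.u (Q.ι v)) = v
    rw [← map_add, D.H.add, Q.qι]
  cs v := by
    show Q.q (D.H.s (Q.ι (Q.q (D.T (Q.ι v))))) = Q.T' (Q.q (D.H.s (Q.ι v)))
    rw [Q.comm D.H.s Q.Ks, D.H.cs, Q.qT]
  cu v := by
    show Q.q (D.H.u (Q.ι (Q.q (D.T (Q.ι v))))) = Q.T' (Q.q (D.H.u (Q.ι v)))
    rw [Q.comm D.H.u Q.Ku, D.H.cu, Q.qT]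
  C := ‖LinearMap.toContinuousLinearMap Q.q‖ * D.H.C
  l := D.H.l
  hC := mul_nonneg (norm_nonneg _) D.H.hC
  hl0 := D.H.hl0
  hl1 := D.H.hl1
  bs n v := by
    have h1 : Function.Semiconj Q.q D.T Q.T' := Q.qT
    have h2 := (h1.iterate_right n) (D.H.s (Q.ι v))
    show ‖Q.T'^[n] (Q.q (D.H.s (Q.ι v)))‖ ≤ _
    rw [← h2]
    refine (Q.nq _).trans ?_
    rw [mul_assoc, mul_assoc]
    refine mul_le_mul_of_nonneg_left ?_ (norm_nonneg _)
    refine (D.H.bs n _).trans ?_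
    rw [mul_assoc]
    exact mul_le_mul_of_nonneg_left (mul_le_mul_of_nonneg_left (Q.nι v)
      (pow_nonneg D.H.hl0 n)) D.H.hC
  bu n v := by
    have h1 : Function.Semiconj Q.q D.T.symm Q.T'.symm := Q.qTs
    have h2 := (h1.iterate_right n) (D.H.u (Q.ι v))
    show ‖Q.T'.symm^[n] (Q.q (D.H.u (Q.ι v)))‖ ≤ _
    rw [← h2]
    refine (Q.nq _).trans ?_
    rw [mul_assoc, mul_assoc]
    refine mul_le_mul_of_nonneg_left ?_ (norm_nonneg _)
    refine (D.H.bu n _).trans ?_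
    rw [mul_assoc]
    exact mul_le_mul_of_nonneg_left (mul_le_mul_of_nonneg_left (Q.nι v)
      (pow_nonneg D.H.hl0 n)) D.H.hC

theorem QM.q_one : Q.q 1 = 1 := by
  have h := Q.mul 1 1
  rw [mul_one] at h
  exact (left_eq_mul.1 h)

theorem QM.mul' (x y : V') : x * y = Q.q (Q.ι x * Q.ι y) := by
  rw [Q.mul, Q.qι, Q.qι]

theorem QM.q_inv (x : V) : Q.q x⁻¹ = (Q.q x)⁻¹ := by
  have h := Q.mul x⁻¹ x
  rw [inv_mul_cancel, Q.q_one] at h
  exact eq_inv_of_mul_eq_one_left h.symm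

theorem QM.ideal_comap {K' : Submodule ℝ V'} (h : IsIdeal K') : IsIdeal (K'.comap Q.q) := by
  intro x k hk
  rw [Submodule.mem_comap] at hk ⊢
  rw [Submodule.mem_comap, map_sub, Q.mul, Q.mul, Q.mul, Q.q_inv]
  exact h _ _ hk

theorem QM.ideal_map {I : Submodule ℝ V} (h : IsIdeal I) : IsIdeal (I.map Q.q) := by
  rintro x' _ ⟨k, hk, rfl⟩
  obtain ⟨h1, h2⟩ := h (Q.ι x') k hk
  refine ⟨⟨_, h1, ?_⟩, ⟨_, h2, ?_⟩⟩
  · rw [map_sub, Q.mul, Q.qι]
  · rw [Q.mul, Q.mul, Q.q_inv, Q.qι]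

/-- the quotient -/
noncomputable def QM.nb : NB V' where
  cmul := by
    have h : (fun p : V' × V' => p.1 * p.2) = fun p => Q.q (Q.ι p.1 * Q.ι p.2) :=
      funext fun p => Q.mul' _ _
    rw [h]
    exact Q.cq.comp (D.cmul.comp ((Q.cι.comp continuous_fst).prodMk (Q.cι.comp continuous_snd)))
  line s t x := by
    rw [Q.mul', map_smul, map_smul, D.line, map_smul, Q.qι]
  acom K' hK' x y h := by
    have h1 := D.acom _ (Q.ideal_comap hK') (Q.ι x) (Q.ι y) (by
      rw [Submodule.mem_comap, Q.mul, Q.mul, Q.mul, Q.q_inv, Q.q_inv, Q.qι, Q.qι]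
      exact h)
    rw [Submodule.mem_comap, map_sub, map_add, Q.mul, Q.qι, Q.qι] at h1
    exact h1
  T := Q.T'
  Tmul x y := by
    have h1 := Q.qT (Q.ι x * Q.ι y)
    rw [D.Tmul, Q.mul, Q.mul, Q.qT, Q.qT, Q.qι, Q.qι] at h1
    exact h1.symm
  H := Q.H'
  n := D.n
  W i := (D.W i).map Q.q
  W0 := by
    rw [D.W0, Submodule.map_top, LinearMap.range_eq_top]
    exact fun x => ⟨Q.ι x, Q.qι x⟩
  Wn := by rw [D.Wn, Submodule.map_bot]
  Wanti i := Submodule.map_mono (D.Wanti i)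
  Wid i := Q.ideal_map (D.Wid i)
  Wcom i x' := by
    rintro _ ⟨y, hy, rfl⟩
    refine ⟨_, D.Wcom i (Q.ι x') y hy, ?_⟩
    rw [Q.mul, Q.mul, Q.mul, Q.q_inv, Q.q_inv, Q.qι]
  WT i := by
    rintro _ ⟨x, hx, rfl⟩
    exact ⟨_, D.WT i x hx, Q.qT x⟩

/-- the projection as a homomorphism -/
def QM.hom : V →* V' where
  toFun := Q.q
  map_one' := Q.q_one
  map_mul' := Q.mul

end

/-- a morphism of the data -/
structure Mor {V : Type*} [NormedAddCommGroup V] [NormedSpace ℝ V] [Group V]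
    {V' : Type*} [NormedAddCommGroup V'] [NormedSpace ℝ V'] [Group V'] {Y : Type*} [MetricSpace Y]
    (D : ND V Y) (D' : ND V' Y) where
  p : V →ₗ[ℝ] V'
  surj : Function.Surjective p
  mul : ∀ x y, p (x * y) = p x * p y
  T : ∀ x, p (D.T x) = D'.T (p x)
  F : ∀ x, D'.F (p x) = D.F x
  g : D'.g = D.g
  Γ : ∀ x, x ∈ D'.Γ ↔ ∃ γ ∈ D.Γ, p γ = x

section
variable {V : Type*} [NormedAddCommGroup V] [NormedSpace ℝ V] [FiniteDimensional ℝ V] [Group V]
  {Y : Type*} [MetricSpace Y]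
  {D : ND V Y} {V' : Type*} [NormedAddCommGroup V'] [NormedSpace ℝ V'] [FiniteDimensional ℝ V']
  [Group V'] (Q : QM D.toNB V') (hP : ∀ k ∈ Q.K, k ∈ D.P)

include hP in
theorem QM.Fq (x : V) : D.F (Q.ι (Q.q x)) = D.F x := by
  have h1 : x = Q.ι (Q.q x) * (x - Q.ι (Q.q x)) := by
    rw [Q.Kc _ (Q.mem x)]
    abel
  have h2 := hP _ (Q.mem x) (Q.ι (Q.q x))
  rw [← h1] at h2
  exact h2.symm

/-- the quotient data -/
noncomputable def QM.nd : ND V' Y where
  toNB := Q.nb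
  Γ := D.Γ.map Q.hom
  TΓ := by
    rintro _ ⟨γ, hγ, rfl⟩
    exact ⟨D.T γ, D.TΓ γ hγ, Q.qT γ⟩
  TΓ' := by
    rintro _ ⟨γ, hγ, rfl⟩
    exact ⟨D.T.symm γ, D.TΓ' γ hγ, Q.qTs γ⟩
  R := ‖LinearMap.toContinuousLinearMap Q.q‖ * D.R
  coc i := by
    rintro _ ⟨x, hx, rfl⟩
    obtain ⟨γ, hγ, hγi, hn⟩ := D.coc i x hx
    refine ⟨Q.q γ, ⟨γ, hγ, rfl⟩, ⟨γ, hγi, rfl⟩, ?_⟩
    rw [← Q.mul]
    exact (Q.nq _).trans (mul_le_mul_of_nonneg_left hn (norm_nonneg _))
  g := D.g
  F x := D.F (Q.ι x)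
  cont := D.cont.comp Q.cι
  per := by
    rintro _ ⟨γ, hγ, rfl⟩ x
    show D.F (Q.ι (Q.q γ * x)) = D.F (Q.ι x)
    have h1 : Q.q γ * x = Q.q (γ * Q.ι x) := by rw [Q.mul, Q.qι]
    rw [h1, Q.Fq hP, D.per γ hγ]
  equi x := by
    show D.F (Q.ι (Q.q (D.T (Q.ι x)))) = D.g (D.F (Q.ι x))
    rw [Q.Fq hP, D.equi]
  ε := D.ε
  hε := D.hε
  exp := D.exp

/-- the projection as a morphism -/
noncomputable def QM.mor : Mor D (Q.nd hP) where
  p := Q.q
  surj x := ⟨Q.ι x, Q.qι x⟩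
  mul := Q.mul
  T := Q.qT
  F := Q.Fq hP
  g := rfl
  Γ x := Iff.rfl

end

section
variable {V : Type u} [NormedAddCommGroup V] [NormedSpace ℝ V] [FiniteDimensional ℝ V] [Group V]
  {Y : Type v} [MetricSpace Y]

theorem proj_mul (K U : Submodule ℝ V) (h : IsCompl U K)
    (hK : ∀ k ∈ K, ∀ x, x * k = x + k ∧ k * x = x + k) (x y : V) :
    U.projectionOnto K h (x * y) =
      U.projectionOnto K h ((U.projectionOnto K h x : V) * (U.projectionOnto K h y : V)) := by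
  have hq : ∀ v, v - (U.projectionOnto K h v : V) ∈ K := fun v =>
    Submodule.sub_projection_mem h v
  have hk0 : ∀ k ∈ K, U.projectionOnto K h k = 0 := fun k hk =>
    (Submodule.projectionOnto_apply_eq_zero_iff h).2 hk
  obtain ⟨k, hk, hx⟩ : ∃ k ∈ K, x = (U.projectionOnto K h x : V) + k :=
    ⟨_, hq x, by abel⟩
  obtain ⟨l, hl, hy⟩ : ∃ k ∈ K, y = (U.projectionOnto K h y : V) + k :=
    ⟨_, hq y, by abel⟩
  have e1 : x * y = (U.projectionOnto K h x : V) * (U.projectionOnto K h y : V) + k + l := by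
    conv_lhs => rw [hx, hy]
    rw [← (hK k hk _).1, ← (hK l hl _).1, ← (hK l hl _).1, ← (hK k hk _).1, ← mul_assoc,
      mul_assoc _ k _, (hK k hk _).2, ← (hK k hk _).1, ← mul_assoc]
  rw [e1, map_add, map_add, hk0 k hk, hk0 l hl, add_zero, add_zero]

/-- the group structure on a complement of a central subspace -/
@[reducible] noncomputable def qGroup (D : NB V) (K U : Submodule ℝ V) (h : IsCompl U K)
    (hK : ∀ k ∈ K, ∀ x, x * k = x + k ∧ k * x = x + k) : Group U :=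
  have hU : ∀ x : U, U.projectionOnto K h x = x := fun x =>
    Submodule.projectionOnto_apply_left h x
  { mul := fun x y => U.projectionOnto K h ((x : V) * (y : V))
    one := 0
    inv := fun x => -x
    mul_assoc := by
      intro x y z
      show U.projectionOnto K h ((U.projectionOnto K h ((x : V) * (y : V)) : V) * (z : V)) =
        U.projectionOnto K h ((x : V) * (U.projectionOnto K h ((y : V) * (z : V)) : V))
      have h1 := proj_mul K U h hK ((x : V) * (y : V)) z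
      have h2 := proj_mul K U h hK (x : V) ((y : V) * (z : V))
      rw [hU] at h1 h2
      rw [← h1, ← h2, mul_assoc]
    one_mul := by
      intro x
      show U.projectionOnto K h (((0 : U) : V) * (x : V)) = x
      rw [Submodule.coe_zero, ← D.one_eq, one_mul, hU]
    mul_one := by
      intro x
      show U.projectionOnto K h ((x : V) * ((0 : U) : V)) = x
      rw [Submodule.coe_zero, ← D.one_eq, mul_one, hU]
    inv_mul_cancel := by
      intro x
      show U.projectionOnto K h (((-x : U) : V) * (x : V)) = 0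
      rw [Submodule.coe_neg, ← D.inv_eq, inv_mul_cancel, D.one_eq, map_zero] }

theorem ideal_bot (D : NB V) : IsIdeal (⊥ : Submodule ℝ V) := by
  intro x k hk
  rw [Submodule.mem_bot] at hk
  rw [hk, ← D.one_eq, mul_one, sub_self, mul_inv_cancel, D.one_eq]
  exact ⟨Submodule.zero_mem _, Submodule.zero_mem _⟩

/-- **Reduction.**  If there are small identifications, there is a proper quotient. -/
theorem ND.reduce (hL2 : S_LIN2.{u}) (hL4 : S_LIN4.{u}) (D : ND V Y) (S : Sp D.toNB) (j : ℕ)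
    (h1 : D.NoS (j + 1)) (h2 : D.swap.NoS (j + 1)) (hn : ¬ (D.NoS j ∧ D.swap.NoS j)) :
    ∃ (V' : Type u) (_ : NormedAddCommGroup V') (_ : NormedSpace ℝ V')
      (_ : FiniteDimensional ℝ V') (_ : Group V') (D' : ND V' Y) (_ : Mor D D'),
      Module.finrank ℝ V' < Module.finrank ℝ V := by
  have hcen : ∀ a, a ∈ D.P → a ∈ D.W j → ∀ x, x * a = x + a ∧ a * x = x + a := by
    intro a ha haW x
    have hc := D.central S j h1 h2 a ha haW x
    have h3 := D.acom _ (ideal_bot D.toNB) x a (by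
      rw [hc, D.one_eq]
      exact Submodule.zero_mem _)
    rw [Submodule.mem_bot, sub_eq_zero] at h3
    refine ⟨h3, ?_⟩
    have h4 : x⁻¹ * a⁻¹ * x * a = (a * x)⁻¹ * (x * a) := by group
    rw [h4, inv_mul_eq_one] at hc
    rw [hc, h3]
  obtain ⟨B, hB⟩ : ∃ B : AddSubgroup V, ∀ a, a ∈ B ↔ a ∈ D.P ∧ a ∈ D.W j := by
    refine ⟨{ carrier := {a | a ∈ D.P ∧ a ∈ D.W j}
              add_mem' := ?_
              zero_mem' := ?_
              neg_mem' := ?_ }, fun a => Iff.rfl⟩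
    · rintro a b ⟨ha, ha'⟩ ⟨hb, hb'⟩
      refine ⟨?_, (D.W j).add_mem ha' hb'⟩
      rw [← (hcen b hb hb' a).1]
      exact D.P.mul_mem ha hb
    · refine ⟨?_, (D.W j).zero_mem⟩
      rw [← D.one_eq]
      exact D.P.one_mem
    · rintro a ⟨ha, ha'⟩
      refine ⟨?_, (D.W j).neg_mem ha'⟩
      rw [← D.inv_eq]
      exact D.P.inv_mem ha
  have hBc : IsClosed (B : Set V) := by
    have e : (B : Set V) = {a | ∀ x, D.F (x * a) = D.F x} ∩ (D.W j : Set V) := by
      ext a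
      exact hB a
    rw [e]
    refine IsClosed.inter ?_ (Submodule.closed_of_finiteDimensional _)
    simp only [Set.setOf_forall]
    exact isClosed_iInter fun x => isClosed_eq
      (D.cont.comp (D.cmul.comp (continuous_const.prodMk continuous_id))) continuous_const
  have hBT : ∀ b ∈ B, D.T b ∈ B := by
    intro b hb
    rw [hB] at hb ⊢
    refine ⟨fun x => ?_, D.WT j b hb.2⟩
    have e1 : x * D.T b = D.T (D.T.symm x * b) := by rw [D.Tmul, D.T.apply_symm_apply]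
    rw [e1, D.equi, hb.1, ← D.equi, D.T.apply_symm_apply]
  have hBT' : ∀ b ∈ B, D.T.symm b ∈ B := by
    intro b hb
    rw [hB] at hb ⊢
    refine ⟨fun x => ?_, symm_mem D.T (D.W j) (D.WT j) b hb.2⟩
    have e1 : x * D.T.symm b = D.T.symm (D.T x * b) := by rw [D.Tsmul, D.T.symm_apply_apply]
    have e2 : ∀ y, D.F (D.T.symm y) = D.g.symm (D.F y) := D.swap.equi
    rw [e1, e2, hb.1, ← e2, D.T.symm_apply_apply]
  obtain ⟨-, hL⟩ := hL4 V B hBc
  have hpow : Tendsto (fun n : ℕ => D.H.C * D.H.l ^ n) atTop (𝓝 0) := by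
    have := (tendsto_pow_atTop_nhds_zero_of_lt_one D.H.hl0 D.H.hl1).const_mul D.H.C
    simpa using this
  have hpow' : ∀ r : ℝ, Tendsto (fun n : ℕ => D.H.C * D.H.l ^ n * r) atTop (𝓝 0) := by
    intro r
    have := hpow.mul_const r
    simpa using this
  have hne : ∃ k ∈ subV B, k ≠ 0 := by
    rw [not_and_or] at hn
    rcases hn with hn | hn
    · obtain ⟨δ, hδ, hex⟩ := D.exit S j h1
      by_contra hcon
      push Not at hcon
      refine hn ⟨δ / 2, half_pos hδ, fun x a ha haW han hx => hcon a ?_⟩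
      have haP := hex x a ha haW (han.trans_lt (half_lt_self hδ)) hx
      refine hL D.T hBT a ((hB a).2 ⟨haP, haW⟩) ?_
      rw [tendsto_zero_iff_norm_tendsto_zero]
      exact squeeze_zero (fun n => norm_nonneg _) (fun n => D.bs ha n) (hpow' _)
    · obtain ⟨δ, hδ, hex⟩ := D.swap.exit S.swap j h2
      by_contra hcon
      push Not at hcon
      refine hn ⟨δ / 2, half_pos hδ, fun x a ha haW han hx => hcon a ?_⟩
      have haP : a ∈ D.P := hex x a ha haW (han.trans_lt (half_lt_self hδ)) hx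
      refine hL D.T.symm hBT' a ((hB a).2 ⟨haP, haW⟩) ?_
      rw [tendsto_zero_iff_norm_tendsto_zero]
      exact squeeze_zero (fun n => norm_nonneg _) (fun n => D.bu ha n) (hpow' _)
  obtain ⟨K, hKdef⟩ : ∃ K, K = subV B := ⟨_, rfl⟩
  rw [← hKdef] at hne
  have hKB : ∀ k ∈ K, k ∈ D.P ∧ k ∈ D.W j := by
    intro k hk
    rw [hKdef] at hk
    exact (hB k).1 (Pool.Agent.D0H26.Fac.subV_le hk)
  have hK : ∀ k ∈ K, ∀ x, x * k = x + k ∧ k * x = x + k := fun k hk =>
    hcen k (hKB k hk).1 (hKB k hk).2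
  have hKT : ∀ k ∈ K, D.T k ∈ K := by
    intro k hk
    rw [hKdef] at hk ⊢
    intro t
    rw [← map_smul]
    exact hBT _ (hk t)
  obtain ⟨U, hU⟩ := K.exists_isCompl
  have hU' : IsCompl U K := hU.symm
  letI : Group U := qGroup D.toNB K U hU' hK
  let Q : QM D.toNB U :=
    { K := K
      q := U.projectionOnto K hU'
      ι := U.subtype
      qι := fun x => Submodule.projectionOnto_apply_left hU' x
      nι := fun x => le_rfl
      mul := proj_mul K U hU' hK
      mem := fun v => Submodule.sub_projection_mem hU' v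
      kK := fun k hk => (Submodule.projectionOnto_apply_eq_zero_iff hU').2 hk
      KT := hKT
      Ks := fun k hk => (hL2 V D.T D.H K hKT k hk).1
      Ku := fun k hk => (hL2 V D.T D.H K hKT k hk).2.1
      KT' := fun k hk => (hL2 V D.T D.H K hKT k hk).2.2
      Kc := fun k hk x => (hK k hk x).1 }
  have hQP : ∀ k ∈ Q.K, k ∈ D.P := fun k hk => (hKB k hk).1
  refine ⟨U, inferInstance, inferInstance, inferInstance, this, Q.nd hQP, Q.mor hQP, ?_⟩
  have h3 := Submodule.finrank_add_eq_of_isCompl hU'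
  have h4 : 1 ≤ Module.finrank ℝ K := by
    rw [Submodule.one_le_finrank_iff]
    rintro rfl
    obtain ⟨k, hk, hk0⟩ := hne
    exact hk0 ((Submodule.mem_bot ℝ).1 hk)
  omega

end

/-- composition -/
def Mor.comp {V : Type*} [NormedAddCommGroup V] [NormedSpace ℝ V] [Group V]
    {V' : Type*} [NormedAddCommGroup V'] [NormedSpace ℝ V'] [Group V']
    {V'' : Type*} [NormedAddCommGroup V''] [NormedSpace ℝ V''] [Group V'']
    {Y : Type*} [MetricSpace Y] {D : ND V Y} {D' : ND V' Y} {D'' : ND V'' Y}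
    (m' : Mor D' D'') (m : Mor D D') : Mor D D'' where
  p := m'.p ∘ₗ m.p
  surj := m'.surj.comp m.surj
  mul x y := by
    show m'.p (m.p (x * y)) = m'.p (m.p x) * m'.p (m.p y)
    rw [m.mul, m'.mul]
  T x := by
    show m'.p (m.p (D.T x)) = D''.T (m'.p (m.p x))
    rw [m.T, m'.T]
  F x := by
    show D''.F (m'.p (m.p x)) = D.F x
    rw [m'.F, m.F]
  g := m'.g.trans m.g
  Γ x := by
    rw [m'.Γ]
    constructor
    · rintro ⟨γ', hγ', rfl⟩
      obtain ⟨γ, hγ, rfl⟩ := (m.Γ _).1 hγ'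
      exact ⟨γ, hγ, rfl⟩
    · rintro ⟨γ, hγ, rfl⟩
      exact ⟨m.p γ, (m.Γ _).2 ⟨γ, hγ, rfl⟩, rfl⟩

/-- identity -/
def Mor.id {V : Type*} [NormedAddCommGroup V] [NormedSpace ℝ V] [Group V]
    {Y : Type*} [MetricSpace Y] (D : ND V Y) : Mor D D where
  p := LinearMap.id
  surj := Function.surjective_id
  mul _ _ := rfl
  T _ := rfl
  F _ := rfl
  g := rfl
  Γ x := ⟨fun h => ⟨x, h, rfl⟩, by rintro ⟨γ, hγ, rfl⟩; exact hγ⟩

/-- **Structure theorem.** -/
theorem ND.final (hL2 : S_LIN2.{u}) (hL4 : S_LIN4.{u}) (hSP : S_SPLIT.{u}) {Y : Type v}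
    [MetricSpace Y] (m : ℕ) : ∀ (V : Type u) [NormedAddCommGroup V] [NormedSpace ℝ V]
    [FiniteDimensional ℝ V] [Group V] (D : ND V Y), Module.finrank ℝ V = m →
    ∃ (V' : Type u) (_ : NormedAddCommGroup V') (_ : NormedSpace ℝ V')
      (_ : FiniteDimensional ℝ V') (_ : Group V') (D' : ND V' Y) (_ : Mor D D'),
      ∃ ρ > 0, ∀ x c, ‖c‖ < ρ → D'.F (x * c) = D'.F x → c = 0 := by
  induction m using Nat.strong_induction_on with
  | _ m ih =>
    intro V _ _ _ _ D hm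
    obtain ⟨mul_s, mul_u, ps, pu, cps, cpu, hps, hW⟩ := hSP V D.toNB
    have S : Sp D.toNB :=
      { mul_s := mul_s
        mul_u := mul_u
        ps := ps
        pu := pu
        cps := cps
        cpu := cpu
        es := fun x => (hps x).1
        eu := fun x => (hps x).2.1
        dec := fun x => (hps x).2.2
        Ws := fun i x hx => (hW i x hx).1
        Wu := fun i x hx => (hW i x hx).2 }
    classical
    have hex : ∃ i, D.NoS i ∧ D.swap.NoS i := by
      refine ⟨D.n, ⟨1, one_pos, fun x a _ ha _ _ => ?_⟩, ⟨1, one_pos, fun x a _ ha _ _ => ?_⟩⟩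
      · rw [D.Wn, Submodule.mem_bot] at ha
        exact ha
      · have ha' : a ∈ D.W D.n := ha
        rw [D.Wn, Submodule.mem_bot] at ha'
        exact ha'
    obtain ⟨i, hi⟩ : ∃ i, i = Nat.find hex := ⟨_, rfl⟩
    have hsp := Nat.find_spec hex
    rw [← hi] at hsp
    cases i with
    | zero =>
      obtain ⟨ρ, hρ, h⟩ := D.noid S 0 hsp.1 hsp.2
      refine ⟨V, inferInstance, inferInstance, inferInstance, inferInstance, D, Mor.id D, ρ, hρ,
        fun x c hc hx => ?_⟩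
      rw [← D.one_eq]
      exact h x c (by rw [D.W0]; trivial) hc hx
    | succ j =>
      have hj : ¬ (D.NoS j ∧ D.swap.NoS j) := Nat.find_min hex (by omega)
      obtain ⟨V', _, _, _, _, D', mo, hlt⟩ := D.reduce hL2 hL4 S j hsp.1 hsp.2 hj
      obtain ⟨V'', i1, i2, i3, i4, D'', mo', h⟩ := ih _ (by omega) V' D' rfl
      exact ⟨V'', i1, i2, i3, i4, D'', mo'.comp mo, h⟩

end Pool.Agent.D0H26.Nil
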