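import Pool.Agent.D0H26.Nil.Stm2
import Pool.Agent.D0H26.Nil.Quot
import Pool.Agent.D0H25.NIL.Split

/-!
# Rigidity: induction
-/

set_option autoImplicit false
set_option linter.unusedSectionVars false

open Filter Topology Set Metric

namespace Pool.Agent.D0H26.Nil

open Pool.Agent.D0H26.Fac (HSp subV)

universe u v w

section
variable {V : Type*} [NormedAddCommGroup V] [NormedSpace ℝ V] [FiniteDimensional ℝ V] [Group V]

/-- commuting elements add -/
theorem NB.add_of_com (D : NB V) {x y : V} (h : x * y = y * x) : x * y = x + y := by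
  have h1 := D.acom _ (ideal_bot D) x y (by
    have e : x⁻¹ * y⁻¹ * x * y = (y * x)⁻¹ * (x * y) := by group
    rw [e, h, inv_mul_cancel, D.one_eq]
    exact Submodule.zero_mem _)
  rwa [Submodule.mem_bot, sub_eq_zero] at h1

/-- one-parameter subgroups are lines -/
theorem NB.onepar (D : NB V) (φ : ℝ → V) (hc : Continuous φ)
    (h : ∀ s t, φ (s + t) = φ s * φ t) (t : ℝ) : φ t = t • φ 1 := by
  have hadd : ∀ s t, φ (s + t) = φ s + φ t := by
    intro s t
    rw [h]
    apply D.add_of_com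
    rw [← h, ← h, add_comm]
  have h1 := map_real_smul (AddMonoidHom.mk' φ hadd) hc t 1
  rw [smul_eq_mul, mul_one] at h1
  exact h1

/-- the centre -/
def NB.cen (D : NB V) : Submodule ℝ V where
  carrier := {z | ∀ x, x * z = z * x}
  zero_mem' := by
    intro x
    rw [← D.one_eq, mul_one, one_mul]
  add_mem' := by
    intro a b ha hb x
    rw [← D.add_of_com (hb a), ← mul_assoc, ha, mul_assoc, hb, mul_assoc]
  smul_mem' := by
    intro t z hz x
    have h1 := D.onepar (fun t => x⁻¹ * (t • z) * x) (by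
      have c1 : Continuous fun t : ℝ => x⁻¹ * (t • z) :=
        D.cmul.comp (continuous_const.prodMk (continuous_id.smul continuous_const))
      exact D.cmul.comp (c1.prodMk continuous_const)) (fun s t => by
      show x⁻¹ * ((s + t) • z) * x = (x⁻¹ * (s • z) * x) * (x⁻¹ * (t • z) * x)
      rw [← D.line]
      group) t
    simp only [one_smul] at h1
    have h2 : x⁻¹ * z * x = z := by
      rw [mul_assoc, ← hz x, inv_mul_cancel_left]
    rw [h2, mul_assoc, inv_mul_eq_iff_eq_mul] at h1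
    exact h1.symm

theorem NB.mem_cen (D : NB V) (z : V) : z ∈ D.cen ↔ ∀ x, x * z = z * x := Iff.rfl

theorem NB.cen_add (D : NB V) : ∀ k ∈ D.cen, ∀ x, x * k = x + k ∧ k * x = x + k := by
  intro k hk x
  have h1 := D.add_of_com (hk x)
  exact ⟨h1, by rw [← hk x, h1]⟩

theorem NB.cen_T (D : NB V) : ∀ k ∈ D.cen, D.T k ∈ D.cen := by
  intro k hk x
  have h1 := congrArg D.T (hk (D.T.symm x))
  rw [D.Tmul, D.Tmul, D.T.apply_symm_apply] at h1
  exact h1

/-- the centre is nontrivial -/
theorem NB.cen_ne (D : NB V) (h : D.cen = ⊥) (x : V) : x = 0 := by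
  have key : ∀ m i : ℕ, D.n ≤ i + m → D.W i = ⊥ := by
    intro m
    induction m with
    | zero =>
      intro i hi
      rw [eq_bot_iff, ← D.Wn]
      exact D.W_le hi
    | succ m ih =>
      intro i hi
      have h1 := ih (i + 1) (by omega)
      rw [eq_bot_iff, ← h]
      intro y hy x
      have h2 := D.Wcom i x y hy
      rw [h1, Submodule.mem_bot, ← D.one_eq] at h2
      have e : x⁻¹ * y⁻¹ * x * y = (y * x)⁻¹ * (x * y) := by group
      rw [e, inv_mul_eq_one] at h2
      exact h2.symm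
  have h1 := key D.n 0 (by omega)
  rw [D.W0] at h1
  have h2 : x ∈ (⊤ : Submodule ℝ V) := trivial
  rw [h1] at h2
  exact (Submodule.mem_bot ℝ).1 h2

theorem HD.E_cont (D : HD V) (a : V) : Continuous fun x => D.E a x := by
  have h1 : Continuous fun x => D.δ (x * a) :=
    D.δ.continuous.comp (D.cmul.comp (continuous_id.prodMk continuous_const))
  exact D.cmul.comp ((D.cinv.comp D.δ.continuous).prodMk h1)

theorem HD.mul_E (D : HD V) (a x : V) : D.δ (x * a) = D.δ x * D.E a x := by
  show _ = D.δ x * ((D.δ x)⁻¹ * D.δ (x * a))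
  rw [mul_inv_cancel_left]

end

section
variable {V : Type u} [NormedAddCommGroup V] [NormedSpace ℝ V] [FiniteDimensional ℝ V] [Group V]

/-- central stable elements -/
theorem HD.cen_s (hL : S_LEAF.{u}) (D : HD V) (S : Sp D.toNB) {z : V} (hz : z ∈ D.cen)
    (hzs : D.H.u z = 0) (x : V) : D.δ (x * z) = D.δ x * D.δ z := by
  have hpr : ProperSpace V := FiniteDimensional.proper ℝ V
  obtain ⟨la, lb, lc, ld, le, lf⟩ := hL V D S
  have hps : ∀ w, D.H.s w = 0 → S.ps (w⁻¹ * z) = z := by
    intro w hw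
    rw [hz w⁻¹]
    exact (S.uniq _ hzs (S.inv_u _ hw)).1
  have h1 := lf (fun x => D.E z x) (D.E_cont z) (fun γ hγ x => D.E_per hγ z x) (by
    intro x w hw
    obtain ⟨b, hb⟩ : ∃ b, b = D.E z x := ⟨_, rfl⟩
    have hbs : D.H.u b = 0 := by rw [hb]; exact la x z hzs
    obtain ⟨C, hC⟩ := le ‖z‖
    have hc : Continuous fun v : V => b⁻¹ * v :=
      D.cmul.comp (continuous_const.prodMk continuous_id)
    obtain ⟨C', hC'⟩ := (isCompact_closedBall (0 : V) C).exists_bound_of_continuousOn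
      hc.continuousOn
    have hy : D.H.s (D.E w x) = 0 := lb x w hw
    have hA := S.A_bdd _ hbs hy (j := 0) (by rw [D.W0]; trivial) C' (by
      intro t _
      obtain ⟨w', hw', hE⟩ := lc x (t • D.E w x) (by rw [map_smul, hy, smul_zero])
      have h2 := ld x z w' hzs hw'
      rw [hps w' hw', hE, ← hb] at h2
      have h3 : S.A _ b (D.E w x) t = b⁻¹ * D.E z (x * w') := by
        rw [h2]
        rfl
      rw [h3]
      exact hC' _ (mem_closedBall_zero_iff.2 (hC _ _ le_rfl)))
    have h4 := S.mul_A _ b (D.E w x) 1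
    rw [hA 1 zero_le_one, mul_one, one_smul] at h4
    have h5 := ld x z w hzs hw
    rw [hps w hw, ← hb, ← h4] at h5
    show D.E z (x * w) = D.E z x
    rw [h5, hb])
  have h2 := h1 x
  simp only [D.E_one] at h2
  rw [D.mul_E, h2]

/-- central elements -/
theorem HD.cen_mul (hL2 : S_LIN2.{u}) (hL : S_LEAF.{u}) (D : HD V) (S : Sp D.toNB) {z : V}
    (hz : z ∈ D.cen) (x : V) : D.δ (x * z) = D.δ x * D.δ z := by
  obtain ⟨h1, h2, -⟩ := hL2 V D.T D.H D.cen D.cen_T z hz
  have e1 : z = D.H.s z * D.H.u z := by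
    rw [(D.cen_add _ h2 _).1, D.H.add]
  have k1 : ∀ x, D.δ (x * D.H.s z) = D.δ x * D.δ (D.H.s z) := fun x =>
    D.cen_s hL S h1 (Pool.Agent.D0H25.NIL.us D.H z) x
  have k2 : ∀ x, D.δ (x * D.H.u z) = D.δ x * D.δ (D.H.u z) := fun x =>
    D.swap.cen_s hL S.swap (z := D.H.u z) h2 (Pool.Agent.D0H25.NIL.su D.H z) x
  rw [e1, ← mul_assoc, k2, k1, k2, mul_assoc]

/-- the image of a line in the centre is a line -/
theorem HD.cen_line (hL2 : S_LIN2.{u}) (hL : S_LEAF.{u}) (D : HD V) (S : Sp D.toNB) {z : V}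
    (hz : z ∈ D.cen) (t : ℝ) : D.δ (t • z) = t • D.δ z := by
  have h := D.onepar (fun t => D.δ (t • z)) (D.δ.continuous.comp
    (continuous_id.smul continuous_const)) (fun s t => by
      show D.δ ((s + t) • z) = D.δ (s • z) * D.δ (t • z)
      rw [← D.line, D.cen_mul hL2 hL S (D.cen.smul_mem t hz)]) t
  simp only [one_smul] at h
  exact h

/-- the image of a central element is central -/
theorem HD.cen_cen (hL2 : S_LIN2.{u}) (hL : S_LEAF.{u}) (D : HD V) (S : Sp D.toNB) {z : V}
    (hz : z ∈ D.cen) : D.δ z ∈ D.cen := by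
  have hpr : ProperSpace V := FiniteDimensional.proper ℝ V
  intro v
  obtain ⟨-, -, -, -, le, -⟩ := hL V D S
  obtain ⟨y, rfl⟩ := D.δ.surjective v
  obtain ⟨C, hC⟩ := le ‖y‖
  obtain ⟨c, hc⟩ : ∃ c, c = D.δ z := ⟨_, rfl⟩
  obtain ⟨v, hv⟩ : ∃ v, v = D.δ y := ⟨_, rfl⟩
  rw [← hc, ← hv]
  have hcont : Continuous fun w : V => v⁻¹ * w :=
    D.cmul.comp (continuous_const.prodMk continuous_id)
  obtain ⟨C', hC'⟩ := (isCompact_closedBall (0 : V) C).exists_bound_of_continuousOn
    hcont.continuousOn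
  have hb : ∀ M : ℕ, ‖v⁻¹ * (c ^ M)⁻¹ * v * c ^ M‖ ≤ C' := by
    intro M
    have h1 : c ^ M = D.δ ((M : ℝ) • z) := by
      rw [D.pow_eq, D.cen_line hL2 hL S hz, hc]
    have hMz := D.cen.smul_mem (M : ℝ) hz
    have h2 : (c ^ M)⁻¹ * v * c ^ M = D.E y ((M : ℝ) • z) := by
      show _ = (D.δ ((M : ℝ) • z))⁻¹ * D.δ ((M : ℝ) • z * y)
      rw [← (D.mem_cen _).1 hMz y, D.cen_mul hL2 hL S hMz, h1, hv, mul_assoc]
    have h3 : v⁻¹ * (c ^ M)⁻¹ * v * c ^ M = v⁻¹ * ((c ^ M)⁻¹ * v * c ^ M) := by group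
    rw [h3, h2]
    exact hC' _ (mem_closedBall_zero_iff.2 (hC _ _ le_rfl))
  have step : ∀ l : ℕ, v⁻¹ * c⁻¹ * v * c ∈ D.W l → v⁻¹ * c⁻¹ * v * c ∈ D.W (l + 1) := by
    intro l hl
    obtain ⟨e, he⟩ : ∃ e, e = v⁻¹ * c⁻¹ * v * c := ⟨_, rfl⟩
    have hcl : IsClosed (D.W (l + 1) : Set V) := Submodule.closed_of_finiteDimensional _
    have h3 : Tendsto (fun k : ℕ => ((k : ℝ) + 1)⁻¹ • (((k : ℝ) + 1) • e -
        v⁻¹ * (c ^ (k + 1))⁻¹ * v * c ^ (k + 1))) atTop (𝓝 e) := by
      have e1 : ∀ k : ℕ, ((k : ℝ) + 1)⁻¹ • (((k : ℝ) + 1) • e -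
          v⁻¹ * (c ^ (k + 1))⁻¹ * v * c ^ (k + 1)) = e -
          ((k : ℝ) + 1)⁻¹ • (v⁻¹ * (c ^ (k + 1))⁻¹ * v * c ^ (k + 1)) := by
        intro k
        have : ((k : ℝ) + 1) ≠ 0 := by positivity
        rw [smul_sub, smul_smul, inv_mul_cancel₀ this, one_smul]
      simp_rw [e1]
      have h4 : Tendsto (fun k : ℕ => ((k : ℝ) + 1)⁻¹ •
          (v⁻¹ * (c ^ (k + 1))⁻¹ * v * c ^ (k + 1))) atTop (𝓝 0) := by
        rw [tendsto_zero_iff_norm_tendsto_zero]
        have h5 : Tendsto (fun k : ℕ => ((k : ℝ) + 1)⁻¹ * C') atTop (𝓝 0) := by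
          have := (tendsto_one_div_add_atTop_nhds_zero_nat (𝕜 := ℝ)).mul_const C'
          simpa using this
        refine squeeze_zero (fun k => norm_nonneg _) (fun k => ?_) h5
        have hk : (0 : ℝ) < (k : ℝ) + 1 := by positivity
        rw [norm_smul, norm_inv, Real.norm_of_nonneg hk.le]
        exact mul_le_mul_of_nonneg_left (hb _) (inv_nonneg.2 hk.le)
      have := (tendsto_const_nhds (x := e)).sub h4
      rwa [sub_zero] at this
    rw [← he]
    refine hcl.mem_of_tendsto h3 (Eventually.of_forall fun k => ?_)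
    have h6 := (D.com_pow v c l hl (k + 1)).2
    rw [← he] at h6
    push_cast at h6
    have h7 := (D.W (l + 1)).smul_mem (((k : ℝ) + 1)⁻¹) ((D.W (l + 1)).neg_mem h6)
    rwa [neg_sub] at h7
  have all : ∀ l : ℕ, v⁻¹ * c⁻¹ * v * c ∈ D.W l := by
    intro l
    induction l with
    | zero => rw [D.W0]; trivial
    | succ l ih => exact step l ih
  have h1 := all D.n
  rw [D.Wn, Submodule.mem_bot, ← D.one_eq] at h1
  have e : v⁻¹ * c⁻¹ * v * c = (c * v)⁻¹ * (v * c) := by group
  rw [e, inv_mul_eq_one] at h1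
  exact h1.symm

/-- the homeomorphism is onto from the centre to the centre -/
theorem HD.cen_surj (hL2 : S_LIN2.{u}) (hL : S_LEAF.{u}) (D : HD V) (S : Sp D.toNB) {k : V}
    (hk : k ∈ D.cen) : ∃ z ∈ D.cen, D.δ z = k := by
  let L : D.cen →ₗ[ℝ] D.cen :=
    { toFun := fun z => ⟨D.δ z, D.cen_cen hL2 hL S z.2⟩
      map_add' := by
        intro a b
        apply Subtype.ext
        show D.δ ((a : V) + (b : V)) = D.δ a + D.δ b
        rw [← (D.cen_add _ b.2 _).1, D.cen_mul hL2 hL S b.2,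
          (D.cen_add _ (D.cen_cen hL2 hL S b.2) _).1]
      map_smul' := by
        intro t a
        apply Subtype.ext
        exact D.cen_line hL2 hL S a.2 t }
  have hinj : Function.Injective L := by
    intro a b hab
    have h1 : D.δ a = D.δ b := congrArg Subtype.val hab
    exact Subtype.ext (D.δ.injective h1)
  obtain ⟨z, hz⟩ := (LinearMap.injective_iff_surjective.1 hinj) ⟨k, hk⟩
  exact ⟨z, z.2, congrArg Subtype.val hz⟩

theorem rig (hL2 : S_LIN2.{u}) (hL : S_LEAF.{u}) (hC : S_CEN.{u}) : S_RIG.{u} := by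
  have key : ∀ m : ℕ, ∀ (V : Type u) [NormedAddCommGroup V] [NormedSpace ℝ V]
      [FiniteDimensional ℝ V] [Group V] (D : HD V), Module.finrank ℝ V = m →
      ∀ x y, D.δ (x * y) = D.δ x * D.δ y := by
    intro m
    induction m using Nat.strong_induction_on with
    | _ m ih =>
      intro V _ _ _ _ D hm
      obtain ⟨mul_s, mul_u, ps, pu, cps, cpu, hps, hW⟩ := Pool.Agent.D0H25.NIL.split hL2 V D.toNB
      have S : Sp D.toNB :=
        { mul_s := mul_s
          mul_u := mul_u
          ps := ps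
          pu := pu
          cps := cps
          cpu := cpu
          es := fun x => (hps x).1
          eu := fun x => (hps x).2.1
          dec := fun x => (hps x).2.2
          Ws := fun i x hx => (hW i x hx).1
          Wu := fun i x hx => (hW i x hx).2 }
      by_cases hbot : D.cen = ⊥
      · intro x y
        rw [D.cen_ne hbot (D.δ (x * y)), D.cen_ne hbot (D.δ x * D.δ y)]
      obtain ⟨K, hKdef⟩ : ∃ K, K = D.cen := ⟨_, rfl⟩
      have hK : ∀ k ∈ K, ∀ x, x * k = x + k ∧ k * x = x + k := by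
        rw [hKdef]
        exact D.cen_add
      have hKT : ∀ k ∈ K, D.T k ∈ K := by
        rw [hKdef]
        exact D.cen_T
      obtain ⟨U, hU⟩ := K.exists_isCompl
      have hU' : IsCompl U K := hU.symm
      letI : Group U := qGroup D.toNB K U hU' hK
      let Q : QM D.toNB U :=
        { K := K
          q := U.projectionOnto K hU'
          ι := U.subtype
          qι := fun x => Submodule.projectionOnto_apply_left hU' x
          nι := fun x => le_rfl
          mul := proj_mul K U hU' hK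
          mem := fun v => Submodule.sub_projection_mem hU' v
          kK := fun k hk => (Submodule.projectionOnto_apply_eq_zero_iff hU').2 hk
          KT := hKT
          Ks := fun k hk => (hL2 V D.T D.H K hKT k hk).1
          Ku := fun k hk => (hL2 V D.T D.H K hKT k hk).2.1
          KT' := fun k hk => (hL2 V D.T D.H K hKT k hk).2.2
          Kc := fun k hk x => (hK k hk x).1 }
      have hQK : Q.K = D.cen := hKdef
      have hdec : ∀ x, ∃ k ∈ D.cen, x = Q.ι (Q.q x) * k := by
        intro x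
        have h1 := Q.mem x
        refine ⟨x - Q.ι (Q.q x), by rwa [hQK] at h1, ?_⟩
        rw [Q.Kc _ h1]
        abel
      have hqk : ∀ k ∈ D.cen, Q.q k = 1 := by
        intro k hk
        rw [Q.kK k (by rwa [hQK]), ← Q.q_one, D.one_eq, map_zero]
      have hqδ : ∀ x, Q.q (D.δ (Q.ι (Q.q x))) = Q.q (D.δ x) := by
        intro x
        obtain ⟨k, hk, hx⟩ := hdec x
        conv_rhs => rw [hx]
        rw [D.cen_mul hL2 hL S hk, Q.mul, hqk _ (D.cen_cen hL2 hL S hk), mul_one]
      have hqδ' : ∀ x, Q.q (D.δ.symm (Q.ι (Q.q x))) = Q.q (D.δ.symm x) := by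
        intro x
        obtain ⟨k, hk, hx⟩ := hdec x
        obtain ⟨z, hz, hzk⟩ := D.cen_surj hL2 hL S hk
        have h1 : D.δ.symm x = D.δ.symm (Q.ι (Q.q x)) * z := by
          rw [Homeomorph.symm_apply_eq, D.cen_mul hL2 hL S hz, D.δ.apply_symm_apply, hzk, ← hx]
        rw [h1, Q.mul, hqk z hz, mul_one]
      let δ' : U ≃ₜ U :=
        { toFun := fun x => Q.q (D.δ (Q.ι x))
          invFun := fun x => Q.q (D.δ.symm (Q.ι x))
          left_inv := fun x => by
            show Q.q (D.δ.symm (Q.ι (Q.q (D.δ (Q.ι x))))) = x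
            rw [hqδ', D.δ.symm_apply_apply, Q.qι]
          right_inv := fun x => by
            show Q.q (D.δ (Q.ι (Q.q (D.δ.symm (Q.ι x))))) = x
            rw [hqδ, D.δ.apply_symm_apply, Q.qι]
          continuous_toFun := Q.cq.comp (D.δ.continuous.comp Q.cι)
          continuous_invFun := Q.cq.comp (D.δ.symm.continuous.comp Q.cι) }
      have hδ' : ∀ x, δ' (Q.q x) = Q.q (D.δ x) := hqδ
      let D' : HD U :=
        { toNB := Q.nb
          Γ := D.Γ.map Q.hom
          TΓ := by
            rintro _ ⟨γ, hγ, rfl⟩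
            exact ⟨D.T γ, D.TΓ γ hγ, Q.qT γ⟩
          TΓ' := by
            rintro _ ⟨γ, hγ, rfl⟩
            exact ⟨D.T.symm γ, D.TΓ' γ hγ, Q.qTs γ⟩
          R := ‖LinearMap.toContinuousLinearMap Q.q‖ * D.R
          coc := by
            intro x
            obtain ⟨γ, hγ, hn⟩ := D.coc (Q.ι x)
            refine ⟨Q.q γ, ⟨γ, hγ, rfl⟩, ?_⟩
            have e : Q.q γ * x = Q.q (γ * Q.ι x) := by rw [Q.mul, Q.qι]
            rw [e]
            exact (Q.nq _).trans (mul_le_mul_of_nonneg_left hn (norm_nonneg _))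
          δ := δ'
          eq := by
            rintro _ ⟨γ, hγ, rfl⟩ x
            show δ' (Q.q γ * x) = δ' (Q.q γ) * δ' x
            have e : Q.q γ * x = Q.q (γ * Q.ι x) := by rw [Q.mul, Q.qι]
            rw [e, hδ', D.eq γ hγ, Q.mul, hδ']
            rfl
          com := by
            intro x
            show δ' (Q.T' x) = Q.T' (δ' x)
            have e : Q.T' x = Q.q (D.T (Q.ι x)) := rfl
            rw [e, hδ', D.com, Q.qT]
            rfl }
      have h3 := Submodule.finrank_add_eq_of_isCompl hU'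
      have h4 : 1 ≤ Module.finrank ℝ K := by
        rw [Submodule.one_le_finrank_iff, hKdef]
        exact hbot
      have hD' := ih _ (by omega) U D' rfl
      have hD'' : ∀ x y : U, δ' (x * y) = δ' x * δ' y := hD'
      apply hC V D S
      intro x y z
      have h5 : Q.q ((D.δ x * D.δ y)⁻¹ * D.δ (x * y)) = 1 := by
        rw [Q.mul, Q.q_inv, Q.mul, ← hδ' (x * y), Q.mul, hD'', hδ', hδ', inv_mul_cancel]
      have h6 : (D.δ x * D.δ y)⁻¹ * D.δ (x * y) ∈ D.cen := by
        rw [← hQK]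
        have h7 := Q.mem ((D.δ x * D.δ y)⁻¹ * D.δ (x * y))
        have h8 : (1 : U) = 0 := by
          rw [← Q.q_one, D.one_eq, map_zero]
        rwa [h5, h8, map_zero, sub_zero] at h7
      exact (h6 z).symm
  intro V _ _ _ _ D
  exact key _ V D rfl

end

end Pool.Agent.D0H26.Nil
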