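import Pool.Agent.D0H26.Nil.Exit

/-!
# Rigidity: statements of the independent modules (with proofs in words)

A homeomorphism `δ` of a simply connected nilpotent Lie group which commutes with a hyperbolic
automorphism and is equivariant under a cocompact subgroup is an automorphism.
-/

set_option autoImplicit false

open Filter Topology Set Metric

namespace Pool.Agent.D0H26.Nil

open Pool.Agent.D0H26.Fac (HSp subV)

universe u v w

/-- A homeomorphism commuting with the hyperbolic automorphism and equivariant under a cocompact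
invariant subgroup. -/
structure HD (V : Type*) [NormedAddCommGroup V] [NormedSpace ℝ V] [Group V] extends NB V where
  Γ : Subgroup V
  TΓ : ∀ γ ∈ Γ, T γ ∈ Γ
  TΓ' : ∀ γ ∈ Γ, T.symm γ ∈ Γ
  R : ℝ
  coc : ∀ x, ∃ γ ∈ Γ, ‖γ * x‖ ≤ R
  δ : V ≃ₜ V
  eq : ∀ γ ∈ Γ, ∀ x, δ (γ * x) = δ γ * δ x
  com : ∀ x, δ (T x) = T (δ x)

section
variable {V : Type*} [NormedAddCommGroup V] [NormedSpace ℝ V] [Group V]

/-- the displacement `E a x = δ(x)⁻¹ δ(x a)` -/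
def HD.E (D : HD V) (a x : V) : V := (D.δ x)⁻¹ * D.δ (x * a)

theorem HD.δ_one (D : HD V) : D.δ 1 = 1 := by
  have h := D.eq 1 D.Γ.one_mem 1
  rw [mul_one] at h
  exact left_eq_mul.1 h

theorem HD.E_one (D : HD V) (a : V) : D.E a 1 = D.δ a := by
  show (D.δ 1)⁻¹ * D.δ (1 * a) = D.δ a
  rw [D.δ_one, one_mul, inv_one, one_mul]

theorem HD.E_per (D : HD V) {γ : V} (hγ : γ ∈ D.Γ) (a x : V) : D.E a (γ * x) = D.E a x := by
  show (D.δ (γ * x))⁻¹ * D.δ (γ * x * a) = (D.δ x)⁻¹ * D.δ (x * a)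
  rw [mul_assoc, D.eq γ hγ, D.eq γ hγ]
  group

/-- the data of the inverse automorphism -/
def HD.swap [FiniteDimensional ℝ V] (D : HD V) : HD V where
  cmul := D.cmul
  line := D.line
  acom := D.acom
  T := D.T.symm
  Tmul := D.Tsmul
  H := D.H.swap
  n := D.n
  W := D.W
  W0 := D.W0
  Wn := D.Wn
  Wanti := D.Wanti
  Wid := D.Wid
  Wcom := D.Wcom
  WT i := symm_mem D.T (D.W i) (D.WT i)
  Γ := D.Γ
  TΓ := D.TΓ'
  TΓ' := D.TΓ
  R := D.R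
  coc := D.coc
  δ := D.δ
  eq := D.eq
  com x := by
    apply D.T.injective
    rw [← D.com, D.T.apply_symm_apply, D.T.apply_symm_apply]

end

/-- **LEAF.** `Eˢ = {v | u v = 0}`, `Eᵘ = {v | s v = 0}`, `E a x = δ(x)⁻¹ δ(x a)`.
(a) `a ∈ Eˢ → E a x ∈ Eˢ` for all `x`.  Proof: `Tⁿ (E a x) = E (Tⁿ a) (Tⁿ x)` (`com`, `Tmul`), and
`E b y → 0 = 1` as `b → 0` uniformly in `y` (`E` is `Γ`-invariant in `y` by `E_per`, so `y` may be
taken in the ball of radius `R`, and `E` is continuous, `E 1 y = 1`); `‖Tⁿ a‖ ≤ C lⁿ ‖a‖` as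
`a = s a` (`D.H.bs`).  So `Tⁿ v → 0` for `v = E a x`, hence `u v = T⁻ⁿ (u (Tⁿ v)) → 0` (`D.H.bu`).
(See `Pool.Agent.D0H25.NIL.Split`, where the same is done for products.)
(b) the same for `Eᵘ` with `T⁻¹` (apply (a) to `D.swap`).
(c) for `y ∈ Eᵘ` there is `w ∈ Eᵘ` with `E w x = y`: `w = x⁻¹ * δ⁻¹(δ(x) * y)`; that `w ∈ Eᵘ` is (b) for
the data `(δ⁻¹, δ(Γ))`: `δ(Γ)` is a subgroup by `eq`, invariant under `T`, `T⁻¹` by `com`, cocompact:
for `y = δ x` take `γ` with `‖γ x‖ ≤ R`, then `δ(γ) * y = δ(γ x)` lies in the compact set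
`δ (closedBall 0 R)`; and `δ⁻¹ (γ' * y) = δ⁻¹ γ' * δ⁻¹ y` for `γ' ∈ δ(Γ)`.
(d) `u⁻¹ * a = a' * u'` with `a' = ps (u⁻¹ * a)`, `u' = pu (u⁻¹ * a)`, so `x * a = x * u * a' * u'`,
`δ(x a) = δ(x) E a x`, `δ(x a) = δ(x u) E a' (x u) E u' (x u a')`, `δ (x u) = δ(x) E u x`; hence
`(E u x)⁻¹ * E a x = E a' (x u) * E u' (x u a')` with factors in `Eˢ` and `Eᵘ`; use `Sp.uniq`.
(e) boundedness: compactness and `E_per`.
(f) a continuous `Γ`-invariant function that is invariant under right translations by `Eᵘ` is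
constant: as in `ND.dense` in `Pool.Agent.D0H26.Nil.Core` (every `y` is `γ * x * w * r` with `w ∈ Eᵘ`
and `r` small) and uniform continuity. -/
def S_LEAF : Prop :=
  ∀ (V : Type u) [NormedAddCommGroup V] [NormedSpace ℝ V] [FiniteDimensional ℝ V] [Group V]
    (D : HD V) (S : Sp D.toNB),
    (∀ x a, D.H.u a = 0 → D.H.u (D.E a x) = 0) ∧
    (∀ x a, D.H.s a = 0 → D.H.s (D.E a x) = 0) ∧
    (∀ x y, D.H.s y = 0 → ∃ w, D.H.s w = 0 ∧ D.E w x = y) ∧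
    (∀ x a u, D.H.u a = 0 → D.H.s u = 0 →
      D.E (S.ps (u⁻¹ * a)) (x * u) = S.ps ((D.E u x)⁻¹ * D.E a x)) ∧
    (∀ C : ℝ, ∃ C' : ℝ, ∀ x a, ‖a‖ ≤ C → ‖D.E a x‖ ≤ C') ∧
    (∀ f : V → V, Continuous f → (∀ γ ∈ D.Γ, ∀ x, f (γ * x) = f x) →
      (∀ x w, D.H.s w = 0 → f (x * w) = f x) → ∀ x, f x = f 1)

/-- **CEN.**  If `δ` is a homomorphism modulo central elements, it is a homomorphism.
Proof: `D(x, y) = (δ x * δ y)⁻¹ * δ (x y) = δ(y)⁻¹ * E y x` is central.  For `a ∈ Eˢ`: `D(x, a) ∈ Eˢ` by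
LEAF (a) (`δ a = E a 1`).  Claim: `D(x, a) = 1` for all `x` and `a ∈ Eˢ ∩ W j`, by descending induction
on `j` (`W n = 0`).  Let `a ∈ Eˢ ∩ W j`, `u ∈ Eᵘ`.  Then `ps (u⁻¹ * a) = a * b` with
`b ∈ Eˢ ∩ W (j + 1)` (this is `Sp.A_mem` in `Pool.Agent.D0H26.Nil.Exit` with `v = a`, `w = u`, `t = 1`).
Left side of LEAF (d): `E (a b) (x u) = E a (x u) * E b (x u a) = δ(a) D(x u, a) δ(b)` by the induction
hypothesis for `b`.  Right side: `E a x = δ(a) D(x, a)`, `E u x = δ(u) D(x, u)`, with central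
`D(x, a) ∈ Eˢ`, `D(x, u) ∈ Eᵘ`, so `ps ((E u x)⁻¹ * E a x) = D(x, a) * ps (δ(u)⁻¹ * δ(a))`
(`Sp.ps_s_mul`, `Sp.ps_mul_u`).  Comparing with the same for `x = 1` (`D(1, a) = 1`):
`D(x u, a) = D(x, a) * D(u, a)` for all `x` and all `u ∈ Eᵘ`.  `D(·, a)` is bounded (LEAF (e)) and
`D(uᵐ, a) = D(u, a)ᵐ = m • D(u, a)`, so `D(u, a) = 1`, so `D(x u, a) = D(x, a)`, and `D(·, a)` is
continuous and `Γ`-invariant, hence constant by LEAF (f), `= D(1, a) = 1`.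
So `δ (x a) = δ x * δ a` for `a ∈ Eˢ`, and by symmetry (`D.swap`, `Sp.swap` in
`Pool.Agent.D0H26.Nil.Cent`) for `a ∈ Eᵘ`; `y = ps y * pu y`. -/
def S_CEN : Prop :=
  ∀ (V : Type u) [NormedAddCommGroup V] [NormedSpace ℝ V] [FiniteDimensional ℝ V] [Group V]
    (D : HD V) (_ : Sp D.toNB),
    (∀ x y z, Commute ((D.δ x * D.δ y)⁻¹ * D.δ (x * y)) z) →
    ∀ x y, D.δ (x * y) = D.δ x * D.δ y

/-- **RIG.**  Rigidity (helper26). -/
def S_RIG : Prop :=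
  ∀ (V : Type u) [NormedAddCommGroup V] [NormedSpace ℝ V] [FiniteDimensional ℝ V] [Group V]
    (D : HD V), ∀ x y, D.δ (x * y) = D.δ x * D.δ y

/-- **DECK.**  The deck transformations of a covering `F` of a factor by a nilpotent group, divided
by their value at `1`, are as in `HD` (for a power `T ^ J` and a subgroup of finite index of `Γ`).
Proof (the abelian case is `Pool.Agent.D0H26.Fac.Aff`: `CD.Dk`, `CD.uniq`, `CD.exists_dk`,
`CD.pigeon`, `CD.dk_conj`, `CD.almost_comm`, with additive instead of multiplicative notation):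
`τ` and its inverse exist by the lifting theorem, lifts are unique.  For a deck transformation `τ`:
(1) `Tⁿ τ T⁻ⁿ` are deck transformations; two of them take values in the same `Γ`-orbit at `1`
(pigeonhole on the fibre), so `T^J (τ (T^(-J) x)) = γ' * τ x` for all `x`, with `J ≥ 1`, `γ' ∈ Γ`.  At
`x = 1`: `T^J (τ 1) = γ' * τ 1`.  Let `δ w = (τ 1)⁻¹ * τ w`; then `δ (T^J w) = T^J (δ w)`.
(2) `Γ₀ = {γ ∈ Γ | ∃ γ' ∈ Γ, ∀ x, τ (γ * x) = γ' * τ x}` is a subgroup, invariant under `T^J` and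
`T^(-J)`.  Cocompact: for `γ ∈ Γ` the point `τ γ` lies in the fibre of `F 1`; let `s(γ)` be the
element of the finite set `S` with `τ γ ∈ Γ s(γ)`.  If `s(γ₁) = s(γ₂)` then `γ₂ γ₁⁻¹ ∈ Γ₀` (uniqueness of
lifts).  Choose for every value of `s` a representative `γₖ`; given `x`, take `γ ∈ Γ` with
`‖γ * x‖ ≤ R`; `γ⁻¹ = γ₀ * γₖ` with `γ₀ ∈ Γ₀`, so `γ₀⁻¹ * x = γₖ * (γ * x)` lies in the union of the finitely
many compact sets `γₖ * closedBall 0 R`.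
(3) `δ (γ₀ * x) = (τ 1)⁻¹ * γ₀' * τ x = δ γ₀ * δ x`.
The `NB` structure for `T ^ J`: same `W`, `n`, the same `s`, `u`, `C`, and `l ^ J`. -/
def S_DECK : Prop :=
  ∀ (V : Type u) [NormedAddCommGroup V] [NormedSpace ℝ V] [FiniteDimensional ℝ V] [Group V]
    (D : NB V) (Γ : Subgroup V) (_ : ∀ γ ∈ Γ, D.T γ ∈ Γ) (_ : ∀ γ ∈ Γ, D.T.symm γ ∈ Γ) (R : ℝ)
    (_ : ∀ x, ∃ γ ∈ Γ, ‖γ * x‖ ≤ R) (X : Type v) [TopologicalSpace X] [T2Space X] (g : X → X)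
    (F : V → X) (_ : IsCoveringMap F) (_ : ∀ γ ∈ Γ, ∀ x, F (γ * x) = F x)
    (_ : ∀ x, F (D.T x) = g (F x))
    (_ : ∀ a, ∃ S : Finset V, ∀ x, F x = a → ∃ s ∈ S, ∃ γ ∈ Γ, x = γ * s) (x y : V),
    F x = F y → ∃ τ : V ≃ₜ V, τ x = y ∧ (∀ w, F (τ w) = F w) ∧
      ∃ D' : HD V, ∀ w, D'.δ w = (τ 1)⁻¹ * τ w

end Pool.Agent.D0H26.Nil
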