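import Pool.Agent.D0H26.Nil.Grp
import Pool.Agent.D0H26.Nil.Deck
import Pool.Agent.D0H98.NIL.Lin

/-!
# The upper central series in exponential coordinates
-/

set_option autoImplicit false
set_option linter.unusedSectionVars false

open Filter Topology Set Metric
open scoped commutatorElement

namespace Pool.Agent.D0H26.Nil

open Pool.Agent.D0H26.Fac (HSp subV)

universe u v w

section
variable {V : Type*} [NormedAddCommGroup V] [NormedSpace ℝ V] [FiniteDimensional ℝ V] [Group V]
  (E : ExpCoord V)

include E

theorem ExpCoord.ideal_bot : IsIdeal (⊥ : Submodule ℝ V) := by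
  intro x k hk
  rw [Submodule.mem_bot] at hk
  rw [hk, ← E.one_eq, mul_one, sub_self, mul_inv_cancel, E.one_eq]
  exact ⟨Submodule.zero_mem _, Submodule.zero_mem _⟩

/-- commuting elements add -/
theorem ExpCoord.add_of_com {x y : V} (h : x * y = y * x) : x * y = x + y := by
  have h1 := E.acom _ E.ideal_bot x y (by
    have e : x⁻¹ * y⁻¹ * x * y = (y * x)⁻¹ * (x * y) := by group
    rw [e, h, inv_mul_cancel, E.one_eq]
    exact Submodule.zero_mem _)
  rwa [Submodule.mem_bot, sub_eq_zero] at h1

/-- one-parameter subgroups are lines -/
theorem ExpCoord.onepar (φ : ℝ → V) (hc : Continuous φ)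
    (h : ∀ s t, φ (s + t) = φ s * φ t) (t : ℝ) : φ t = t • φ 1 := by
  have hadd : ∀ s t, φ (s + t) = φ s + φ t := by
    intro s t
    rw [h]
    apply E.add_of_com
    rw [← h, ← h, add_comm]
  have h1 := map_real_smul (AddMonoidHom.mk' φ hadd) hc t 1
  rw [smul_eq_mul, mul_one] at h1
  exact h1

/-- continuous homomorphisms are linear -/
theorem ExpCoord.lin {V' : Type*} [NormedAddCommGroup V'] [NormedSpace ℝ V']
    [FiniteDimensional ℝ V'] [Group V'] (E' : ExpCoord V') (f : V → V') (hf : Continuous f)
    (h : ∀ x y, f (x * y) = f x * f y) : ∃ A : V →ₗ[ℝ] V', ∀ x, A x = f x := by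
  have hs : ∀ (t : ℝ) x, f (t • x) = t • f x := by
    intro t x
    have h1 := E'.onepar (fun t => f (t • x)) (hf.comp
      (continuous_id.smul continuous_const)) (fun s t => by
        show f ((s + t) • x) = f (s • x) * f (t • x)
        rw [← E.line, h]) t
    simp only [one_smul] at h1
    exact h1
  have ha : ∀ x y, f (x + y) = f x + f y := by
    intro x y
    have h1 := (hf.tendsto _).comp (E.trotter x y)
    have h2 := E'.trotter (f x) (f y)
    refine tendsto_nhds_unique h1 (h2.congr fun m => ?_)
    show _ = f _
    rw [hs, h, hs, hs]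
  exact ⟨{ toFun := f
           map_add' := ha
           map_smul' := hs }, fun x => rfl⟩

/-- conjugations are linear -/
theorem ExpCoord.conj (y : V) : ∃ A : V →ₗ[ℝ] V, ∀ x, A x = y * x * y⁻¹ := by
  refine E.lin E (fun x => y * x * y⁻¹) ?_ fun a b => ?_
  · have c1 : Continuous fun x : V => y * x := E.cont.comp (continuous_const.prodMk continuous_id)
    exact E.cont.comp (c1.prodMk continuous_const)
  · show y * (a * b) * y⁻¹ = y * a * y⁻¹ * (y * b * y⁻¹)
    group

/-- the terms of the upper central series are ideals -/
theorem ExpCoord.ucs (i : ℕ) : ∃ K : Submodule ℝ V, IsIdeal K ∧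
    ∀ x, x ∈ K ↔ x ∈ Subgroup.upperCentralSeries V i := by
  induction i with
  | zero =>
    refine ⟨⊥, E.ideal_bot, fun x => ?_⟩
    rw [Submodule.mem_bot, Subgroup.upperCentralSeries_zero, Subgroup.mem_bot, E.one_eq]
  | succ i ih =>
    obtain ⟨K, hK, hKm⟩ := ih
    choose A hA using E.conj
    have hN := idealSub_normal E K hK
    have hmem : ∀ x, x ∈ idealSub E K hK ↔ x ∈ Subgroup.upperCentralSeries V i := hKm
    -- `y x y⁻¹ ≡ x`
    have h1 : ∀ x y, y * x * y⁻¹ - x ∈ K ↔ ⁅x, y⁆ ∈ Subgroup.upperCentralSeries V i := by
      intro x y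
      rw [← E.mk_iff K hK, ← hmem, ← QuotientGroup.eq_one_iff, commutatorElement_def,
        QuotientGroup.mk_mul, QuotientGroup.mk_mul, QuotientGroup.mk_mul, QuotientGroup.mk_mul,
        QuotientGroup.mk_mul, QuotientGroup.mk_inv, QuotientGroup.mk_inv]
      constructor
      · intro h
        have h' := congrArg (fun z : V ⧸ idealSub E K hK => z * (y : V ⧸ idealSub E K hK)) h
        simp only [inv_mul_cancel_right] at h'
        rw [h', mul_inv_cancel_right, mul_inv_cancel]
      · intro h
        rw [mul_inv_eq_one, mul_inv_eq_iff_eq_mul] at h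
        rw [← h, mul_inv_cancel_right]
    refine ⟨⨅ y, K.comap (A y - LinearMap.id), ?_, fun x => ?_⟩
    · have hle : ∀ k ∈ K, k ∈ ⨅ y, K.comap (A y - LinearMap.id) := by
        intro k hk
        rw [Submodule.mem_iInf]
        intro y
        rw [Submodule.mem_comap, LinearMap.sub_apply, hA]
        exact K.sub_mem (hK y k hk).2 hk
      intro x k hk
      have hk' := hk
      rw [Submodule.mem_iInf] at hk
      have h2 : ∀ y, y * k * y⁻¹ - k ∈ K := by
        intro y
        have := hk y
        rwa [Submodule.mem_comap, LinearMap.sub_apply, hA] at this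
      have h3 : x⁻¹ * k⁻¹ * x * k ∈ K := by
        have h4 := h2 x⁻¹
        rw [inv_inv] at h4
        have h5 := (E.mk_iff K hK k (x⁻¹ * k * x)).2 h4
        rw [QuotientGroup.eq] at h5
        have h6 := (idealSub E K hK).inv_mem h5
        have e : (k⁻¹ * (x⁻¹ * k * x))⁻¹ = x⁻¹ * k⁻¹ * x * k := by group
        rw [e] at h6
        exact h6
      have h4 := E.acom K hK x k h3
      constructor
      · have e : x * k - x = (x * k - (x + k)) + k := by abel
        rw [e]
        exact Submodule.add_mem _ (hle _ h4) hk'
      · have e : x * k * x⁻¹ = (x * k * x⁻¹ - k) + k := by abel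
        rw [e]
        exact Submodule.add_mem _ (hle _ (h2 x)) hk'
    · rw [Submodule.mem_iInf, Subgroup.mem_upperCentralSeries_succ_iff]
      refine forall_congr' fun y => ?_
      rw [Submodule.mem_comap, LinearMap.sub_apply, hA]
      exact h1 x y

/-- the group with its upper central series -/
theorem ExpCoord.nb (hn : Group.IsNilpotent V) (T : V ≃ₗ[ℝ] V)
    (hT : ∀ x y, T (x * y) = T x * T y) (H : HSp T) : ∃ B : NB V, B.T = T := by
  obtain ⟨n, hn⟩ := Group.IsNilpotent.nilpotent V
  choose K hK hKm using E.ucs
  let e : V ≃* V :=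
    { toFun := T
      invFun := T.symm
      left_inv := T.symm_apply_apply
      right_inv := T.apply_symm_apply
      map_mul' := hT }
  have hchar : ∀ i x, x ∈ Subgroup.upperCentralSeries V i →
      T x ∈ Subgroup.upperCentralSeries V i := by
    intro i x hx
    have h1 := Subgroup.comap_upperCentralSeries e i
    rw [← h1] at hx
    exact hx
  have h0 : ∀ x, x ∈ K 0 → x = 1 := by
    intro x hx
    rw [hKm, Subgroup.upperCentralSeries_zero, Subgroup.mem_bot] at hx
    exact hx
  have hcom : ∀ i x, ∀ y ∈ K (i + 1), x⁻¹ * y⁻¹ * x * y ∈ K i := by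
    intro i x y hy
    rw [hKm] at hy ⊢
    have h1 := Subgroup.mem_upperCentralSeries_succ_iff.1 (inv_mem hy) x⁻¹
    have h2 := inv_mem h1
    have e : (⁅y⁻¹, x⁻¹⁆)⁻¹ = x⁻¹ * y⁻¹ * x * y := by
      rw [commutatorElement_def]
      group
    rwa [e] at h2
  have hmono : ∀ i, K i ≤ K (i + 1) := by
    intro i x hx
    rw [hKm] at hx ⊢
    rw [Subgroup.mem_upperCentralSeries_succ_iff]
    intro y
    have hnorm : (Subgroup.upperCentralSeries V i).Normal := inferInstance
    rw [commutatorElement_def]
    have h1 := hnorm.conj_mem _ (inv_mem hx) y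
    have e : x * y * x⁻¹ * y⁻¹ = x * (y * x⁻¹ * y⁻¹) := by group
    rw [e]
    exact mul_mem hx h1
  exact ⟨{ cmul := E.cont
           line := E.line
           acom := fun K hK x y h => E.acom K hK x y h
           T := T
           Tmul := hT
           H := H
           n := n
           W := fun i => K (n - i)
           W0 := by
             rw [Nat.sub_zero, eq_top_iff]
             intro x _
             rw [hKm, hn]
             trivial
           Wn := by
             rw [Nat.sub_self, eq_bot_iff]
             intro x hx
             rw [Submodule.mem_bot, h0 x hx, E.one_eq]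
           Wanti := fun i => by
             rcases Nat.lt_or_ge i n with h | h
             · have e : n - i = (n - (i + 1)) + 1 := by omega
               rw [e]
               exact hmono _
             · have e1 : n - i = 0 := by omega
               have e2 : n - (i + 1) = 0 := by omega
               rw [e1, e2]
           Wid := fun i => hK _
           Wcom := fun i x y hy => by
             rcases Nat.lt_or_ge i n with h | h
             · have e : n - i = (n - (i + 1)) + 1 := by omega
               rw [e] at hy
               exact hcom _ x y hy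
             · have e1 : n - i = 0 := by omega
               have e2 : n - (i + 1) = 0 := by omega
               rw [e1] at hy
               rw [e2, h0 y hy, inv_one, mul_one, mul_one, inv_mul_cancel, E.one_eq]
               exact Submodule.zero_mem _
           WT := fun i x hx => by
             rw [hKm] at hx ⊢
             exact hchar _ x hx }, rfl⟩

end

end Pool.Agent.D0H26.Nil
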